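import Pool.Agent.Helper5.MMRep
import Pool.Agent.Helper60.TJ.C0

set_option autoImplicit false

/-!
# The law of a pair of replicas
-/

namespace Pool.Agent.Helper5.MM

open MeasureTheory ProbabilityTheory Filter Topology Pool.Agent.Helper60.TJ Pool.Agent.Helper5.Rep
open Pool.Agent.Helper61.MM
open scoped symmDiff

/-! ### measurability -/

theorem measurableSet_ne : MeasurableSet {p : XX | p.2.1 ≠ p.2.2} :=
  (measurableSet_eq_fun (measurable_fst.comp measurable_snd)
    (measurable_snd.comp measurable_snd)).compl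

theorem measurableSet_NT : MeasurableSet {J : Ed → ℝ | NT (wt J)} := by
  have h1 : {J : Ed → ℝ | NT (wt J)} =
      ⋂ C : Finset Ed, ⋂ a : Finset Ed, {J | C.Nonempty → en (wt J) (ind a) C ≠ 0} := by
    ext J
    simp only [Set.mem_ofPred_eq, Set.mem_iInter]
    constructor
    · intro h C a hC
      exact h C hC _
    · intro h C hC U
      have h2 := h C (C.filter fun e => U e = true) hC
      have h3 : en (wt J) (ind (C.filter fun e => U e = true)) C = en (wt J) U C := by
        unfold en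
        refine Finset.sum_congr rfl fun e he => ?_
        congr 2
        simp only [ind, Finset.mem_filter, he, true_and]
        cases U e <;> rfl
      rwa [h3] at h2
  rw [h1]
  refine MeasurableSet.iInter fun C => MeasurableSet.iInter fun a => ?_
  by_cases hC : C.Nonempty
  · have h2 : {J : Ed → ℝ | C.Nonempty → en (wt J) (ind a) C ≠ 0} =
        {J | en (wt J) (ind a) C = 0}ᶜ := by
      ext J; simp [hC]
    rw [h2]
    refine MeasurableSet.compl (measurableSet_eq_fun ?_ measurable_const)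
    exact (measurable_en C).comp (measurable_id.prodMk measurable_const)
  · have h2 : {J : Ed → ℝ | C.Nonempty → en (wt J) (ind a) C ≠ 0} = Set.univ := by
      ext J; simp [hC]
    rw [h2]; exact MeasurableSet.univ

theorem measurableSet_GSp {α : Type*} [MeasurableSpace α] {J : α → (Ed → ℝ)}
    {U : α → (Ed → Bool)} (hJ : Measurable J) (hU : Measurable U) :
    MeasurableSet {p | U p ∈ GS (wt (J p)) (par (U p))} := by
  have h1 : {p | U p ∈ GS (wt (J p)) (par (U p))} =
      ⋂ C : Finset Ed, {p | IsCyc C → 0 ≤ en (wt (J p)) (U p) C} := by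
    ext p
    simp [GS]
  rw [h1]
  refine MeasurableSet.iInter fun C => ?_
  by_cases hC : IsCyc C
  · simp only [hC, true_imp_iff]
    exact measurableSet_le measurable_const ((measurable_en C).comp (hJ.prodMk hU))
  · simp only [hC, false_imp_iff]
    exact MeasurableSet.univ

theorem measurableSet_niceW : MeasurableSet {p : XX | (∀ e, 0 < p.1 e) ∧ NT (wt p.1) ∧
    p.2.1 ∈ GS (wt p.1) (par p.2.1) ∧
    p.2.2 ∈ GS (wt p.1) (par p.2.1) ∧ p.2.1 ≠ p.2.2} := by
  have h1 : {p : XX | (∀ e, 0 < p.1 e) ∧ NT (wt p.1) ∧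
    p.2.1 ∈ GS (wt p.1) (par p.2.1) ∧
    p.2.2 ∈ GS (wt p.1) (par p.2.1) ∧ p.2.1 ≠ p.2.2} =
    {p : XX | ∀ e, 0 < p.1 e} ∩ (Prod.fst ⁻¹' {J : Ed → ℝ | NT (wt J)} ∩
      ({p : XX | p.2.1 ∈ GS (wt p.1) (par p.2.1)} ∩
      (({p : XX | p.2.2 ∈ GS (wt p.1) (par p.2.2)} ∩ {p : XX | par p.2.1 = par p.2.2}) ∩
      {p : XX | p.2.1 ≠ p.2.2}))) := by
    ext p
    simp only [Set.mem_ofPred_eq, Set.mem_inter_iff, Set.mem_preimage]
    constructor
    · rintro ⟨h1, h2, h3, h4, h5⟩
      have h6 : par p.2.1 = par p.2.2 := by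
        funext v; exact (h4.1 v).symm
      exact ⟨h1, h2, h3, ⟨h6 ▸ h4, h6⟩, h5⟩
    · rintro ⟨h1, h2, h3, ⟨h4, h6⟩, h5⟩
      exact ⟨h1, h2, h3, h6 ▸ h4, h5⟩
  rw [h1]
  refine MeasurableSet.inter ?_ (MeasurableSet.inter (measurableSet_NT.preimage measurable_fst)
    (MeasurableSet.inter ?_ (MeasurableSet.inter (MeasurableSet.inter ?_ ?_) measurableSet_ne)))
  · have h2 : {p : XX | ∀ e, 0 < p.1 e} = ⋂ e : Ed, {p : XX | 0 < p.1 e} := by
      ext p; simp
    rw [h2]
    exact MeasurableSet.iInter fun e => measurableSet_lt measurable_const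
      ((measurable_pi_apply e).comp measurable_fst)
  · exact measurableSet_GSp measurable_fst (measurable_fst.comp measurable_snd)
  · exact measurableSet_GSp measurable_fst (measurable_snd.comp measurable_snd)
  · have hp : Measurable (fun U : Ed → Bool => par U) := measurable_pi_lambda _ measurable_par
    exact measurableSet_eq_fun (hp.comp (measurable_fst.comp measurable_snd))
      (hp.comp (measurable_snd.comp measurable_snd))

theorem meas_ww (g : Gm) : Measurable (ww g) := by
  refine measurable_pi_lambda _ fun e => ?_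
  unfold ww
  by_cases h : e ∈ g.2
  · simp only [if_pos h]
    exact measurable_snd.comp ((measurable_pi_apply e).comp measurable_fst)
  · simp only [if_neg h]
    exact measurable_fst.comp ((measurable_pi_apply e).comp measurable_fst)

theorem meas_uu (g : Gm) : Measurable (fun s : Vl => uu s g) :=
  measurable_fst.comp (measurable_pi_apply g)

theorem meas_rp (i : Fin 3) : Measurable (fun z : Om => rp z i) := by
  fin_cases i
  · exact measurable_fst.comp measurable_snd
  · exact measurable_fst.comp (measurable_snd.comp measurable_snd)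
  · exact measurable_snd.comp (measurable_snd.comp measurable_snd)

theorem meas_pr (i j : Fin 3) (g : Gm) : Measurable (pr i j g) :=
  ((meas_ww g).comp measurable_fst).prodMk
    (((meas_uu g).comp (meas_rp i)).prodMk ((meas_uu g).comp (meas_rp j)))

theorem Df_eq (i j : Fin 3) (g : Gm) : Df i j g = pr i j g ⁻¹' {p : XX | p.2.1 ≠ p.2.2} := rfl

theorem measurableSet_Df (i j : Fin 3) (g : Gm) : MeasurableSet (Df i j g) := by
  rw [Df_eq]; exact measurableSet_ne.preimage (meas_pr i j g)

/-! ### the law of a pair -/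

theorem gad_g0 (g : Gm) : gad g g0 = g := by
  unfold gad g0
  refine Prod.ext ?_ ?_
  · exact symmDiff_bot g.1
  · exact symmDiff_bot g.2

theorem ww_g0_aE (g : Gm) (ω : Env) : ww g0 (aE g ω) = ww g ω := by
  funext e
  unfold ww aE
  by_cases h : e ∈ g.2
  · simp [h]
  · simp [h]

theorem rp_aO (g : Gm) (z : Om) (i : Fin 3) : rp (aO g z) i = aV g (rp z i) := by
  fin_cases i <;> rfl

theorem pr_aO (i j : Fin 3) (g : Gm) (z : Om) : pr i j g0 (aO g z) = pr i j g z := by
  have h1 : ∀ k, uu (rp (aO g z) k) g0 = uu (rp z k) g := by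
    intro k
    rw [rp_aO]
    unfold uu aV
    rw [gad_g0]
  unfold pr
  rw [h1, h1]
  congr 1
  exact ww_g0_aE g z.1

/-- weights and states of three replicas without modification and without spare weights -/
def obs (z : Om) : WT × Rs × Rs × Rs := (bE0 z.1, rs z.2.1, rs z.2.2.1, rs z.2.2.2)

theorem meas_obs : Measurable obs :=
  (meas_bE0.comp measurable_fst).prodMk
    ((meas_rs.comp (measurable_fst.comp measurable_snd)).prodMk
    ((meas_rs.comp (measurable_fst.comp (measurable_snd.comp measurable_snd))).prodMk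
    (meas_rs.comp (measurable_snd.comp (measurable_snd.comp measurable_snd)))))

theorem map_obs {lam : Measure ℝ} [IsProbabilityMeasure lam] {κ : Kernel WT Rs} {R : Measure Om}
    (hR : IsR lam κ R) : R.map obs = (PB lam) ⊗ₘ (κ ×ₖ (κ ×ₖ κ)) := by
  have := hR.mark
  have := hR.prob
  have h1 : obs = Prod.snd ∘ (fun z : Om =>
    (spr z.1, bE0 z.1, rs z.2.1, rs z.2.2.1, rs z.2.2.2)) := rfl
  have h2 : Measurable (fun z : Om =>
      (spr z.1, bE0 z.1, rs z.2.1, rs z.2.2.1, rs z.2.2.2)) :=
    (meas_spr.comp measurable_fst).prodMk meas_obs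
  rw [h1, ← Measure.map_map measurable_snd h2, hR.law, Measure.map_snd_prod]
  simp

/-- the projection to a pair -/
def obs2 (q : WT × Rs × Rs) : XX := (q.1.1, (q.2.1 ∅).1, (q.2.2 ∅).1)

theorem meas_obs2 : Measurable obs2 := by
  have h : Measurable (fun r : Rs => (r ∅).1) := measurable_fst.comp (measurable_pi_apply _)
  exact (measurable_fst.comp measurable_fst).prodMk
    ((h.comp (measurable_fst.comp measurable_snd)).prodMk
      (h.comp (measurable_snd.comp measurable_snd)))

theorem map_pr {lam : Measure ℝ} (hl : Wgt lam) {κ : Kernel WT Rs} {R : Measure Om}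
    (hR : IsR lam κ R) {i j : Fin 3} (hij : i ≠ j) (g : Gm) :
    R.map (pr i j g) = ((PB lam) ⊗ₘ (κ ×ₖ κ)).map obs2 := by
  have := hl.prob
  have := hR.mark
  have := hR.prob
  have h0 : R.map (pr i j g) = R.map (pr i j g0) := by
    have h1 : pr i j g = pr i j g0 ∘ aO g := funext fun z => (pr_aO i j g z).symm
    rw [h1, ← Measure.map_map (meas_pr i j g0) (hR.act g).measurable, (hR.act g).map_eq]
  rw [h0]
  have hsw : ((PB lam) ⊗ₘ (κ ×ₖ κ)).map
      (fun p : WT × (Rs × Rs) => (p.1, (p.2.2, p.2.1))) = (PB lam) ⊗ₘ (κ ×ₖ κ) := cp2_swap _ _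
  have key : ∀ (f : WT × Rs × Rs × Rs → WT × Rs × Rs), Measurable f →
      ((PB lam) ⊗ₘ (κ ×ₖ (κ ×ₖ κ))).map f = (PB lam) ⊗ₘ (κ ×ₖ κ) → pr i j g0 = obs2 ∘ f ∘ obs →
      R.map (pr i j g0) = ((PB lam) ⊗ₘ (κ ×ₖ κ)).map obs2 := by
    intro f hf h1 h2
    rw [h2, ← Measure.map_map meas_obs2 (hf.comp meas_obs), ← Measure.map_map hf meas_obs,
      map_obs hR, h1]
  have h12 := cp3_map12 (PB lam) κ
  have h13 := cp3_map13 (PB lam) κ
  have h23 := cp3_map23 (PB lam) κ
  have hsm : Measurable (fun p : WT × (Rs × Rs) => (p.1, (p.2.2, p.2.1))) := by fun_prop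
  have h21 : ((PB lam) ⊗ₘ (κ ×ₖ (κ ×ₖ κ))).map
      (fun p : WT × (Rs × Rs × Rs) => (p.1, (p.2.2.1, p.2.1))) = (PB lam) ⊗ₘ (κ ×ₖ κ) := by
    conv_rhs => rw [← hsw, ← h12, Measure.map_map hsm (by fun_prop)]
    rfl
  have h31 : ((PB lam) ⊗ₘ (κ ×ₖ (κ ×ₖ κ))).map
      (fun p : WT × (Rs × Rs × Rs) => (p.1, (p.2.2.2, p.2.1))) = (PB lam) ⊗ₘ (κ ×ₖ κ) := by
    conv_rhs => rw [← hsw, ← h13, Measure.map_map hsm (by fun_prop)]
    rfl
  have h32 : ((PB lam) ⊗ₘ (κ ×ₖ (κ ×ₖ κ))).map
      (fun p : WT × (Rs × Rs × Rs) => (p.1, (p.2.2.2, p.2.2.1))) = (PB lam) ⊗ₘ (κ ×ₖ κ) := by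
    conv_rhs => rw [← hsw, ← h23, Measure.map_map hsm (by fun_prop)]
    rfl
  have hpr : ∀ z, (pr i j g0 z) = (((bE0 z.1).1), (rs (rp z i) ∅).1, (rs (rp z j) ∅).1) := by
    intro z
    rfl
  fin_cases i <;> fin_cases j
  · exact absurd rfl hij
  · exact key _ (by fun_prop) h12 (funext fun z => hpr z)
  · exact key _ (by fun_prop) h13 (funext fun z => hpr z)
  · exact key _ (by fun_prop) h21 (funext fun z => hpr z)
  · exact absurd rfl hij
  · exact key _ (by fun_prop) h23 (funext fun z => hpr z)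
  · exact key _ (by fun_prop) h31 (funext fun z => hpr z)
  · exact key _ (by fun_prop) h32 (funext fun z => hpr z)
  · exact absurd rfl hij

/-- all pairs of different replicas have the same law, after every modification -/
theorem law_pr {lam : Measure ℝ} (hl : Wgt lam) {κ : Kernel WT Rs} {R : Measure Om}
    (hR : IsR lam κ R) {i j : Fin 3} (hij : i ≠ j) (g : Gm) :
    (R.restrict (Df i j g)).map (pr i j g) = QQ R := by
  unfold QQ
  rw [Df_eq, Df_eq, ← Measure.restrict_map (meas_pr i j g) measurableSet_ne,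
    ← Measure.restrict_map (meas_pr 0 1 g0) measurableSet_ne, map_pr hl hR hij g,
    map_pr hl hR (by decide) g0]

/-! ### the law of a pair of different replicas -/

theorem shO_pr (u : Vx) (z : Om) : pr 0 1 g0 (shO u z) = shX u (pr 0 1 g0 z) := by
  have h1 : ∀ s : Vl, uu (shV u s) g0 = sh u (uu s g0) := by
    intro s
    unfold uu shV shSt
    have h2 : ((trV u g0.1, trE u g0.2) : Gm) = g0 := by
      simp [trV, trE]
    rw [h2]
  unfold pr shX
  refine Prod.ext ?_ (Prod.ext ?_ ?_)
  · funext e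
    simp [ww, shO, Pool.Agent.Helper61.MM.shE, sh]
  · exact h1 _
  · exact h1 _

theorem sh_injective {α : Type*} (u : Vx) : Function.Injective (sh (α := α) u) := by
  intro X X' h
  funext e
  have h1 := congrFun h (e.1 - u, e.2)
  simpa [sh] using h1

theorem measurable_shX' (u : Vx) : Measurable (shX u) :=
  ((meas_sh u).comp measurable_fst).prodMk
    (((meas_sh u).comp (measurable_fst.comp measurable_snd)).prodMk
      ((meas_sh u).comp (measurable_snd.comp measurable_snd)))

theorem inv_QQ {lam : Measure ℝ} {κ : Kernel WT Rs} {R : Measure Om}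
    (hR : IsR lam κ R) (u : Vx) : MeasurePreserving (shX u) (QQ R) (QQ R) := by
  refine ⟨measurable_shX' u, ?_⟩
  unfold QQ
  rw [Measure.map_map (measurable_shX' u) (meas_pr 0 1 g0)]
  have h1 : shX u ∘ pr 0 1 g0 = pr 0 1 g0 ∘ shO u := funext fun z => (shO_pr u z).symm
  rw [h1, ← Measure.map_map (meas_pr 0 1 g0) (hR.shift u).measurable]
  congr 1
  have h2 : Df 0 1 g0 = shO u ⁻¹' Df 0 1 g0 := by
    ext z
    rw [Df_eq]
    simp only [Set.mem_preimage, Set.mem_ofPred_eq, shO_pr]
    unfold shX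
    simp only [ne_eq]
    rw [(sh_injective u).eq_iff]
  conv_lhs => rw [h2]
  rw [← Measure.restrict_map (hR.shift u).measurable (measurableSet_Df 0 1 g0),
    (hR.shift u).map_eq]

theorem fst_obs2 {lam : Measure ℝ} [IsProbabilityMeasure lam] {κ : Kernel WT Rs}
    [IsMarkovKernel κ] : ((PB lam ⊗ₘ (κ ×ₖ κ)).map obs2).map Prod.fst = PP lam := by
  rw [Measure.map_map measurable_fst meas_obs2]
  have h1 : Prod.fst ∘ obs2 = Prod.fst ∘ Prod.fst := rfl
  rw [h1, ← Measure.map_map measurable_fst measurable_fst]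
  have h2 : (PB lam ⊗ₘ (κ ×ₖ κ)).map Prod.fst = PB lam := Measure.fst_compProd _ _
  rw [h2, Measure.map_fst_prod]
  simp

theorem QQ_eq {lam : Measure ℝ} (hl : Wgt lam) {κ : Kernel WT Rs} {R : Measure Om}
    (hR : IsR lam κ R) :
    QQ R = (((PB lam) ⊗ₘ (κ ×ₖ κ)).map obs2).restrict {p : XX | p.2.1 ≠ p.2.2} := by
  unfold QQ
  rw [Df_eq, ← Measure.restrict_map (meas_pr 0 1 g0) measurableSet_ne,
    map_pr hl hR (by decide) g0]

theorem fst_le_QQ {lam : Measure ℝ} (hl : Wgt lam) {κ : Kernel WT Rs} {R : Measure Om}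
    (hR : IsR lam κ R) (A : Set (Ed → ℝ)) : QQ R (Prod.fst ⁻¹' A) ≤ PP lam A := by
  have := hl.prob
  have := hR.mark
  obtain ⟨A', hA, hA', hm⟩ := exists_measurable_superset (PP lam) A
  rw [← hm]
  refine (measure_mono (Set.preimage_mono hA)).trans ?_
  rw [QQ_eq hl hR]
  refine (Measure.restrict_apply_le _ _).trans ?_
  rw [← Measure.map_apply measurable_fst hA', fst_obs2]

theorem wt_of_pos {w : Ed → ℝ} (h : ∀ e, 0 < w e) : wt w = w := funext fun e => abs_of_pos (h e)

theorem nice_QQ {lam : Measure ℝ} {κ : Kernel WT Rs} {R : Measure Om} (hR : IsR lam κ R) :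
    ∀ᵐ p ∂(QQ R), (∀ e, 0 < p.1 e) ∧ NT (wt p.1) ∧ p.2.1 ∈ GS (wt p.1) (par p.2.1) ∧
      p.2.2 ∈ GS (wt p.1) (par p.2.1) ∧ p.2.1 ≠ p.2.2 := by
  unfold QQ
  rw [ae_map_iff (meas_pr 0 1 g0).aemeasurable measurableSet_niceW]
  filter_upwards [ae_restrict_of_ae hR.ok, ae_restrict_mem (measurableSet_Df 0 1 g0)] with z hz hD
  have h0 := hz 0
  have h1 := hz 1
  have hpos : ∀ e, 0 < ww g0 z.1 e := by
    intro e
    simp only [ww, Finset.notMem_empty, if_false]
    exact (h0.pos e).1
  have hw : wt (ww g0 z.1) = ww g0 z.1 := wt_of_pos hpos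
  have m0 := h0.mem g0
  have m1 := h1.mem g0
  have hpar : par (uu (rp z 0) g0) = tt g0 z.1 := funext m0.1
  refine ⟨hpos, ?_, ?_, ?_, hD⟩
  · change NT (wt (ww g0 z.1))
    rw [hw]; exact h0.nt g0
  · change uu (rp z 0) g0 ∈ GS (wt (ww g0 z.1)) (par (uu (rp z 0) g0))
    rw [hw, hpar]; exact m0
  · change uu (rp z 1) g0 ∈ GS (wt (ww g0 z.1)) (par (uu (rp z 0) g0))
    rw [hw, hpar]; exact m1

/-! ### resampling one weight -/

/-- spare weight at `e`, independent of the observables -/
theorem map_obs_spr {lam : Measure ℝ} [IsProbabilityMeasure lam] {κ : Kernel WT Rs}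
    {R : Measure Om} (hR : IsR lam κ R) (e : Ed) :
    R.map (fun z => (obs z, spr z.1 e)) = (R.map obs).prod lam := by
  have := hR.mark
  have := hR.prob
  have h2 : Measurable (fun z : Om =>
      (spr z.1, bE0 z.1, rs z.2.1, rs z.2.2.1, rs z.2.2.2)) :=
    (meas_spr.comp measurable_fst).prodMk meas_obs
  have h3 : Measurable (fun q : (Ed → ℝ) × (WT × Rs × Rs × Rs) => (q.2, q.1 e)) :=
    measurable_snd.prodMk ((measurable_pi_apply e).comp measurable_fst)
  have h1 : (fun z : Om => (obs z, spr z.1 e)) =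
    (fun q : (Ed → ℝ) × (WT × Rs × Rs × Rs) => (q.2, q.1 e)) ∘ (fun z : Om =>
      (spr z.1, bE0 z.1, rs z.2.1, rs z.2.2.1, rs z.2.2.2)) := rfl
  rw [h1, ← Measure.map_map h3 h2, hR.law, map_obs hR]
  have h4 : (fun q : (Ed → ℝ) × (WT × Rs × Rs × Rs) => (q.2, q.1 e)) =
      Prod.map id (fun s : Ed → ℝ => s e) ∘ Prod.swap := rfl
  rw [h4, ← Measure.map_map (measurable_id.prodMap (measurable_pi_apply e)) measurable_swap,
    Measure.prod_swap, ← Measure.map_prod_map _ _ measurable_id (measurable_pi_apply e),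
    Measure.map_id, Measure.infinitePi_map_eval]

/-- pair of T-joins and the smaller flexibility at `e` -/
def psi (e : Ed) (q : WT × Rs × Rs × Rs) : XX × ℝ :=
  ((q.1.1, (q.2.1 ∅).1, (q.2.2.1 ∅).1), min ((q.2.1 ∅).2.2 e) ((q.2.2.1 ∅).2.2 e))

theorem meas_psi (e : Ed) : Measurable (psi e) := by
  have h : Measurable (fun r : Rs => (r ∅).1) := measurable_fst.comp (measurable_pi_apply _)
  have h' : Measurable (fun r : Rs => (r ∅).2.2 e) :=
    (measurable_pi_apply e).comp (measurable_snd.comp (measurable_snd.comp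
      (measurable_pi_apply _)))
  refine Measurable.prodMk ?_ (Measurable.min ?_ ?_)
  · exact (measurable_fst.comp measurable_fst).prodMk
      ((h.comp (measurable_fst.comp measurable_snd)).prodMk
        (h.comp (measurable_fst.comp (measurable_snd.comp measurable_snd))))
  · exact h'.comp (measurable_fst.comp measurable_snd)
  · exact h'.comp (measurable_fst.comp (measurable_snd.comp measurable_snd))

theorem psi_obs (e : Ed) (z : Om) :
    psi e (obs z) = (pr 0 1 g0 z, min (fx (rp z 0) g0 e) (fx (rp z 1) g0 e)) := rfl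

theorem measurable_updX' (e : Ed) : Measurable (fun z : (XX × ℝ) × ℝ => updX e (z.1.1, z.2)) := by
  have h1 : Measurable (fun z : (XX × ℝ) × ℝ => upd z.1.1.1 e z.2) := by
    refine measurable_pi_lambda _ fun f => ?_
    by_cases hf : f = e
    · subst hf
      simp only [upd, Function.update_self]
      exact measurable_snd
    · simp only [upd, Function.update_of_ne hf]
      exact (measurable_pi_apply f).comp
        (measurable_fst.comp (measurable_fst.comp measurable_fst))
  have h2 : Measurable (fun z : (XX × ℝ) × ℝ => z.1.1.2) :=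
    measurable_snd.comp (measurable_fst.comp measurable_fst)
  exact h1.prodMk h2

theorem pr_sg2 (e : Ed) (z : Om) (h0 : uu (rp z 0) (sg2 g0 {e}) = uu (rp z 0) g0)
    (h1 : uu (rp z 1) (sg2 g0 {e}) = uu (rp z 1) g0) :
    updX e (pr 0 1 g0 z, spr z.1 e) = pr 0 1 (sg2 g0 {e}) z := by
  unfold updX pr
  rw [h0, h1]
  refine Prod.ext ?_ rfl
  funext f
  by_cases hf : f = e
  · subst hf
    simp [upd, ww, sg2, spr, Finset.mem_symmDiff]
  · simp only [upd, Function.update_of_ne hf]
    simp [ww, sg2, hf, Finset.mem_symmDiff]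

theorem res_QQ {lam : Measure ℝ} (hl : Wgt lam) {κ : Kernel WT Rs} {R : Measure Om}
    (hR : IsR lam κ R) (e : Ed) :
    ∃ r : Measure (XX × ℝ), r.map Prod.fst = QQ R ∧ (∀ᵐ q ∂r, 0 < q.2) ∧
    ((r.prod lam).restrict {z | |z.2 - z.1.1.1 e| < z.1.2}).map (fun z => updX e (z.1.1, z.2)) ≤
      QQ R := by
  have := hl.prob
  have := hR.mark
  have := hR.prob
  have hpsi : Measurable (fun z : Om => psi e (obs z)) := (meas_psi e).comp meas_obs
  have hspr : Measurable (fun z : Om => spr z.1 e) :=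
    (measurable_pi_apply e).comp (meas_spr.comp measurable_fst)
  set r : Measure (XX × ℝ) := (R.restrict (Df 0 1 g0)).map (fun z => psi e (obs z)) with hr
  refine ⟨r, ?_, ?_, ?_⟩
  · rw [hr, Measure.map_map measurable_fst hpsi]
    rfl
  · rw [hr, ae_map_iff hpsi.aemeasurable (measurableSet_lt measurable_const measurable_snd)]
    filter_upwards [ae_restrict_of_ae hR.ok] with z hz
    rw [psi_obs]
    exact lt_min ((hz 0).fpos g0 e) ((hz 1).fpos g0 e)
  · -- the product is the joint law
    set D' : Set (WT × Rs × Rs × Rs) := {q | (psi e q).1.2.1 ≠ (psi e q).1.2.2} with hD'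
    have hD'm : MeasurableSet D' :=
      measurableSet_ne.preimage (measurable_fst.comp (meas_psi e))
    have hDf : Df 0 1 g0 = obs ⁻¹' D' := rfl
    have hprod : r.prod lam = (R.restrict (Df 0 1 g0)).map
        (fun z => (psi e (obs z), spr z.1 e)) := by
      have hos : Measurable (fun z : Om => (obs z, spr z.1 e)) := meas_obs.prodMk hspr
      have h1 : (fun z : Om => (psi e (obs z), spr z.1 e)) =
          Prod.map (psi e) id ∘ (fun z : Om => (obs z, spr z.1 e)) := rfl
      have h2 : obs ⁻¹' D' = (fun z : Om => (obs z, spr z.1 e)) ⁻¹' (D' ×ˢ Set.univ) := by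
        ext z; simp
      have h3 : r = ((R.map obs).restrict D').map (psi e) := by
        rw [hr, hDf, Measure.restrict_map meas_obs hD'm, Measure.map_map (meas_psi e) meas_obs]
        rfl
      rw [hDf, h2, h1, ← Measure.map_map ((meas_psi e).prodMap measurable_id) hos,
        ← Measure.restrict_map hos (hD'm.prod MeasurableSet.univ), map_obs_spr hR e,
        ← Measure.prod_restrict, Measure.restrict_univ,
        ← Measure.map_prod_map _ _ (meas_psi e) measurable_id, Measure.map_id, ← h3]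
    set E : Set ((XX × ℝ) × ℝ) := {z | |z.2 - z.1.1.1 e| < z.1.2} with hE
    have hEm : MeasurableSet E := by
      refine measurableSet_lt ?_ (measurable_snd.comp measurable_fst)
      refine Measurable.abs (measurable_snd.sub ?_)
      exact (measurable_pi_apply e).comp (measurable_fst.comp (measurable_fst.comp measurable_fst))
    have hj : Measurable (fun z : Om => (psi e (obs z), spr z.1 e)) := hpsi.prodMk hspr
    rw [hprod, Measure.restrict_map hj hEm, Measure.map_map (measurable_updX' e) hj,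
      Measure.restrict_restrict (hEm.preimage hj)]
    set E' : Set Om := (fun z : Om => (psi e (obs z), spr z.1 e)) ⁻¹' E ∩ Df 0 1 g0 with hE'
    have hE'm : MeasurableSet E' := (hEm.preimage hj).inter (measurableSet_Df 0 1 g0)
    have hflex : ∀ᵐ z ∂(R), z ∈ E' → uu (rp z 0) (sg2 g0 {e}) = uu (rp z 0) g0 ∧
        uu (rp z 1) (sg2 g0 {e}) = uu (rp z 1) g0 := by
      filter_upwards [hR.ok] with z hz hzE
      have h1 : |spr z.1 e - ww g0 z.1 e| < min (fx (rp z 0) g0 e) (fx (rp z 1) g0 e) := hzE.1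
      have h2 : ww (sg2 g0 {e}) z.1 e = spr z.1 e := by
        simp [ww, sg2, spr, Finset.mem_symmDiff]
      constructor
      · apply (hz 0).flex g0 e
        rw [h2]
        exact h1.trans_le (min_le_left _ _)
      · apply (hz 1).flex g0 e
        rw [h2]
        exact h1.trans_le (min_le_right _ _)
    have hcongr : (R.restrict E').map ((fun z : (XX × ℝ) × ℝ => updX e (z.1.1, z.2)) ∘
        (fun z : Om => (psi e (obs z), spr z.1 e))) = (R.restrict E').map (pr 0 1 (sg2 g0 {e})) := by
      apply Measure.map_congr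
      filter_upwards [ae_restrict_of_ae hflex, ae_restrict_mem hE'm] with z h1 h2
      exact pr_sg2 e z (h1 h2).1 (h1 h2).2
    rw [hcongr, ← law_pr hl hR (i := 0) (j := 1) (by decide) (sg2 g0 {e})]
    refine Measure.map_mono ?_ (meas_pr 0 1 _)
    apply Measure.restrict_mono_ae
    filter_upwards [hflex] with z hz hzE
    have hzD : uu (rp z 0) g0 ≠ uu (rp z 1) g0 := hzE.2
    obtain ⟨h1, h2⟩ := hz hzE
    change uu (rp z 0) (sg2 g0 {e}) ≠ uu (rp z 1) (sg2 g0 {e})
    rw [h1, h2]
    exact hzD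

theorem isW_QQ {lam : Measure ℝ} (hl : Wgt lam) {κ : Kernel WT Rs} {R : Measure Om}
    (hR : IsR lam κ R) : IsW lam (QQ R) where
  fin := by
    have := hR.prob
    unfold QQ
    infer_instance
  nice := nice_QQ hR
  inv := inv_QQ hR
  fst_le := fst_le_QQ hl hR
  res := res_QQ hl hR

end Pool.Agent.Helper5.MM
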