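import Mathlib

/-!
Replicas: conditionally independent copies of the second coordinate of a probability measure on
`X × Y` given the first one, and their invariance properties.
-/

namespace Pool.Agent.Helper5.Rep

open MeasureTheory ProbabilityTheory Set
open scoped ENNReal

variable {X Y : Type*} [MeasurableSpace X] [MeasurableSpace Y] [StandardBorelSpace Y] [Nonempty Y]

/-- two conditionally independent copies of the second coordinate -/
noncomputable def rep2 (Q : Measure (X × Y)) [IsFiniteMeasure Q] : Measure (X × (Y × Y)) :=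
  Q.fst.compProd (Q.condKernel ×ₖ Q.condKernel)

/-- three conditionally independent copies of the second coordinate -/
noncomputable def rep3 (Q : Measure (X × Y)) [IsFiniteMeasure Q] : Measure (X × (Y × Y × Y)) :=
  Q.fst.compProd (Q.condKernel ×ₖ (Q.condKernel ×ₖ Q.condKernel))

instance (Q : Measure (X × Y)) [IsProbabilityMeasure Q] : IsProbabilityMeasure (rep2 Q) := by
  unfold rep2; infer_instance

instance (Q : Measure (X × Y)) [IsProbabilityMeasure Q] : IsProbabilityMeasure (rep3 Q) := by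
  unfold rep3; infer_instance

theorem disint (Q : Measure (X × Y)) [IsFiniteMeasure Q] :
    Q.fst.compProd Q.condKernel = Q := Q.disintegrate Q.condKernel

theorem rep2_apply (Q : Measure (X × Y)) [IsFiniteMeasure Q] {s : Set (X × (Y × Y))}
    (hs : MeasurableSet s) :
    rep2 Q s = ∫⁻ x, ((Q.condKernel x).prod (Q.condKernel x)) (Prod.mk x ⁻¹' s) ∂Q.fst := by
  unfold rep2
  rw [Measure.compProd_apply hs]
  refine lintegral_congr fun x => ?_
  rw [Kernel.prod_apply]

theorem rep3_apply (Q : Measure (X × Y)) [IsFiniteMeasure Q] {s : Set (X × (Y × Y × Y))}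
    (hs : MeasurableSet s) :
    rep3 Q s = ∫⁻ x, ((Q.condKernel x).prod ((Q.condKernel x).prod (Q.condKernel x)))
      (Prod.mk x ⁻¹' s) ∂Q.fst := by
  unfold rep3
  rw [Measure.compProd_apply hs]
  refine lintegral_congr fun x => ?_
  rw [Kernel.prod_apply, Kernel.prod_apply]

/-! ### marginals -/

theorem rep2_fst (Q : Measure (X × Y)) [IsFiniteMeasure Q] : (rep2 Q).map Prod.fst = Q.fst := by
  unfold rep2
  exact Measure.fst_compProd _ _

theorem rep3_fst (Q : Measure (X × Y)) [IsFiniteMeasure Q] : (rep3 Q).map Prod.fst = Q.fst := by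
  unfold rep3
  exact Measure.fst_compProd _ _

theorem rep2_map1 (Q : Measure (X × Y)) [IsFiniteMeasure Q] :
    (rep2 Q).map (fun p => (p.1, p.2.1)) = Q := by
  ext s hs
  rw [Measure.map_apply (by fun_prop) hs, rep2_apply Q (hs.preimage (by fun_prop))]
  conv_rhs => rw [← disint Q, Measure.compProd_apply hs]
  refine lintegral_congr fun x => ?_
  have : (Prod.mk x ⁻¹' ((fun p : X × (Y × Y) => (p.1, p.2.1)) ⁻¹' s))
      = (Prod.mk x ⁻¹' s) ×ˢ univ := by
    ext ⟨y, y'⟩; simp
  rw [this, Measure.prod_prod]; simp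

theorem rep2_map2 (Q : Measure (X × Y)) [IsFiniteMeasure Q] :
    (rep2 Q).map (fun p => (p.1, p.2.2)) = Q := by
  ext s hs
  rw [Measure.map_apply (by fun_prop) hs, rep2_apply Q (hs.preimage (by fun_prop))]
  conv_rhs => rw [← disint Q, Measure.compProd_apply hs]
  refine lintegral_congr fun x => ?_
  have : (Prod.mk x ⁻¹' ((fun p : X × (Y × Y) => (p.1, p.2.2)) ⁻¹' s))
      = univ ×ˢ (Prod.mk x ⁻¹' s) := by
    ext ⟨y, y'⟩; simp
  rw [this, Measure.prod_prod]; simp

theorem rep2_swap (Q : Measure (X × Y)) [IsFiniteMeasure Q] :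
    (rep2 Q).map (fun p => (p.1, (p.2.2, p.2.1))) = rep2 Q := by
  ext s hs
  rw [Measure.map_apply (by fun_prop) hs, rep2_apply Q (hs.preimage (by fun_prop)),
    rep2_apply Q hs]
  refine lintegral_congr fun x => ?_
  have : (Prod.mk x ⁻¹' ((fun p : X × (Y × Y) => (p.1, (p.2.2, p.2.1))) ⁻¹' s))
      = Prod.swap ⁻¹' (Prod.mk x ⁻¹' s) := by
    ext ⟨y, y'⟩; simp
  rw [this, ← Measure.map_apply measurable_swap (hs.preimage (by fun_prop)), Measure.prod_swap]

theorem rep3_map12 (Q : Measure (X × Y)) [IsFiniteMeasure Q] :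
    (rep3 Q).map (fun p => (p.1, (p.2.1, p.2.2.1))) = rep2 Q := by
  ext s hs
  rw [Measure.map_apply (by fun_prop) hs, rep3_apply Q (hs.preimage (by fun_prop)),
    rep2_apply Q hs]
  refine lintegral_congr fun x => ?_
  set κ := Q.condKernel x
  have hmap : (κ.prod (κ.prod κ)).map (fun p => (p.1, p.2.1)) = κ.prod κ := by
    have h1 : (fun p : Y × Y × Y => (p.1, p.2.1)) = Prod.map id Prod.fst := by
      ext p <;> rfl
    rw [h1, ← Measure.map_prod_map _ _ measurable_id measurable_fst, Measure.map_id]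
    congr 1
    rw [Measure.map_fst_prod]; simp
  conv_rhs => rw [← hmap, Measure.map_apply (by fun_prop) (hs.preimage (by fun_prop))]
  rfl

theorem rep3_map13 (Q : Measure (X × Y)) [IsFiniteMeasure Q] :
    (rep3 Q).map (fun p => (p.1, (p.2.1, p.2.2.2))) = rep2 Q := by
  ext s hs
  rw [Measure.map_apply (by fun_prop) hs, rep3_apply Q (hs.preimage (by fun_prop)),
    rep2_apply Q hs]
  refine lintegral_congr fun x => ?_
  set κ := Q.condKernel x
  have hmap : (κ.prod (κ.prod κ)).map (fun p => (p.1, p.2.2)) = κ.prod κ := by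
    have h1 : (fun p : Y × Y × Y => (p.1, p.2.2)) = Prod.map id Prod.snd := by
      ext p <;> rfl
    rw [h1, ← Measure.map_prod_map _ _ measurable_id measurable_snd, Measure.map_id]
    congr 1
    rw [Measure.map_snd_prod]; simp
  conv_rhs => rw [← hmap, Measure.map_apply (by fun_prop) (hs.preimage (by fun_prop))]
  rfl

theorem rep3_map23 (Q : Measure (X × Y)) [IsFiniteMeasure Q] :
    (rep3 Q).map (fun p => (p.1, (p.2.2.1, p.2.2.2))) = rep2 Q := by
  ext s hs
  rw [Measure.map_apply (by fun_prop) hs, rep3_apply Q (hs.preimage (by fun_prop)),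
    rep2_apply Q hs]
  refine lintegral_congr fun x => ?_
  set κ := Q.condKernel x
  have hmap : (κ.prod (κ.prod κ)).map Prod.snd = κ.prod κ := by
    rw [Measure.map_snd_prod]; simp
  conv_rhs => rw [← hmap, Measure.map_apply measurable_snd (hs.preimage (by fun_prop))]
  rfl

/-- cyclic exchange of the three copies -/
theorem rep3_cyc (Q : Measure (X × Y)) [IsFiniteMeasure Q] :
    (rep3 Q).map (fun p => (p.1, (p.2.2.1, p.2.2.2, p.2.1))) = rep3 Q := by
  ext s hs
  rw [Measure.map_apply (by fun_prop) hs, rep3_apply Q (hs.preimage (by fun_prop)),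
    rep3_apply Q hs]
  refine lintegral_congr fun x => ?_
  set κ := Q.condKernel x
  have hmap : (κ.prod (κ.prod κ)).map (fun p => (p.2.1, p.2.2, p.1)) = κ.prod (κ.prod κ) := by
    have h1 : (fun p : Y × Y × Y => (p.2.1, p.2.2, p.1))
        = MeasurableEquiv.prodAssoc ∘ Prod.swap := by
      ext p <;> rfl
    rw [h1, ← Measure.map_map (by fun_prop) measurable_swap, Measure.prod_swap,
      Measure.prodAssoc_prod]
  conv_rhs => rw [← hmap, Measure.map_apply (by fun_prop) (hs.preimage (by fun_prop))]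
  rfl

/-! ### equivariance -/

/-- `x ↦ (κ x).map (g x)` as a kernel -/
noncomputable def push (κ : Kernel X Y) (g : X → Y → Y) : Kernel X Y :=
  (Kernel.id ×ₖ κ).map (fun p => g p.1 p.2)

omit [StandardBorelSpace Y] [Nonempty Y] in
theorem push_apply (κ : Kernel X Y) [IsSFiniteKernel κ] (g : X → Y → Y)
    (hg : Measurable (fun p : X × Y => g p.1 p.2)) (x : X) :
    push κ g x = (κ x).map (g x) := by
  unfold push
  have hgx : Measurable (g x) := hg.comp (measurable_const.prodMk measurable_id)
  rw [Kernel.map_apply _ hg, Kernel.prod_apply, Kernel.id_apply, Measure.dirac_prod,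
    Measure.map_map hg (by fun_prop)]
  rfl

omit [StandardBorelSpace Y] [Nonempty Y] in
theorem fst_invariant {Q : Measure (X × Y)} [IsFiniteMeasure Q] {f : X ≃ᵐ X} {g : X → Y → Y}
    (hg : Measurable (fun p : X × Y => g p.1 p.2))
    (hQ : Q.map (fun p => (f p.1, g p.1 p.2)) = Q) : Q.fst.map f = Q.fst := by
  have h1 : Measurable (fun p : X × Y => (f p.1, g p.1 p.2)) :=
    (f.measurable.comp measurable_fst).prodMk hg
  conv_rhs => rw [← hQ]
  rw [Measure.fst, Measure.fst, Measure.map_map f.measurable measurable_fst,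
    Measure.map_map measurable_fst h1]
  rfl

/-- the disintegration of an invariant measure is equivariant -/
theorem condKernel_equivariant {Q : Measure (X × Y)} [IsFiniteMeasure Q] {f : X ≃ᵐ X}
    {g : X → Y → Y} (hg : Measurable (fun p : X × Y => g p.1 p.2))
    (hQ : Q.map (fun p => (f p.1, g p.1 p.2)) = Q) :
    ∀ᵐ x ∂Q.fst, Q.condKernel (f x) = (Q.condKernel x).map (g x) := by
  have hT : Measurable (fun p : X × Y => (f p.1, g p.1 p.2)) :=
    (f.measurable.comp measurable_fst).prodMk hg
  have hf := fst_invariant hg hQ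
  have : IsFiniteKernel (push Q.condKernel g) := by unfold push; infer_instance
  set κ' : Kernel X Y := (push Q.condKernel g).comap f.symm f.symm.measurable with hκ'
  have key : Q = Q.fst.compProd κ' := by
    ext s hs
    rw [Measure.compProd_apply hs]
    have hmeas : Measurable (fun x => κ' x (Prod.mk x ⁻¹' s)) :=
      Kernel.measurable_kernel_prodMk_left hs
    rw [← hf, lintegral_map hmeas f.measurable]
    conv_lhs => rw [← hQ, Measure.map_apply hT hs, ← disint Q,
      Measure.compProd_apply (hs.preimage hT)]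
    refine lintegral_congr fun x => ?_
    have hgx : Measurable (g x) := hg.comp (measurable_const.prodMk measurable_id)
    rw [hκ', Kernel.comap_apply, f.symm_apply_apply, push_apply _ _ hg,
      Measure.map_apply hgx (hs.preimage (by fun_prop))]
    rfl
  have h2 := eq_condKernel_of_measure_eq_compProd κ' key
  have hmp : MeasurePreserving f Q.fst Q.fst := ⟨f.measurable, hf⟩
  filter_upwards [hmp.quasiMeasurePreserving.ae h2] with x hx
  rw [← hx, hκ', Kernel.comap_apply, f.symm_apply_apply, push_apply _ _ hg]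

/-- the pair replica measure is invariant under the diagonal action -/
theorem rep2_invariant {Q : Measure (X × Y)} [IsFiniteMeasure Q] {f : X ≃ᵐ X}
    {g : X → Y → Y} (hg : Measurable (fun p : X × Y => g p.1 p.2))
    (hQ : Q.map (fun p => (f p.1, g p.1 p.2)) = Q) :
    (rep2 Q).map (fun p => (f p.1, (g p.1 p.2.1, g p.1 p.2.2))) = rep2 Q := by
  have hmp : MeasurePreserving f Q.fst Q.fst := ⟨f.measurable, fst_invariant hg hQ⟩
  have he := condKernel_equivariant hg hQ
  have hT : Measurable (fun p : X × (Y × Y) => (f p.1, (g p.1 p.2.1, g p.1 p.2.2))) := by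
    refine (f.measurable.comp measurable_fst).prodMk (Measurable.prodMk ?_ ?_)
    · exact hg.comp (measurable_fst.prodMk (measurable_fst.comp measurable_snd))
    · exact hg.comp (measurable_fst.prodMk (measurable_snd.comp measurable_snd))
  ext s hs
  rw [Measure.map_apply hT hs, rep2_apply Q (hs.preimage hT), rep2_apply Q hs]
  have hmeas : Measurable (fun x =>
      ((Q.condKernel x).prod (Q.condKernel x)) (Prod.mk x ⁻¹' s)) := by
    have := Kernel.measurable_kernel_prodMk_left (κ := Q.condKernel ×ₖ Q.condKernel) hs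
    simpa only [Kernel.prod_apply] using this
  conv_rhs => rw [← hmp.map_eq, lintegral_map hmeas f.measurable]
  refine lintegral_congr_ae ?_
  filter_upwards [he] with x hx
  have hgx : Measurable (g x) := hg.comp (measurable_const.prodMk measurable_id)
  rw [hx, Measure.map_prod_map _ _ hgx hgx,
    Measure.map_apply (hgx.prodMap hgx) (hs.preimage (by fun_prop))]
  rfl

/-- the triple replica measure is invariant under the diagonal action -/
theorem rep3_invariant {Q : Measure (X × Y)} [IsFiniteMeasure Q] {f : X ≃ᵐ X}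
    {g : X → Y → Y} (hg : Measurable (fun p : X × Y => g p.1 p.2))
    (hQ : Q.map (fun p => (f p.1, g p.1 p.2)) = Q) :
    (rep3 Q).map (fun p => (f p.1, (g p.1 p.2.1, g p.1 p.2.2.1, g p.1 p.2.2.2))) = rep3 Q := by
  have hmp : MeasurePreserving f Q.fst Q.fst := ⟨f.measurable, fst_invariant hg hQ⟩
  have he := condKernel_equivariant hg hQ
  have hT : Measurable (fun p : X × (Y × Y × Y) =>
      (f p.1, (g p.1 p.2.1, g p.1 p.2.2.1, g p.1 p.2.2.2))) := by
    refine (f.measurable.comp measurable_fst).prodMk (Measurable.prodMk ?_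
      (Measurable.prodMk ?_ ?_))
    · exact hg.comp (measurable_fst.prodMk (measurable_fst.comp measurable_snd))
    · exact hg.comp (measurable_fst.prodMk
        (measurable_fst.comp (measurable_snd.comp measurable_snd)))
    · exact hg.comp (measurable_fst.prodMk
        (measurable_snd.comp (measurable_snd.comp measurable_snd)))
  ext s hs
  rw [Measure.map_apply hT hs, rep3_apply Q (hs.preimage hT), rep3_apply Q hs]
  have hmeas : Measurable (fun x =>
      ((Q.condKernel x).prod ((Q.condKernel x).prod (Q.condKernel x))) (Prod.mk x ⁻¹' s)) := by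
    have := Kernel.measurable_kernel_prodMk_left
      (κ := Q.condKernel ×ₖ (Q.condKernel ×ₖ Q.condKernel)) hs
    simpa only [Kernel.prod_apply] using this
  conv_rhs => rw [← hmp.map_eq, lintegral_map hmeas f.measurable]
  refine lintegral_congr_ae ?_
  filter_upwards [he] with x hx
  have hgx : Measurable (g x) := hg.comp (measurable_const.prodMk measurable_id)
  rw [hx, Measure.map_prod_map _ _ hgx hgx,
    Measure.map_prod_map _ _ hgx (hgx.prodMap hgx),
    Measure.map_apply (hgx.prodMap (hgx.prodMap hgx)) (hs.preimage (by fun_prop))]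
  rfl

/-! ### second moments and atoms -/

/-- Jensen: two copies are in the same event with probability at least the square -/
theorem sq_le_rep2 (Q : Measure (X × Y)) [IsProbabilityMeasure Q] {D : Set (X × Y)}
    (hD : MeasurableSet D) :
    Q D ^ 2 ≤ rep2 Q {p | (p.1, p.2.1) ∈ D ∧ (p.1, p.2.2) ∈ D} := by
  have hs : MeasurableSet {p : X × (Y × Y) | (p.1, p.2.1) ∈ D ∧ (p.1, p.2.2) ∈ D} := by
    apply MeasurableSet.inter
    · exact hD.preimage (by fun_prop)
    · exact hD.preimage (by fun_prop)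
  rw [rep2_apply Q hs]
  have hmeas : Measurable (fun x => Q.condKernel x (Prod.mk x ⁻¹' D)) :=
    Kernel.measurable_kernel_prodMk_left hD
  have h1 : ∀ x, ((Q.condKernel x).prod (Q.condKernel x))
      (Prod.mk x ⁻¹' {p : X × (Y × Y) | (p.1, p.2.1) ∈ D ∧ (p.1, p.2.2) ∈ D})
      = (Q.condKernel x (Prod.mk x ⁻¹' D)) ^ (2 : ℝ) := by
    intro x
    have : (Prod.mk x ⁻¹' {p : X × (Y × Y) | (p.1, p.2.1) ∈ D ∧ (p.1, p.2.2) ∈ D})
        = (Prod.mk x ⁻¹' D) ×ˢ (Prod.mk x ⁻¹' D) := by
      ext ⟨y, y'⟩; simp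
    rw [this, Measure.prod_prod, ENNReal.rpow_two, sq]
  simp only [h1]
  have hQD : Q D = ∫⁻ x, Q.condKernel x (Prod.mk x ⁻¹' D) ∂Q.fst := by
    conv_lhs => rw [← disint Q, Measure.compProd_apply hD]
  have : IsProbabilityMeasure Q.fst := inferInstance
  have h2 := ENNReal.lintegral_mul_le_Lp_mul_Lq (μ := Q.fst)
    (p := 2) (q := 2) Real.HolderConjugate.two_two hmeas.aemeasurable
    (g := fun _ => 1) aemeasurable_const
  simp only [Pi.mul_apply, mul_one, ENNReal.one_rpow, lintegral_const, measure_univ] at h2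
  rw [hQD]
  calc (∫⁻ x, Q.condKernel x (Prod.mk x ⁻¹' D) ∂Q.fst) ^ 2
      ≤ ((∫⁻ x, (Q.condKernel x (Prod.mk x ⁻¹' D)) ^ (2 : ℝ) ∂Q.fst) ^ (1 / 2 : ℝ)) ^ 2 := by
        gcongr
    _ = ∫⁻ x, (Q.condKernel x (Prod.mk x ⁻¹' D)) ^ (2 : ℝ) ∂Q.fst := by
        rw [← ENNReal.rpow_two, ← ENNReal.rpow_mul]; norm_num


/-- a measure whose third power has no triple of distinct points has at most two atoms -/
theorem two_atoms {Z : Type*} [MeasurableSpace Z] [MeasurableSpace.CountablyGenerated Z]
    [MeasurableSpace.SeparatesPoints Z] [Nonempty Z]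
    (ν : Measure Z) [IsProbabilityMeasure ν]
    (h : (ν.prod (ν.prod ν)) {p | p.1 ≠ p.2.1 ∧ p.1 ≠ p.2.2 ∧ p.2.1 ≠ p.2.2} = 0) :
    ∃ a b, ν ({a, b}ᶜ) = 0 := by
  have h1 : ∀ᵐ a ∂ν, ∀ᵐ b ∂ν, ∀ᵐ c ∂ν, ¬ (a ≠ b ∧ a ≠ c ∧ b ≠ c) := by
    have h2 : ∀ᵐ p ∂(ν.prod (ν.prod ν)), ¬ (p.1 ≠ p.2.1 ∧ p.1 ≠ p.2.2 ∧ p.2.1 ≠ p.2.2) := by
      rw [ae_iff]; simpa using h
    have h3 := Measure.ae_ae_of_ae_prod h2
    filter_upwards [h3] with a ha
    exact Measure.ae_ae_of_ae_prod ha
  obtain ⟨a, ha⟩ := h1.exists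
  by_cases hs : ν {a}ᶜ = 0
  · exact ⟨a, a, by simpa using hs⟩
  · have hne : ∃ b, b ∈ ({a}ᶜ : Set Z) ∧ ∀ᵐ c ∂ν, ¬ (a ≠ b ∧ a ≠ c ∧ b ≠ c) := by
      by_contra hcon
      push Not at hcon
      apply hs
      have : ({a}ᶜ : Set Z) ⊆ {b | ¬ ∀ᵐ c ∂ν, ¬ (a ≠ b ∧ a ≠ c ∧ b ≠ c)} := by
        intro b hb
        have := hcon b hb
        exact this
      exact measure_mono_null this (ae_iff.1 ha)
    obtain ⟨b, hb, hc⟩ := hne
    refine ⟨a, b, ?_⟩
    have : ({a, b}ᶜ : Set Z) ⊆ {c | ¬ ¬ (a ≠ b ∧ a ≠ c ∧ b ≠ c)} := by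
      intro c hcc
      simp only [mem_compl_iff, mem_insert_iff, mem_singleton_iff, not_or] at hcc hb
      simp only [not_not, Set.mem_ofPred_eq]
      exact ⟨fun h => hb h.symm, fun h => hcc.1 h.symm, fun h => hcc.2 h.symm⟩
    exact measure_mono_null this (ae_iff.1 hc)

/-- if three copies never have three different values of `u`, the law of `u` has at most
two atoms, almost surely -/
theorem two_atoms_of_rep3 {Z : Type*} [MeasurableSpace Z] [MeasurableEq Z]
    [MeasurableSpace.CountablyGenerated Z] [MeasurableSpace.SeparatesPoints Z] [Nonempty Z]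
    (Q : Measure (X × Y)) [IsProbabilityMeasure Q] (u : Y → Z) (hu : Measurable u)
    (h : rep3 Q {p | u p.2.1 ≠ u p.2.2.1 ∧ u p.2.1 ≠ u p.2.2.2 ∧ u p.2.2.1 ≠ u p.2.2.2} = 0) :
    ∀ᵐ x ∂Q.fst, ∃ a b, ((Q.condKernel x).map u) ({a, b}ᶜ) = 0 := by
  have hZ : MeasurableSet {p : Z × Z × Z | p.1 ≠ p.2.1 ∧ p.1 ≠ p.2.2 ∧ p.2.1 ≠ p.2.2} := by
    refine MeasurableSet.inter ?_ (MeasurableSet.inter ?_ ?_)
    · exact (measurableSet_eq_fun (by fun_prop) (by fun_prop)).compl
    · exact (measurableSet_eq_fun (by fun_prop) (by fun_prop)).compl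
    · exact (measurableSet_eq_fun (by fun_prop) (by fun_prop)).compl
  have hm : Measurable (fun p : X × (Y × Y × Y) => (u p.2.1, u p.2.2.1, u p.2.2.2)) := by
    fun_prop
  have hs : MeasurableSet {p : X × (Y × Y × Y) |
      u p.2.1 ≠ u p.2.2.1 ∧ u p.2.1 ≠ u p.2.2.2 ∧ u p.2.2.1 ≠ u p.2.2.2} := hZ.preimage hm
  rw [rep3_apply Q hs] at h
  have hmeas : Measurable (fun x =>
      ((Q.condKernel x).prod ((Q.condKernel x).prod (Q.condKernel x)))
        (Prod.mk x ⁻¹' {p : X × (Y × Y × Y) |
      u p.2.1 ≠ u p.2.2.1 ∧ u p.2.1 ≠ u p.2.2.2 ∧ u p.2.2.1 ≠ u p.2.2.2})) := by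
    have := Kernel.measurable_kernel_prodMk_left
      (κ := Q.condKernel ×ₖ (Q.condKernel ×ₖ Q.condKernel)) hs
    simpa only [Kernel.prod_apply] using this
  rw [lintegral_eq_zero_iff hmeas] at h
  filter_upwards [h] with x hx
  have hp : IsProbabilityMeasure ((Q.condKernel x).map u) :=
    Measure.isProbabilityMeasure_map hu.aemeasurable
  apply two_atoms
  rw [Measure.map_prod_map _ _ hu hu, Measure.map_prod_map _ _ hu (hu.prodMap hu),
    Measure.map_apply (hu.prodMap (hu.prodMap hu)) hZ]
  exact hx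

/-- for a measure with at most two atoms and nothing else: both can be chosen charged -/
theorem two_charged {Z : Type*} [MeasurableSpace Z] [MeasurableSingletonClass Z]
    (ν : Measure Z) [IsProbabilityMeasure ν] (h : ∃ a b, ν ({a, b}ᶜ) = 0) (e : Z → ℝ) :
    ∃ a b, ν ({a, b}ᶜ) = 0 ∧ ν {a} ≠ 0 ∧ ν {b} ≠ 0 ∧ e a ≤ e b := by
  obtain ⟨a, b, hab⟩ := h
  have hone : ν {a, b} ≠ 0 := by
    intro h0
    have h1 : ν univ ≤ ν {a, b} + ν ({a, b}ᶜ) := by
      rw [← union_compl_self ({a, b} : Set Z)]; exact measure_union_le _ _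
    rw [h0, hab, measure_univ] at h1
    simp at h1
  by_cases ha : ν {a} = 0
  · have hb : ν {b} ≠ 0 := by
      intro hb
      apply hone
      rw [show ({a, b} : Set Z) = {a} ∪ {b} from rfl]
      exact measure_union_null ha hb
    refine ⟨b, b, ?_, hb, hb, le_rfl⟩
    have : ({b, b}ᶜ : Set Z) ⊆ {a, b}ᶜ ∪ {a} := by
      intro z hz
      by_cases hza : z = a
      · right; exact hza
      · left
        simp only [mem_compl_iff, mem_insert_iff, mem_singleton_iff, not_or, or_self] at hz ⊢
        exact ⟨hza, hz⟩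
    exact measure_mono_null this (measure_union_null hab ha)
  · by_cases hb : ν {b} = 0
    · refine ⟨a, a, ?_, ha, ha, le_rfl⟩
      have : ({a, a}ᶜ : Set Z) ⊆ {a, b}ᶜ ∪ {b} := by
        intro z hz
        by_cases hzb : z = b
        · right; exact hzb
        · left
          simp only [mem_compl_iff, mem_insert_iff, mem_singleton_iff, not_or, or_self] at hz ⊢
          exact ⟨hz, hzb⟩
      exact measure_mono_null this (measure_union_null hab hb)
    · rcases le_total (e a) (e b) with hle | hle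
      · exact ⟨a, b, hab, ha, hb, hle⟩
      · exact ⟨b, a, by rwa [pair_comm], hb, ha, hle⟩

/-- measurable choice of the two atoms -/
theorem exists_measurable_atoms {Z : Type*} [MeasurableSpace Z] [StandardBorelSpace Z]
    [Nonempty Z] (κ : Kernel X Z) [IsMarkovKernel κ] (μ : Measure X)
    (h : ∀ᵐ x ∂μ, ∃ a b, κ x ({a, b}ᶜ) = 0) :
    ∃ a b : X → Z, Measurable a ∧ Measurable b ∧
      ∀ᵐ x ∂μ, κ x ({a x, b x}ᶜ) = 0 ∧ κ x {a x} ≠ 0 ∧ κ x {b x} ≠ 0 := by
  have he := measurableEmbedding_embeddingReal Z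
  set e := embeddingReal Z with hedef
  obtain ⟨r, hr, hre⟩ := he.exists_measurable_extend measurable_id (fun _ => inferInstance)
  have hre' : ∀ z, r (e z) = z := fun z => congrFun hre z
  have hF : ∀ q : ℚ, Measurable (fun x => κ x (e ⁻¹' Iic (q : ℝ))) := fun q =>
    Kernel.measurable_coe κ (measurableSet_Iic.preimage he.measurable)
  let α : X → EReal := fun x =>
    ⨅ q : ℚ, if κ x (e ⁻¹' Iic (q : ℝ)) = 0 then (⊤ : EReal) else ((q : ℝ) : EReal)
  let β : X → EReal := fun x =>
    ⨅ q : ℚ, if κ x (e ⁻¹' Iic (q : ℝ)) = 1 then ((q : ℝ) : EReal) else ⊤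
  have hα : Measurable α := by
    refine Measurable.iInf fun q => Measurable.ite ?_ measurable_const measurable_const
    exact hF q (measurableSet_singleton 0)
  have hβ : Measurable β := by
    refine Measurable.iInf fun q => Measurable.ite ?_ measurable_const measurable_const
    exact hF q (measurableSet_singleton 1)
  refine ⟨fun x => r (α x).toReal, fun x => r (β x).toReal, hr.comp hα.ereal_toReal,
    hr.comp hβ.ereal_toReal, ?_⟩
  filter_upwards [h] with x hx
  obtain ⟨a, b, hab, ha, hb, hle⟩ := two_charged (κ x) hx e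
  have hinf : ∀ t : ℝ, (⨅ q : ℚ, if t ≤ (q : ℝ) then ((q : ℝ) : EReal) else ⊤) = (t : EReal) := by
    intro t
    apply le_antisymm
    · apply le_of_forall_gt
      intro c hc
      induction c with
      | bot => simp at hc
      | top => 
        obtain ⟨q, hq⟩ := exists_rat_gt t
        refine lt_of_le_of_lt (iInf_le _ q) ?_
        rw [if_pos hq.le]; exact EReal.coe_lt_top _
      | coe c =>
        rw [EReal.coe_lt_coe_iff] at hc
        obtain ⟨q, hq1, hq2⟩ := exists_rat_btwn hc
        refine lt_of_le_of_lt (iInf_le _ q) ?_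
        rw [if_pos hq1.le]; exact_mod_cast hq2
    · refine le_iInf fun q => ?_
      split_ifs with hq
      · exact_mod_cast hq
      · exact le_top
  have hzero : ∀ q : ℚ, κ x (e ⁻¹' Iic (q : ℝ)) = 0 ↔ ¬ (e a ≤ (q : ℝ)) := by
    intro q
    constructor
    · intro h0 hle
      exact ha (measure_mono_null (by intro z hz; rw [mem_singleton_iff.1 hz]; exact hle) h0)
    · intro hq
      refine measure_mono_null ?_ hab
      intro z hz
      simp only [mem_preimage, mem_Iic] at hz
      simp only [mem_compl_iff, mem_insert_iff, mem_singleton_iff, not_or]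
      push Not at hq
      constructor
      · rintro rfl; linarith
      · rintro rfl; linarith
  have hone : ∀ q : ℚ, κ x (e ⁻¹' Iic (q : ℝ)) = 1 ↔ e b ≤ (q : ℝ) := by
    intro q
    constructor
    · intro h1
      by_contra hq
      push Not at hq
      have hc : κ x (e ⁻¹' Iic (q : ℝ))ᶜ = 0 := by
        rw [prob_compl_eq_zero_iff (measurableSet_Iic.preimage he.measurable)]; exact h1
      apply hb
      refine measure_mono_null ?_ hc
      intro z hz
      rw [mem_singleton_iff.1 hz]
      simp only [mem_compl_iff, mem_preimage, mem_Iic, not_le]; exact hq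
    · intro hq
      rw [← prob_compl_eq_zero_iff (measurableSet_Iic.preimage he.measurable)]
      refine measure_mono_null ?_ hab
      intro z hz
      simp only [mem_compl_iff, mem_preimage, mem_Iic, not_le] at hz
      simp only [mem_compl_iff, mem_insert_iff, mem_singleton_iff, not_or]
      constructor
      · rintro rfl; linarith
      · rintro rfl; linarith
  have hαx : α x = (e a : EReal) := by
    rw [← hinf (e a)]
    refine iInf_congr fun q => ?_
    by_cases hq : e a ≤ (q : ℝ)
    · rw [if_pos hq, if_neg]; rw [hzero]; exact not_not.2 hq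
    · rw [if_neg hq, if_pos]; rw [hzero]; exact hq
  have hβx : β x = (e b : EReal) := by
    rw [← hinf (e b)]
    refine iInf_congr fun q => ?_
    simp only [hone q]
  simp only [hαx, hβx, EReal.toReal_coe, hre']
  exact ⟨hab, ha, hb⟩

/-- second moment inequality for finitely many events -/
theorem sq_sum_le {Ω ι : Type*} [MeasurableSpace Ω] (P : Measure Ω) [IsProbabilityMeasure P]
    (s : Finset ι) (E : ι → Set Ω) (hE : ∀ i ∈ s, MeasurableSet (E i)) :
    (∑ i ∈ s, P (E i)) ^ 2 ≤ ∑ i ∈ s, ∑ j ∈ s, P (E i ∩ E j) := by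
  classical
  set F : Ω → ℝ≥0∞ := fun ω => ∑ i ∈ s, (E i).indicator 1 ω with hF
  have hmeas : ∀ i ∈ s, Measurable ((E i).indicator (1 : Ω → ℝ≥0∞)) := fun i hi =>
    measurable_one.indicator (hE i hi)
  have hFm : Measurable F := by
    refine Finset.measurable_sum s hmeas
  have h1 : ∑ i ∈ s, P (E i) = ∫⁻ ω, F ω ∂P := by
    rw [hF, lintegral_finsetSum s hmeas]
    refine Finset.sum_congr rfl fun i hi => ?_
    rw [lintegral_indicator_one (hE i hi)]
  have h2 : ∑ i ∈ s, ∑ j ∈ s, P (E i ∩ E j) = ∫⁻ ω, F ω ^ 2 ∂P := by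
    have : ∀ ω, F ω ^ 2 = ∑ i ∈ s, ∑ j ∈ s, (E i ∩ E j).indicator (1 : Ω → ℝ≥0∞) ω := by
      intro ω
      rw [hF, sq, Finset.sum_mul_sum]
      refine Finset.sum_congr rfl fun i _ => Finset.sum_congr rfl fun j _ => ?_
      rw [inter_indicator_one]; rfl
    simp only [this]
    rw [lintegral_finsetSum]
    · refine Finset.sum_congr rfl fun i hi => ?_
      rw [lintegral_finsetSum]
      · refine Finset.sum_congr rfl fun j hj => ?_
        rw [lintegral_indicator_one ((hE i hi).inter (hE j hj))]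
      · intro j hj; exact measurable_one.indicator ((hE i hi).inter (hE j hj))
    · intro i hi
      exact Finset.measurable_sum s fun j hj =>
        measurable_one.indicator ((hE i hi).inter (hE j hj))
  rw [h1, h2]
  have h3 := ENNReal.lintegral_mul_le_Lp_mul_Lq (μ := P)
    (p := 2) (q := 2) Real.HolderConjugate.two_two hFm.aemeasurable
    (g := fun _ => 1) aemeasurable_const
  simp only [Pi.mul_apply, mul_one, lintegral_const, measure_univ,
    ENNReal.rpow_two] at h3
  calc (∫⁻ ω, F ω ∂P) ^ 2 ≤ ((∫⁻ ω, F ω ^ 2 ∂P) ^ (1 / 2 : ℝ)) ^ 2 := by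
        gcongr
        simpa using h3
    _ = ∫⁻ ω, F ω ^ 2 ∂P := by
        rw [← ENNReal.rpow_two, ← ENNReal.rpow_mul]; norm_num

end Pool.Agent.Helper5.Rep

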