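import Mathlib

/-!
Definitions used in the statements: oblivious algebraic branching programs and the hitting set.
-/

namespace Pool.Agent.Helper5.ABP

open Matrix

/-- `f` is computed by an oblivious algebraic branching program over `ℚ` of width `w` in `n`
variables: `f = uᵀ * M₀(x_{ν 0}) * ⋯ * M_{N-1}(x_{ν (N-1)}) * v`, where layer `l` reads the single
variable `x_{ν l}` through a `w × w` matrix of univariate polynomials of degree at most `d`, and
every variable is read by at most `k` layers. -/
def Computes (w k d n : ℕ) (f : MvPolynomial (Fin n) ℚ) : Prop :=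
  ∃ (N : ℕ) (ν : Fin N → Fin n) (M : Fin N → Matrix (Fin w) (Fin w) (Polynomial ℚ))
    (u v : Fin w → ℚ),
    (∀ i : Fin n, (Finset.univ.filter fun l : Fin N => ν l = i).card ≤ k) ∧
    (∀ l a b, (M l a b).natDegree ≤ d) ∧
    f = (fun a => MvPolynomial.C (u a)) ⬝ᵥ
      ((List.ofFn fun l : Fin N => (M l).map fun p : Polynomial ℚ =>
        Polynomial.aeval (MvPolynomial.X (ν l) : MvPolynomial (Fin n) ℚ) p).prod *ᵥ
        fun b => MvPolynomial.C (v b))

/-- The explicit set of points `(∑_{l<c} z_l ∏_{j ≠ i} (y_l - j))_{i<n}` with integers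
`0 ≤ z_l ≤ D` and `0 ≤ y_l ≤ n * D`. -/
def points (n c D : ℕ) : Finset (Fin n → ℚ) :=
  ((Fintype.piFinset fun _ : Fin c => Finset.range (D + 1)) ×ˢ
    (Fintype.piFinset fun _ : Fin c => Finset.range (n * D + 1))).image
    fun p i => ∑ l : Fin c, (p.1 l : ℚ) * ∏ j ∈ Finset.univ.erase i, ((p.2 l : ℚ) - (j.val : ℚ))

end Pool.Agent.Helper5.ABP
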