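import Pool.Agent.Helper49.MS.WL
import Pool.Agent.Helper60.TJ.Defs

set_option autoImplicit false

/-!
Averages over translates and their asymptotic invariance.
-/

namespace Pool.Agent.Helper5.Avg

open MeasureTheory Filter Topology Pool.Agent.Helper60.TJ Pool.Agent.H49WL
open scoped ENNReal

variable {X : Type*} [MeasurableSpace X]

/-- average over the translates by the points of the box `k` -/
noncomputable def avg (T : Vx → X → X) (k : ℕ) (ν : Measure X) : Measure X :=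
  ((box k).card : ℝ≥0∞)⁻¹ • ∑ u ∈ box k, ν.map (T u)

theorem box_nonempty (k : ℕ) : (box k).Nonempty := ⟨0, by simp [box]⟩

theorem card_box (k : ℕ) : (box k).card = (2 * k + 1) * (2 * k + 1) := by
  have h : (Finset.Icc (-(k : ℤ)) k).card = 2 * k + 1 := by
    rw [Int.card_Icc]; omega
  rw [box, Finset.card_product, h]

theorem card_ne_zero (k : ℕ) : ((box k).card : ℝ≥0∞) ≠ 0 := by
  exact_mod_cast (box_nonempty k).card_pos.ne'

theorem isProb_avg (T : Vx → X → X) (hT : ∀ u, Measurable (T u)) (k : ℕ) (ν : Measure X)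
    [IsProbabilityMeasure ν] : IsProbabilityMeasure (avg T k ν) := by
  constructor
  have h : ∀ u, (ν.map (T u)) Set.univ = 1 := by
    intro u
    rw [Measure.map_apply (hT u) MeasurableSet.univ, Set.preimage_univ, measure_univ]
  rw [avg, Measure.smul_apply, Measure.finsetSum_apply]
  simp only [h, Finset.sum_const, nsmul_eq_mul, mul_one, smul_eq_mul]
  exact ENNReal.inv_mul_cancel (card_ne_zero k) (ENNReal.natCast_ne_top _)

theorem avg_apply (T : Vx → X → X) (hT : ∀ u, Measurable (T u)) (k : ℕ) (ν : Measure X)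
    {s : Set X} (hs : MeasurableSet s) :
    avg T k ν s = ((box k).card : ℝ≥0∞)⁻¹ * ∑ u ∈ box k, ν (T u ⁻¹' s) := by
  rw [avg, Measure.smul_apply, Measure.finsetSum_apply, smul_eq_mul]
  congr 1
  refine Finset.sum_congr rfl fun u _ => ?_
  rw [Measure.map_apply (hT u) hs]

/-- bounds for all translates give bounds for the average -/
theorem avg_le (T : Vx → X → X) (hT : ∀ u, Measurable (T u)) (k : ℕ) (ν : Measure X)
    {s : Set X} (hs : MeasurableSet s) {c : ℝ≥0∞} (h : ∀ u ∈ box k, ν (T u ⁻¹' s) ≤ c) :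
    avg T k ν s ≤ c := by
  rw [avg_apply T hT k ν hs]
  calc ((box k).card : ℝ≥0∞)⁻¹ * ∑ u ∈ box k, ν (T u ⁻¹' s)
      ≤ ((box k).card : ℝ≥0∞)⁻¹ * ∑ _u ∈ box k, c := by
        gcongr with u hu; exact h u hu
    _ = c := by
        rw [Finset.sum_const, nsmul_eq_mul, ← mul_assoc,
          ENNReal.inv_mul_cancel (card_ne_zero k) (ENNReal.natCast_ne_top _), one_mul]

/-- what holds almost surely for all translates holds almost surely for the average -/
theorem ae_avg (T : Vx → X → X) (k : ℕ) (ν : Measure X)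
    {p : X → Prop} (h : ∀ u ∈ box k, ∀ᵐ x ∂(ν.map (T u)), p x) : ∀ᵐ x ∂(avg T k ν), p x := by
  rw [avg]
  apply Measure.ae_smul_measure
  rw [ae_iff, Measure.finsetSum_apply]
  exact Finset.sum_eq_zero fun u hu => ae_iff.1 (h u hu)

/-- images of averages: an image of every translate with the same law -/
theorem map_avg {Y : Type*} [MeasurableSpace Y] (T : Vx → X → X)
    (k : ℕ) (ν : Measure X) {f : X → Y} (hf : Measurable f) {P : Measure Y}
    (h : ∀ u ∈ box k, (ν.map (T u)).map f = P) : (avg T k ν).map f = P := by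
  rw [avg, Measure.map_smul, ← Measure.mapₗ_apply_of_measurable hf, map_sum]
  simp only [Measure.mapₗ_apply_of_measurable hf]
  rw [Finset.sum_congr rfl h, Finset.sum_const, ← Nat.cast_smul_eq_nsmul ℝ≥0∞, smul_smul,
    ENNReal.inv_mul_cancel (card_ne_zero k) (ENNReal.natCast_ne_top _), one_smul]

theorem card_Icc_sdiff (k : ℕ) (a : ℤ) :
    (Finset.Icc (-(k : ℤ) + a) (k + a) \ Finset.Icc (-(k : ℤ)) k).card ≤ a.natAbs := by
  rcases le_total 0 a with ha | ha
  · have h : Finset.Icc (-(k : ℤ) + a) (k + a) \ Finset.Icc (-(k : ℤ)) k ⊆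
        Finset.Ioc (k : ℤ) (k + a) := by
      intro x hx
      simp only [Finset.mem_sdiff, Finset.mem_Icc, Finset.mem_Ioc] at hx ⊢
      omega
    refine (Finset.card_le_card h).trans ?_
    rw [Int.card_Ioc]; omega
  · have h : Finset.Icc (-(k : ℤ) + a) (k + a) \ Finset.Icc (-(k : ℤ)) k ⊆
        Finset.Ico (-(k : ℤ) + a) (-k) := by
      intro x hx
      simp only [Finset.mem_sdiff, Finset.mem_Icc, Finset.mem_Ico] at hx ⊢
      omega
    refine (Finset.card_le_card h).trans ?_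
    rw [Int.card_Ico]; omega

/-- translated box -/
noncomputable def bx' (v : Vx) (k : ℕ) : Finset Vx := (box k).image (v + ·)

theorem mem_bx' (v : Vx) (k : ℕ) (u : Vx) : u ∈ bx' v k ↔ u - v ∈ box k := by
  simp only [bx', Finset.mem_image]
  constructor
  · rintro ⟨w, hw, rfl⟩; simpa using hw
  · intro h; exact ⟨u - v, h, by simp⟩

theorem mem_box' (k : ℕ) (u : Vx) : u ∈ box k ↔
    (-(k : ℤ) ≤ u.1 ∧ u.1 ≤ k) ∧ (-(k : ℤ) ≤ u.2 ∧ u.2 ≤ k) := by
  simp [box]

theorem card_sdiff_le (v : Vx) (k : ℕ) :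
    (bx' v k \ box k).card ≤ (v.1.natAbs + v.2.natAbs) * (2 * k + 1) := by
  have h : bx' v k \ box k ⊆
      ((Finset.Icc (-(k : ℤ) + v.1) (k + v.1) \ Finset.Icc (-(k : ℤ)) k) ×ˢ
        Finset.Icc (-(k : ℤ) + v.2) (k + v.2)) ∪
      (Finset.Icc (-(k : ℤ) + v.1) (k + v.1) ×ˢ
        (Finset.Icc (-(k : ℤ) + v.2) (k + v.2) \ Finset.Icc (-(k : ℤ)) k)) := by
    intro u hu
    rw [Finset.mem_sdiff, mem_bx', mem_box', mem_box'] at hu
    simp only [Prod.fst_sub, Prod.snd_sub] at hu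
    simp only [Finset.mem_union, Finset.mem_product, Finset.mem_sdiff, Finset.mem_Icc]
    omega
  refine (Finset.card_le_card h).trans ((Finset.card_union_le _ _).trans ?_)
  rw [Finset.card_product, Finset.card_product]
  have c : ∀ a : ℤ, (Finset.Icc (-(k : ℤ) + a) (k + a)).card = 2 * k + 1 := by
    intro a; rw [Int.card_Icc]; omega
  rw [c, c]
  have h1 := card_Icc_sdiff k v.1
  have h2 := card_Icc_sdiff k v.2
  calc _ ≤ v.1.natAbs * (2 * k + 1) + (2 * k + 1) * v.2.natAbs := by gcongr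
    _ = _ := by ring

theorem card_sdiff_le' (v : Vx) (k : ℕ) :
    (box k \ bx' v k).card ≤ (v.1.natAbs + v.2.natAbs) * (2 * k + 1) := by
  have h : box k \ bx' v k = (bx' (-v) k \ box k).image (v + ·) := by
    ext u
    simp only [Finset.mem_sdiff, Finset.mem_image, mem_bx']
    constructor
    · rintro ⟨h1, h2⟩
      exact ⟨u - v, ⟨by simpa using h1, h2⟩, by simp⟩
    · rintro ⟨w, ⟨h1, h2⟩, rfl⟩
      refine ⟨?_, ?_⟩
      · simpa [add_comm] using h1
      · simpa using h2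
  rw [h]
  refine Finset.card_image_le.trans ?_
  have := card_sdiff_le (-v) k
  simpa using this

theorem ratio_le (v : Vx) (k : ℕ) {n : ℕ} (hn : n ≤ (v.1.natAbs + v.2.natAbs) * (2 * k + 1)) :
    ((box k).card : ℝ≥0∞)⁻¹ * n ≤ ((v.1.natAbs + v.2.natAbs : ℕ) : ℝ≥0∞) / (2 * k + 1 : ℕ) := by
  have h0 : ((2 * k + 1 : ℕ) : ℝ≥0∞) ≠ 0 := by
    exact_mod_cast (Nat.succ_ne_zero (2 * k))
  have h1 : ((2 * k + 1 : ℕ) : ℝ≥0∞) ≠ ⊤ := ENNReal.natCast_ne_top _
  have h2 : (n : ℝ≥0∞) ≤ ((v.1.natAbs + v.2.natAbs : ℕ) : ℝ≥0∞) * ((2 * k + 1 : ℕ) : ℝ≥0∞) := by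
    exact_mod_cast hn
  rw [card_box, Nat.cast_mul, ENNReal.mul_inv (Or.inl h0) (Or.inl h1)]
  calc ((2 * k + 1 : ℕ) : ℝ≥0∞)⁻¹ * ((2 * k + 1 : ℕ) : ℝ≥0∞)⁻¹ * n
      ≤ ((2 * k + 1 : ℕ) : ℝ≥0∞)⁻¹ * ((2 * k + 1 : ℕ) : ℝ≥0∞)⁻¹ *
        (((v.1.natAbs + v.2.natAbs : ℕ) : ℝ≥0∞) * ((2 * k + 1 : ℕ) : ℝ≥0∞)) := by gcongr
    _ = ((v.1.natAbs + v.2.natAbs : ℕ) : ℝ≥0∞) * ((2 * k + 1 : ℕ) : ℝ≥0∞)⁻¹ *
        (((2 * k + 1 : ℕ) : ℝ≥0∞)⁻¹ * ((2 * k + 1 : ℕ) : ℝ≥0∞)) := by ring
    _ = _ := by rw [ENNReal.inv_mul_cancel h0 h1, mul_one, div_eq_mul_inv]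

/-- the average and its translate differ by small measures -/
theorem approx_inv (T : Vx → X → X) (hT : ∀ u, Measurable (T u))
    (hadd : ∀ u v x, T u (T v x) = T (u + v) x) (v : Vx) (k : ℕ) (ν : Measure X)
    [IsProbabilityMeasure ν] :
    ∃ r r' : Measure X, avg T k ν + r = (avg T k ν).map (T v) + r' ∧
      r Set.univ ≤ ((v.1.natAbs + v.2.natAbs : ℕ) : ℝ≥0∞) / (2 * k + 1 : ℕ) ∧
      r' Set.univ ≤ ((v.1.natAbs + v.2.natAbs : ℕ) : ℝ≥0∞) / (2 * k + 1 : ℕ) := by
  set c : ℝ≥0∞ := ((box k).card : ℝ≥0∞)⁻¹ with hc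
  have hmap : (avg T k ν).map (T v) = c • ∑ u ∈ bx' v k, ν.map (T u) := by
    rw [avg, Measure.map_smul, ← Measure.mapₗ_apply_of_measurable (hT v), map_sum]
    simp only [Measure.mapₗ_apply_of_measurable (hT v)]
    congr 1
    rw [bx', Finset.sum_image (fun a _ b _ h => add_left_cancel h)]
    refine Finset.sum_congr rfl fun u _ => ?_
    rw [Measure.map_map (hT v) (hT u)]
    congr 1
    funext x
    exact hadd v u x
  have huniv : ∀ S : Finset Vx, (c • ∑ u ∈ S, ν.map (T u)) Set.univ = c * S.card := by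
    intro S
    have h : ∀ u, (ν.map (T u)) Set.univ = 1 := by
      intro u
      rw [Measure.map_apply (hT u) MeasurableSet.univ, Set.preimage_univ, measure_univ]
    rw [Measure.smul_apply, Measure.finsetSum_apply]
    simp only [h, Finset.sum_const, nsmul_eq_mul, mul_one, smul_eq_mul]
  refine ⟨c • ∑ u ∈ bx' v k \ box k, ν.map (T u), c • ∑ u ∈ box k \ bx' v k, ν.map (T u),
    ?_, ?_, ?_⟩
  · rw [hmap, avg, ← smul_add, ← smul_add]
    congr 1
    rw [← Finset.sum_union Finset.disjoint_sdiff, ← Finset.sum_union Finset.disjoint_sdiff]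
    congr 1
    ext u
    simp only [Finset.mem_union, Finset.mem_sdiff]
    tauto
  · rw [huniv]; exact ratio_le v k (card_sdiff_le v k)
  · rw [huniv]; exact ratio_le v k (card_sdiff_le' v k)

/-- a limit of averages over growing boxes is invariant -/
theorem inv_of_lim [TopologicalSpace X] [BorelSpace X] [HasOuterApproxClosed X]
    (T : Vx → X → X) (hTc : ∀ u, Continuous (T u))
    (hadd : ∀ u v x, T u (T v x) = T (u + v) x) {k : ℕ → ℕ} (hk : Tendsto k atTop atTop)
    {ν : ℕ → Measure X} (hν : ∀ n, IsProbabilityMeasure (ν n)) {U : Ultrafilter ℕ}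
    (hU : (U : Filter ℕ) ≤ atTop) {Q : Measure X} [IsProbabilityMeasure Q]
    (h : Lim (fun n => avg T (k n) (ν n)) U Q) (v : Vx) : MeasurePreserving (T v) Q Q := by
  have hT : ∀ u, Measurable (T u) := fun u => (hTc u).measurable
  have hp : ∀ n, IsProbabilityMeasure (avg T (k n) (ν n)) := by
    intro n
    have := hν n
    exact isProb_avg T hT (k n) (ν n)
  have he : Tendsto (fun n => ((v.1.natAbs + v.2.natAbs : ℕ) : ℝ≥0∞) / (2 * k n + 1 : ℕ)) U
      (𝓝 0) := by
    have h1 : Tendsto (fun n : ℕ => ((v.1.natAbs + v.2.natAbs : ℕ) : ℝ≥0∞) / (n : ℝ≥0∞)) atTop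
        (𝓝 0) := by
      have := ENNReal.Tendsto.const_div (a := ((v.1.natAbs + v.2.natAbs : ℕ) : ℝ≥0∞))
        (ENNReal.tendsto_nat_nhds_top) (Or.inr (ENNReal.natCast_ne_top _))
      simpa using this
    have h2 : Tendsto (fun n => 2 * k n + 1) atTop atTop := by
      refine tendsto_atTop_mono (fun n => ?_) hk
      omega
    exact (h1.comp h2).mono_left hU
  have h1 : Lim (fun n => (avg T (k n) (ν n)).map (T v)) U Q := by
    refine h.congr hp he fun n => ?_
    have := hν n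
    exact approx_inv T hT hadd v (k n) (ν n)
  have h2 := h.map (hTc v) (hT v)
  have : IsProbabilityMeasure (Q.map (T v)) :=
    Measure.isProbabilityMeasure_map (hT v).aemeasurable
  exact ⟨hT v, h2.unique h1⟩

end Pool.Agent.Helper5.Avg
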