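import Mathlib

/-!
Ordered segment products in a monoid and the abstract chain lemma.
-/

namespace Pool.Agent.Helper5

open Module

section Seg

variable {MM : Type*} [Monoid MM]

/-- ordered product `f i * f (i+1) * ... * f (j-1)` -/
def seg (f : ℕ → MM) (i j : ℕ) : MM := ((List.Ico i j).map f).prod

@[simp] theorem seg_self (f : ℕ → MM) (i : ℕ) : seg f i i = 1 := by
  simp [seg]

theorem seg_mul (f : ℕ → MM) {i j k : ℕ} (h1 : i ≤ j) (h2 : j ≤ k) :
    seg f i j * seg f j k = seg f i k := by
  unfold seg
  rw [← List.Ico.append_consecutive h1 h2, List.map_append, List.prod_append]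

theorem seg_succ (f : ℕ → MM) {i j : ℕ} (h : i ≤ j) :
    seg f i (j + 1) = seg f i j * f j := by
  unfold seg
  rw [List.Ico.succ_top h, List.map_append, List.prod_append]; simp

theorem seg_one (f : ℕ → MM) (i : ℕ) : seg f i (i + 1) = f i := by
  rw [seg_succ f le_rfl]; simp

theorem seg_head (f : ℕ → MM) {i j : ℕ} (h : i < j) :
    seg f i j = f i * seg f (i + 1) j := by
  rw [← seg_mul f (Nat.le_succ i) h, seg_one]

theorem seg_congr {f g : ℕ → MM} {i j : ℕ} (h : ∀ l, i ≤ l → l < j → f l = g l) :
    seg f i j = seg g i j := by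
  unfold seg
  congr 1
  apply List.map_congr_left
  intro l hl
  rw [List.Ico.mem] at hl
  exact h l hl.1 hl.2

open Classical in
/-- the mixture of two sequences -/
noncomputable def mix (a b : ℕ → MM) (s : ℕ → Prop) : ℕ → MM :=
  fun l => if s l then b l else a l

theorem mix_pos {a b : ℕ → MM} {s : ℕ → Prop} {l : ℕ} (h : s l) : mix a b s l = b l := by
  simp [mix, h]

theorem mix_neg {a b : ℕ → MM} {s : ℕ → Prop} {l : ℕ} (h : ¬ s l) : mix a b s l = a l := by
  simp [mix, h]

end Seg

section Chain

variable {MM : Type*} [Monoid MM] {K : Type*} [Field K]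

/-- left translation operator on functions on a monoid -/
def tr (K : Type*) [Field K] (E : MM) : (MM → K) →ₗ[K] (MM → K) where
  toFun φ := fun C => φ (E * C)
  map_add' _ _ := rfl
  map_smul' _ _ := rfl

theorem tr_apply (E : MM) (φ : MM → K) (C : MM) : tr K E φ C = φ (E * C) := rfl

theorem tr_tr (E E' : MM) (φ : MM → K) : tr K E' (tr K E φ) = tr K (E * E') φ := by
  funext C; simp [tr_apply, mul_assoc]

/-- **Abstract chain lemma.** -/
theorem chain (Φ : MM → K) (V : Submodule K (MM → K)) [FiniteDimensional K V]
    (hV : ∀ L, tr K L Φ ∈ V) (W : ℕ) (hW : finrank K V ≤ W)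
    (a b : ℕ → MM) (q : ℕ) (hfull : Φ (seg b 0 q) ≠ 0)
    (hproper : ∀ s : ℕ → Prop, (∃ l < q, ¬ s l) → Φ (seg (mix a b s) 0 q) = 0)
    (p : ℕ → ℕ) (hp : ∀ i < 2 * W + 1, p i < p (i + 1)) (hpq : p (2 * W + 1) ≤ q)
    (hZ : ∀ i < W, ∃ Z, seg b (p (2 * i)) (p (2 * i + 1)) *
      seg a (p (2 * i + 1)) (p (2 * i + 2)) *
      seg b (p (2 * i + 2)) (p (2 * i + 3)) * Z = seg b (p (2 * i)) (p (2 * i + 1))) :
    False := by
  classical
  -- monotonicity of p
  have hpm : ∀ i j, i ≤ j → j ≤ 2 * W + 1 → p i ≤ p j := by
    intro i j hij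
    induction j, hij using Nat.le_induction with
    | base => intro _; exact le_rfl
    | succ j hij ih => intro hj; exact (ih (by omega)).trans (hp j (by omega)).le
  set E : ℕ → MM := fun i => seg b (p (2 * i)) (p (2 * i + 1)) with hE
  set I : ℕ → MM := fun i => seg a (p (2 * i + 1)) (p (2 * i + 2)) with hI
  set lam : ℕ → (MM → K) := fun i => tr K (seg b 0 (p (2 * i))) Φ with hlam
  set Sset : ℕ → Set (MM → K) := fun i =>
    {φ | ∃ s : ℕ → Prop, (∃ l < p (2 * i), ¬ s l) ∧
      φ = tr K (seg (mix a b s) 0 (p (2 * i))) Φ} with hSset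
  set Lam : ℕ → Submodule K (MM → K) := fun i => Submodule.span K (Sset i) with hLam
  -- everything in V
  have hLamV : ∀ i (X : MM), (Lam i).map (tr K X) ≤ V := by
    intro i X
    rw [Submodule.map_span_le]
    rintro φ ⟨s, _, rfl⟩
    rw [tr_tr]; exact hV _
  have hlamV : ∀ i (X : MM), tr K X (lam i) ∈ V := by
    intro i X
    simp only [hlam]
    rw [tr_tr]; exact hV _
  -- evaluation
  have heval : ∀ i ≤ W, ∀ φ ∈ (Lam i).map (tr K (E i)), φ (seg b (p (2 * i + 1)) q) = 0 := by
    intro i hi φ hφ
    have : (Lam i).map (tr K (E i)) ≤ LinearMap.ker (LinearMap.proj (R := K) (φ := fun _ : MM => K)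
        (seg b (p (2 * i + 1)) q)) := by
      rw [Submodule.map_span_le]
      rintro ψ ⟨s, ⟨l, hl, hsl⟩, rfl⟩
      rw [LinearMap.mem_ker, LinearMap.proj_apply, tr_tr, tr_apply]
      have h1 : p (2 * i) ≤ p (2 * i + 1) := hpm _ _ (by omega) (by omega)
      have h2 : p (2 * i + 1) ≤ q := (hpm _ _ (by omega) le_rfl).trans hpq
      set s' : ℕ → Prop := fun l => s l ∨ p (2 * i) ≤ l with hs'
      have e1 : seg (mix a b s) 0 (p (2 * i)) = seg (mix a b s') 0 (p (2 * i)) := by
        apply seg_congr
        intro l _ hl2
        have : s' l ↔ s l := by simp [hs']; omega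
        simp [mix, this]
      have e2 : E i = seg (mix a b s') (p (2 * i)) (p (2 * i + 1)) := by
        apply seg_congr
        intro l hl1 hl2
        have : s' l := by simp [hs']; omega
        simp [mix, this]
      have e3 : seg b (p (2 * i + 1)) q = seg (mix a b s') (p (2 * i + 1)) q := by
        apply seg_congr
        intro l hl1 hl2
        have : s' l := by simp [hs']; omega
        simp [mix, this]
      rw [e1, e2, e3, seg_mul _ (Nat.zero_le _) h1, seg_mul _ (Nat.zero_le _) h2]
      apply hproper
      refine ⟨l, by omega, ?_⟩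
      simp only [hs', not_or]
      exact ⟨hsl, by omega⟩
    exact this hφ
  have hlamval : ∀ i ≤ W, (tr K (E i) (lam i)) (seg b (p (2 * i + 1)) q) ≠ 0 := by
    intro i hi
    simp only [hlam]
    have h1 : p (2 * i) ≤ p (2 * i + 1) := hpm _ _ (by omega) (by omega)
    have h2 : p (2 * i + 1) ≤ q := (hpm _ _ (by omega) le_rfl).trans hpq
    rw [tr_tr, tr_apply, hE]
    simp only
    rw [seg_mul _ (Nat.zero_le _) h1, seg_mul _ (Nat.zero_le _) h2]
    exact hfull
  have hnotmem : ∀ i ≤ W, tr K (E i) (lam i) ∉ (Lam i).map (tr K (E i)) := by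
    intro i hi hmem
    exact hlamval i hi (heval i hi _ hmem)
  -- the big spaces
  set X : ℕ → Submodule K (MM → K) := fun i =>
    (Lam i).map (tr K (E i)) ⊔ Submodule.span K {tr K (E i) (lam i)} with hX
  have hXV : ∀ i, X i ≤ V := by
    intro i
    refine sup_le (hLamV i _) ?_
    rw [Submodule.span_singleton_le_iff_mem]
    exact hlamV i _
  have hfinX : ∀ i, FiniteDimensional K (X i) := fun i =>
    Submodule.finiteDimensional_of_le (hXV i)
  have hfinL : ∀ i (Y : MM), FiniteDimensional K ((Lam i).map (tr K Y)) := fun i Y =>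
    Submodule.finiteDimensional_of_le (hLamV i Y)
  have hXdim : ∀ i ≤ W, finrank K ((Lam i).map (tr K (E i))) + 1 ≤ finrank K (X i) := by
    intro i hi
    have hlt : (Lam i).map (tr K (E i)) < X i := by
      refine lt_of_le_of_ne le_sup_left ?_
      intro heq
      apply hnotmem i hi
      rw [heq]
      exact Submodule.mem_sup_right (Submodule.mem_span_singleton_self _)
    have := hfinX i
    exact Submodule.finrank_lt_finrank_of_lt hlt
  -- X i is contained in the range of tr (E i)
  have hXrange : ∀ i, X i ≤ LinearMap.range (tr K (E i) : (MM → K) →ₗ[K] (MM → K)) := by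
    intro i
    refine sup_le (LinearMap.map_le_range) ?_
    rw [Submodule.span_singleton_le_iff_mem]
    exact LinearMap.mem_range_self _ _
  have hstep : ∀ i < W, finrank K (X i) ≤ finrank K ((Lam (i + 1)).map (tr K (E (i + 1)))) := by
    intro i hi
    have := hfinL (i + 1) (E (i + 1))
    set T : (MM → K) →ₗ[K] (MM → K) := tr K (I i * E (i + 1)) with hT
    -- injectivity
    have hinj : ∀ φ ∈ X i, T φ = 0 → φ = 0 := by
      intro φ hφ h0
      obtain ⟨ψ, rfl⟩ := hXrange i hφ
      obtain ⟨Z, hZi⟩ := hZ i hi
      have h1 : tr K Z (T (tr K (E i) ψ)) = 0 := by rw [h0]; simp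
      rw [hT, tr_tr, tr_tr] at h1
      have h2 : E i * (I i * E (i + 1) * Z) = E i := by
        have : E (i + 1) = seg b (p (2 * i + 2)) (p (2 * i + 3)) := by
          simp only [hE]; congr 1
        rw [this, ← mul_assoc, ← mul_assoc]; exact hZi
      rw [h2] at h1
      exact h1
    have hmap : (X i).map T ≤ (Lam (i + 1)).map (tr K (E (i + 1))) := by
      have key : ∀ s : ℕ → Prop, tr K (E (i+1)) (tr K (I i) (tr K (E i)
          (tr K (seg (mix a b s) 0 (p (2 * i))) Φ))) ∈ (Lam (i + 1)).map (tr K (E (i + 1))) := by
        intro s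
        apply Submodule.mem_map_of_mem
        apply Submodule.subset_span
        set s' : ℕ → Prop := fun l => (s l ∧ l < p (2 * i)) ∨ (p (2 * i) ≤ l ∧ l < p (2 * i + 1))
          with hs'
        have h1 : p (2 * i) ≤ p (2 * i + 1) := hpm _ _ (by omega) (by omega)
        have h2 : p (2 * i + 1) < p (2 * i + 2) := hp _ (by omega)
        refine ⟨s', ⟨p (2 * i + 1), ?_, ?_⟩, ?_⟩
        · have : 2 * (i + 1) = 2 * i + 2 := by ring
          rw [this]; exact h2
        · simp only [hs']; omega
        · rw [tr_tr, tr_tr]
          congr 1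
          have e1 : seg (mix a b s) 0 (p (2 * i)) = seg (mix a b s') 0 (p (2 * i)) := by
            apply seg_congr
            intro l _ hl2
            have : s' l ↔ s l := by
              simp only [hs']
              constructor
              · rintro (⟨h, _⟩ | ⟨h, _⟩)
                · exact h
                · omega
              · intro h; exact Or.inl ⟨h, hl2⟩
            simp [mix, this]
          have e2 : E i = seg (mix a b s') (p (2 * i)) (p (2 * i + 1)) := by
            apply seg_congr
            intro l hl1 hl2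
            have : s' l := by simp only [hs']; exact Or.inr ⟨hl1, hl2⟩
            simp [mix, this]
          have e3 : I i = seg (mix a b s') (p (2 * i + 1)) (p (2 * i + 2)) := by
            apply seg_congr
            intro l hl1 hl2
            have : ¬ s' l := by simp only [hs']; omega
            simp [mix, this]
          have e4 : 2 * (i + 1) = 2 * i + 2 := by ring
          rw [e1, e2, e3, e4, seg_mul _ h1 h2.le,
            seg_mul _ (Nat.zero_le _) (h1.trans h2.le)]
      rw [Submodule.map_le_iff_le_comap]
      refine sup_le ?_ ?_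
      · rw [Submodule.map_span_le]
        rintro φ ⟨s, _, rfl⟩
        rw [Submodule.mem_comap, hT]
        have := key s
        rw [tr_tr] at this ⊢
        rw [tr_tr, tr_tr] at this
        rw [tr_tr]
        convert this using 2
      · rw [Submodule.span_singleton_le_iff_mem, Submodule.mem_comap, hT]
        have := key (fun _ => True)
        have e : seg (mix a b (fun _ => True)) 0 (p (2 * i)) = seg b 0 (p (2 * i)) := by
          apply seg_congr
          intro l _ _
          simp [mix]
        rw [e, tr_tr, tr_tr, tr_tr] at this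
        simp only [hlam]
        rw [tr_tr, tr_tr]
        convert this using 2
    calc finrank K (X i) = finrank K ((X i).map T) := by
          symm
          have hinj' : Function.Injective (T.domRestrict (X i)) := by
            rw [← LinearMap.ker_eq_bot, LinearMap.ker_eq_bot']
            rintro ⟨φ, hφ⟩ h
            have := hinj φ hφ h
            exact Subtype.ext this
          have h1 : (X i).map T = LinearMap.range (T.domRestrict (X i)) := by
            rw [LinearMap.range_domRestrict]
          rw [h1]
          exact LinearMap.finrank_range_of_inj hinj'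
      _ ≤ _ := Submodule.finrank_mono hmap
  have hD : ∀ i ≤ W, i ≤ finrank K ((Lam i).map (tr K (E i))) := by
    intro i
    induction i with
    | zero => intro _; exact Nat.zero_le _
    | succ i ih =>
      intro hi
      have h1 := ih (by omega)
      have h2 := hXdim i (by omega)
      have h3 := hstep i (by omega)
      omega
  have h1 := hD W le_rfl
  have h2 := hXdim W le_rfl
  have h3 : finrank K (X W) ≤ finrank K V := Submodule.finrank_mono (hXV W)
  omega

end Chain

end Pool.Agent.Helper5
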