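import Pool.Agent.Helper5.Chain

/-!
The left translates of `C ↦ det (A * C * B)` span a space of dimension at most `w ^ R`.
-/

namespace Pool.Agent.Helper5

open Module Matrix

variable {K : Type*} [Field K] {w R : ℕ}

theorem det_mul_expand (X : Matrix (Fin R) (Fin w) K) (D : Matrix (Fin w) (Fin R) K) :
    (X * D).det = ∑ j : Fin R → Fin w, (∏ i, X i (j i)) * (D.submatrix j id).det := by
  classical
  have h1 : (X * D).det = (Matrix.detRowAlternating (R := K) (n := Fin R)).toMultilinearMap
      (fun i => ∑ m, X i m • D m) := by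
    show (X * D).det = Matrix.det (Matrix.of (fun i => ∑ m, X i m • D m))
    congr 1
    ext i k
    simp [Matrix.mul_apply, Finset.sum_apply]
  rw [h1, MultilinearMap.map_sum]
  refine Finset.sum_congr rfl fun j _ => ?_
  rw [MultilinearMap.map_smul_univ, smul_eq_mul]
  rfl

/-- the minor function -/
def minorFun (A : Matrix (Fin R) (Fin w) K) (B : Matrix (Fin w) (Fin R) K) :
    Matrix (Fin w) (Fin w) K → K := fun C => (A * C * B).det

/-- a space containing all left translates of `minorFun A B` -/
def minorSpace (B : Matrix (Fin w) (Fin R) K) : Submodule K (Matrix (Fin w) (Fin w) K → K) :=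
  Submodule.span K (Set.range (fun (j : Fin R → Fin w) (C : Matrix (Fin w) (Fin w) K) =>
    ((C * B).submatrix j id).det))

instance (B : Matrix (Fin w) (Fin R) K) : FiniteDimensional K (minorSpace B) :=
  FiniteDimensional.span_of_finite K (Set.finite_range _)

theorem finrank_minorSpace (B : Matrix (Fin w) (Fin R) K) :
    finrank K (minorSpace B) ≤ w ^ R := by
  have := finrank_range_le_card (R := K) (fun (j : Fin R → Fin w) (C : Matrix (Fin w) (Fin w) K) =>
    ((C * B).submatrix j id).det)
  have h2 : Fintype.card (Fin R → Fin w) = w ^ R := by simp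
  rw [h2] at this
  exact this

theorem tr_minorFun_mem (A : Matrix (Fin R) (Fin w) K) (B : Matrix (Fin w) (Fin R) K)
    (L : Matrix (Fin w) (Fin w) K) : tr K L (minorFun A B) ∈ minorSpace B := by
  have h : tr K L (minorFun A B) = ∑ j : Fin R → Fin w, (∏ i, (A * L) i (j i)) •
      (fun C : Matrix (Fin w) (Fin w) K => ((C * B).submatrix j id).det) := by
    funext C
    rw [tr_apply, minorFun, ← Matrix.mul_assoc, Matrix.mul_assoc (A * L), det_mul_expand]
    simp [Finset.sum_apply]
  rw [h]
  apply Submodule.sum_mem
  intro j _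
  apply Submodule.smul_mem
  exact Submodule.subset_span ⟨j, rfl⟩

theorem seg_seg {MM : Type*} [Monoid MM] (f : ℕ → MM) (c : ℕ → ℕ) (hc : Monotone c) {i j : ℕ}
    (hij : i ≤ j) : seg (fun l => seg f (c l) (c (l + 1))) i j = seg f (c i) (c j) := by
  induction j, hij using Nat.le_induction with
  | base => simp
  | succ j hij ih =>
    rw [seg_succ _ hij, ih, seg_mul _ (hc hij) (hc (Nat.le_succ j))]

end Pool.Agent.Helper5
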