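import Mathlib

/-!
Homogeneous subsequences for a bounded function of intervals which is antitone under inclusion.
-/

namespace Pool.Agent.Helper5

theorem homog (M : ℕ) (hM : 0 < M) (r : ℕ → ℕ → ℕ) (B : ℕ)
    (hr : ∀ i i' j' j, i ≤ i' → i' ≤ j' → j' ≤ j → r i j ≤ r i' j') (hB : ∀ i j, r i j ≤ B) :
    ∀ d lo hi, B ≤ r lo hi + d → lo + M ^ (d + 1) ≤ hi →
      ∃ p : ℕ → ℕ, lo ≤ p 0 ∧ p M ≤ hi ∧ (∀ i < M, p i < p (i + 1)) ∧
        (∀ i < M, r (p i) (p (i + 1)) = r (p 0) (p M)) := by
  intro d
  induction d with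
  | zero =>
    intro lo hi h1 h2
    refine ⟨fun i => lo + i, by simp, by simpa using h2, fun i _ => by simp, ?_⟩
    intro i hi'
    have hle : lo ≤ hi := le_trans (Nat.le_add_right _ _) h2
    have e1 : r (lo + i) (lo + (i + 1)) = B := by
      apply le_antisymm (hB _ _)
      have := hr lo (lo + i) (lo + (i + 1)) hi (by omega) (by omega) (by simp at h2; omega)
      omega
    have e2 : r (lo + 0) (lo + M) = B := by
      apply le_antisymm (hB _ _)
      have := hr lo (lo + 0) (lo + M) hi (by omega) (by omega) (by simpa using h2)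
      omega
    simp only [e1, e2]
  | succ d ih =>
    intro lo hi h1 h2
    have hpos : 0 < M ^ (d + 1) := pow_pos hM _
    have hmul : M ^ (d + 1 + 1) = M * M ^ (d + 1) := by rw [pow_succ]; ring
    by_cases hc : ∀ i < M, r (lo + i * M ^ (d + 1)) (lo + (i + 1) * M ^ (d + 1)) ≤ r lo hi
    · refine ⟨fun i => lo + i * M ^ (d + 1), by simp, by rw [hmul] at h2; exact h2, ?_, ?_⟩
      · intro i _
        have : (i + 1) * M ^ (d + 1) = i * M ^ (d + 1) + M ^ (d + 1) := by ring
        simp only
        omega
      · intro i hi'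
        have hbound : ∀ j ≤ M, j * M ^ (d + 1) ≤ M * M ^ (d + 1) := fun j hj =>
          Nat.mul_le_mul_right _ hj
        have e1 : r (lo + i * M ^ (d + 1)) (lo + (i + 1) * M ^ (d + 1)) = r lo hi := by
          apply le_antisymm (hc i hi')
          have h3 : (i + 1) * M ^ (d + 1) = i * M ^ (d + 1) + M ^ (d + 1) := by ring
          apply hr _ _ _ _ (by omega) (by omega)
          have := hbound (i + 1) hi'
          omega
        have e2 : r (lo + 0 * M ^ (d + 1)) (lo + M * M ^ (d + 1)) = r lo hi := by
          apply le_antisymm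
          · refine le_trans ?_ (hc 0 hM)
            apply hr _ _ _ _ (le_refl _) (by omega)
            have := hbound 1 hM
            simp only [zero_add]
            omega
          · apply hr _ _ _ _ (by omega) (by omega)
            omega
        simp only [e1, e2]
    · push Not at hc
      obtain ⟨i, hiM, hlt⟩ := hc
      obtain ⟨p, hp0, hpM, hp1, hp2⟩ := ih (lo + i * M ^ (d + 1)) (lo + (i + 1) * M ^ (d + 1))
        (by omega) (by have : (i + 1) * M ^ (d + 1) = i * M ^ (d + 1) + M ^ (d + 1) := by ring
                       omega)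
      refine ⟨p, by omega, ?_, hp1, hp2⟩
      have : (i + 1) * M ^ (d + 1) ≤ M * M ^ (d + 1) := Nat.mul_le_mul_right _ hiM
      omega

end Pool.Agent.Helper5
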