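import Pool.Agent.Helper5.Critical
import Pool.Agent.Helper5.DetSpan
import Pool.Agent.Helper5.Homog

/-!
The core property for read-once programs.
-/

namespace Pool.Agent.Helper5

open Module Matrix

variable {K : Type*} [Field K] {w n : ℕ}
variable (M : ℕ → Matrix (Fin w) (Fin w) (Polynomial K)) (ν : ℕ → Fin n)

/-- an enumeration of a finite set of naturals, extended to a monotone function -/
theorem exists_enum (T : Finset ℕ) (q : ℕ) (hq : T.card = q + 1) :
    ∃ t : ℕ → ℕ, Monotone t ∧ (∀ i < q, t i < t (i + 1)) ∧ (∀ i, t i ∈ T) ∧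
      (∀ l ∈ T, ∃ i ≤ q, t i = l) := by
  set e := T.orderEmbOfFin hq with he
  refine ⟨fun i => e ⟨min i q, by omega⟩, ?_, ?_, ?_, ?_⟩
  · intro i j hij
    apply e.monotone
    simp only [Fin.mk_le_mk]
    omega
  · intro i hi
    apply e.strictMono
    simp only [Fin.mk_lt_mk]
    omega
  · intro i
    exact T.orderEmbOfFin_mem hq _
  · intro l hl
    have : l ∈ Set.range e := by
      rw [he, Finset.range_orderEmbOfFin]; exact hl
    obtain ⟨⟨i, hi⟩, rfl⟩ := this
    refine ⟨i, by omega, ?_⟩
    have h1 : min i q = i := by omega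
    simp only [h1]

theorem critCore_one (N : ℕ) (hν : ∀ l l', l < N → l' < N → ν l = ν l' → l = l') :
    CritCore M ν N ((2 * w ^ w + 1) ^ (w + 1) + 1) := by
  classical
  intro γ y S a b hab hbN R hR U V hdet hmin hrank
  by_contra hcon
  push Not at hcon
  set W := w ^ w with hW
  set T := (Finset.Ico a b).filter (fun l => ν l ∈ S) with hT
  -- every variable of S is read
  have hST : S ⊆ T.image ν := by
    intro s hs
    by_contra hns
    have h0 := hmin (S.erase s) (Finset.erase_ssubset hs)
    apply hdet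
    rw [← h0]
    congr 3
    apply P_congr
    intro l h1 h2
    have hne : ν l ≠ s := by
      intro h
      apply hns
      rw [Finset.mem_image]
      exact ⟨l, by rw [hT, Finset.mem_filter, Finset.mem_Ico]; exact ⟨⟨h1, h2⟩, by rw [h]; exact hs⟩, h⟩
    unfold put
    simp [Finset.mem_erase, hne]
  have hTcard : (2 * W + 1) ^ (w + 1) + 1 < T.card :=
    lt_of_lt_of_le hcon ((Finset.card_le_card hST).trans Finset.card_image_le)
  obtain ⟨q, hq⟩ : ∃ q, T.card = q + 1 + 1 := ⟨T.card - 2, by omega⟩
  have hqbig : (2 * W + 1) ^ (w + 1) ≤ q := by omega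
  obtain ⟨t, htm, htlt, htT, htsurj⟩ := exists_enum T (q + 1) hq
  have htS : ∀ i, ν (t i) ∈ S := fun i => (Finset.mem_filter.mp (htT i)).2
  have htab : ∀ i, a ≤ t i ∧ t i < b := fun i => by
    have := (Finset.mem_filter.mp (htT i)).1
    rwa [Finset.mem_Ico] at this
  have htinj : ∀ i j, i ≤ q + 1 → j ≤ q + 1 → ν (t i) = ν (t j) → i = j := by
    intro i j hi hj hνe
    have h1 : t i = t j := hν _ _ (by have := htab i; omega) (by have := htab j; omega) hνe
    have hmono : ∀ i j, i < j → j ≤ q + 1 → t i < t j := by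
      intro i j hij hj
      exact lt_of_lt_of_le (htlt i (by omega)) (htm hij)
    rcases lt_trichotomy i j with h | h | h
    · have := hmono i j h hj; omega
    · exact h
    · have := hmono j i h hi; omega
  -- nodes
  set c : ℕ → ℕ := fun i => t (i + 1) with hc
  have hcm : Monotone c := fun i j hij => htm (by omega)
  -- the point associated with a pattern
  set X : (ℕ → Prop) → Finset (Fin n) := fun s =>
    S.filter (fun x => ∀ i < q, ν (c i) = x → s i) with hX
  have hXS : ∀ s, X s ⊆ S := fun s => Finset.filter_subset _ _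
  have hXmem : ∀ s i, i < q → (ν (c i) ∈ X s ↔ s i) := by
    intro s i hi
    rw [hX, Finset.mem_filter]
    constructor
    · rintro ⟨_, h⟩; exact h i hi rfl
    · intro h
      refine ⟨htS _, fun j hj hνe => ?_⟩
      have := htinj (j + 1) (i + 1) (by omega) (by omega) hνe
      have : j = i := by omega
      rw [this]; exact h
  have hXout : ∀ s i, i ≤ q + 1 → (i = 0 ∨ i = q + 1) → ν (t i) ∈ X s := by
    intro s i hi hi2
    rw [hX, Finset.mem_filter]
    refine ⟨htS _, fun j hj hνe => ?_⟩
    have := htinj (j + 1) i (by omega) hi hνe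
    omega
  -- layers not in T are at base for every pattern
  have hnotT : ∀ (τ : Finset (Fin n)), τ ⊆ S → ∀ l, a ≤ l → l < b → l ∉ T →
      put γ τ y (ν l) = γ (ν l) := by
    intro τ hτ l h1 h2 h3
    apply put_not_mem
    intro h
    apply h3
    rw [hT, Finset.mem_filter, Finset.mem_Ico]
    exact ⟨⟨h1, h2⟩, hτ h⟩
  set bb : ℕ → Matrix (Fin w) (Fin w) K := fun i => P M ν (put γ S y) (c i) (c (i + 1)) with hbb
  set aa : ℕ → Matrix (Fin w) (Fin w) K :=
    fun i => P M ν (put γ (X (fun _ => False)) y) (c i) (c (i + 1)) with haa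
  -- block formula
  have hblock : ∀ s i, i < q → P M ν (put γ (X s) y) (c i) (c (i + 1)) = mix aa bb s i := by
    intro s i hi
    have hkey : ∀ τ τ' : Finset (Fin n), τ ⊆ S → τ' ⊆ S → (ν (c i) ∈ τ ↔ ν (c i) ∈ τ') →
        P M ν (put γ τ y) (c i) (c (i + 1)) = P M ν (put γ τ' y) (c i) (c (i + 1)) := by
      intro τ τ' h1 h2 h3
      apply P_congr
      intro l hl1 hl2
      by_cases hlT : l ∈ T
      · obtain ⟨j, hj, rfl⟩ := htsurj l hlT
        have : j = i + 1 := by
          by_contra hne
          rcases lt_or_gt_of_ne hne with h | h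
          · have h5 : t j < t (i + 1) := lt_of_lt_of_le (htlt j (by omega)) (htm (by omega))
            simp only [hc] at hl1
            omega
          · have h5 : t (i + 1 + 1) ≤ t j := htm (by omega)
            simp only [hc] at hl2
            omega
        subst this
        by_cases h4 : ν (c i) ∈ τ
        · have h5 := h3.mp h4
          simp only [hc] at h4 h5
          rw [put_mem h4, put_mem h5]
        · have h5 : ν (c i) ∉ τ' := fun h => h4 (h3.mpr h)
          simp only [hc] at h4 h5
          rw [put_not_mem h4, put_not_mem h5]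
      · have hla : a ≤ l := le_trans (htab (i + 1)).1 hl1
        have hlb : l < b := lt_trans hl2 (htab (i + 1 + 1)).2
        rw [hnotT τ h1 l hla hlb hlT, hnotT τ' h2 l hla hlb hlT]
    by_cases hs : s i
    · rw [mix_pos hs]
      exact hkey _ _ (hXS s) (le_refl S) ⟨fun _ => htS _, fun _ => (hXmem s i hi).mpr hs⟩
    · rw [mix_neg hs]
      apply hkey _ _ (hXS s) (hXS _)
      rw [hXmem s i hi, hXmem _ i hi]
      simp [hs]
  have hseg : ∀ s i j, i ≤ j → j ≤ q →
      seg (mix aa bb s) i j = P M ν (put γ (X s) y) (c i) (c j) := by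
    intro s i j hij hj
    rw [P, ← seg_seg _ c hcm hij]
    apply seg_congr
    intro l hl1 hl2
    rw [← hblock s l (by omega)]
    rfl
  have hsegb : ∀ i j, i ≤ j → j ≤ q → seg bb i j = P M ν (put γ S y) (c i) (c j) := by
    intro i j hij hj
    rw [P, ← seg_seg _ c hcm hij]
    rfl
  -- outer parts do not depend on the pattern
  have hleft : ∀ s, P M ν (put γ (X s) y) a (c 0) = P M ν (put γ S y) a (c 0) := by
    intro s
    apply P_congr
    intro l hl1 hl2
    by_cases hlT : l ∈ T
    · obtain ⟨j, hj, rfl⟩ := htsurj l hlT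
      have : j = 0 := by
        by_contra hne
        have : t (0 + 1) ≤ t j := htm (by omega)
        simp only [hc] at hl2
        omega
      subst this
      rw [put_mem (hXout s 0 (by omega) (Or.inl rfl)), put_mem (htS 0)]
    · have hlb : l < b := lt_trans hl2 (htab (0 + 1)).2
      rw [hnotT _ (hXS s) l hl1 hlb hlT, hnotT S (le_refl S) l hl1 hlb hlT]
  have hright : ∀ s, P M ν (put γ (X s) y) (c q) b = P M ν (put γ S y) (c q) b := by
    intro s
    apply P_congr
    intro l hl1 hl2
    by_cases hlT : l ∈ T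
    · obtain ⟨j, hj, rfl⟩ := htsurj l hlT
      have : j = q + 1 := by
        by_contra hne
        have : t j < t (q + 1) := lt_of_lt_of_le (htlt j (by omega)) (htm (by omega))
        simp only [hc] at hl1
        omega
      subst this
      rw [put_mem (hXout s (q + 1) le_rfl (Or.inr rfl)), put_mem (htS _)]
    · have hla : a ≤ l := le_trans (htab (q + 1)).1 hl1
      rw [hnotT _ (hXS s) l hla hl2 hlT, hnotT S (le_refl S) l hla hl2 hlT]
  -- the functional
  set A := U * P M ν (put γ S y) a (c 0) with hA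
  set B := P M ν (put γ S y) (c q) b * V with hB
  have hac : a ≤ c 0 := (htab 1).1
  have hcb : c q ≤ b := (htab (q + 1)).2.le
  have hΦ : ∀ s, minorFun A B (seg (mix aa bb s) 0 q) = (U * P M ν (put γ (X s) y) a b * V).det := by
    intro s
    rw [hseg s 0 q (Nat.zero_le _) le_rfl, minorFun, hA, hB, ← hleft s, ← hright s]
    congr 1
    rw [← P_mul M ν (put γ (X s) y) (hac.trans (hcm (Nat.zero_le q))) hcb,
      ← P_mul M ν (put γ (X s) y) hac (hcm (Nat.zero_le q))]
    simp only [Matrix.mul_assoc]
  have hΦb : minorFun A B (seg bb 0 q) = (U * P M ν (put γ S y) a b * V).det := by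
    rw [hsegb 0 q (Nat.zero_le _) le_rfl, minorFun, hA, hB]
    congr 1
    rw [← P_mul M ν (put γ S y) (hac.trans (hcm (Nat.zero_le q))) hcb,
      ← P_mul M ν (put γ S y) hac (hcm (Nat.zero_le q))]
    simp only [Matrix.mul_assoc]
  -- homogeneous nodes
  set r : ℕ → ℕ → ℕ := fun i j => rho M ν (c i) (c j) with hr
  obtain ⟨p, -, hpM, hplt, hphom⟩ := homog (2 * W + 1) (by omega) r w
    (fun i i' j' j h1 h2 h3 => rho_anti M ν (hcm h1) (hcm h2) (hcm h3))
    (fun i j => rho_le M ν _ _) w 0 q (by omega) (by omega)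
  have hpm : ∀ i j, i ≤ j → j ≤ 2 * W + 1 → p i ≤ p j := by
    intro i j hij
    induction j, hij using Nat.le_induction with
    | base => intro _; exact le_rfl
    | succ j hij ih => intro hj; exact (ih (by omega)).trans (hplt j (by omega)).le
  -- chain
  apply chain (minorFun A B) (minorSpace B) (fun L => tr_minorFun_mem A B L) W
    (le_trans (finrank_minorSpace B) (by
      rw [hW]
      rcases Nat.eq_zero_or_pos w with h0 | h0
      · have : R = 0 := by omega
        subst this; rw [h0]
      · exact Nat.pow_le_pow_right h0 hR)) aa bb q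
    (by rw [hΦb]; exact hdet)
    (by
      rintro s ⟨i, hi, hsi⟩
      rw [hΦ s]
      apply hmin
      refine Finset.ssubset_iff_subset_ne.mpr ⟨hXS s, ?_⟩
      intro heq
      apply hsi
      rw [← hXmem s i hi, heq]
      exact htS _)
    p hplt hpM
  intro i hi
  set s : ℕ → Prop := fun l => ¬ (p (2 * i + 1) ≤ l ∧ l < p (2 * i + 2)) with hs
  have h1 : p (2 * i) ≤ p (2 * i + 1) := hpm _ _ (by omega) (by omega)
  have h2 : p (2 * i + 1) ≤ p (2 * i + 2) := hpm _ _ (by omega) (by omega)
  have h3 : p (2 * i + 2) ≤ p (2 * i + 3) := hpm _ _ (by omega) (by omega)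
  have h4 : p (2 * i + 3) ≤ q := (hpm _ _ (by omega) le_rfl).trans hpM
  have e1 : seg bb (p (2 * i)) (p (2 * i + 1)) = seg (mix aa bb s) (p (2 * i)) (p (2 * i + 1)) := by
    apply seg_congr
    intro l hl1 hl2
    rw [mix_pos]
    simp only [hs]; omega
  have e2 : seg aa (p (2 * i + 1)) (p (2 * i + 2)) =
      seg (mix aa bb s) (p (2 * i + 1)) (p (2 * i + 2)) := by
    apply seg_congr
    intro l hl1 hl2
    rw [mix_neg]
    simp only [hs]; omega
  have e3 : seg bb (p (2 * i + 2)) (p (2 * i + 3)) =
      seg (mix aa bb s) (p (2 * i + 2)) (p (2 * i + 3)) := by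
    apply seg_congr
    intro l hl1 hl2
    rw [mix_pos]
    simp only [hs]; omega
  have hrE : (seg bb (p (2 * i)) (p (2 * i + 1))).rank = r (p (2 * i)) (p (2 * i + 1)) := by
    rw [hsegb _ _ h1 (by omega)]
    have ha' : a < c (p (2 * i)) := by
      have h5 : t 0 < t (0 + 1) := htlt 0 (by omega)
      have h6 := (htab 0).1
      have h7 : t (0 + 1) ≤ t (p (2 * i) + 1) := htm (by omega)
      simp only [hc]; omega
    exact hrank S (le_refl S) _ _ ha' (hcm h1) (htab _).2
  have hrF : (seg bb (p (2 * i)) (p (2 * i + 1)) * (seg aa (p (2 * i + 1)) (p (2 * i + 2)) *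
      seg bb (p (2 * i + 2)) (p (2 * i + 3)))).rank = r (p (2 * i)) (p (2 * i + 3)) := by
    rw [e1, e2, e3, seg_mul _ h2 h3, seg_mul _ h1 (h2.trans h3),
      hseg s _ _ (h1.trans (h2.trans h3)) h4]
    have ha' : a < c (p (2 * i)) := by
      have h5 : t 0 < t (0 + 1) := htlt 0 (by omega)
      have h6 := (htab 0).1
      have h7 : t (0 + 1) ≤ t (p (2 * i) + 1) := htm (by omega)
      simp only [hc]; omega
    exact hrank (X s) (hXS s) _ _ ha' (hcm (h1.trans (h2.trans h3))) (htab _).2
  have hle : r (p (2 * i)) (p (2 * i + 1)) ≤ r (p (2 * i)) (p (2 * i + 3)) := by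
    rw [hphom (2 * i) (by omega)]
    exact rho_anti M ν (hcm (hpm _ _ (Nat.zero_le _) (by omega)))
      (hcm (h1.trans (h2.trans h3))) (hcm (hpm _ _ (by omega) le_rfl))
  obtain ⟨Z, hZ⟩ := exists_right_of_rank_le _ _ (by rw [hrE, hrF]; exact hle)
  refine ⟨Z, ?_⟩
  refine Eq.trans ?_ hZ
  simp only [Matrix.mul_assoc]

end Pool.Agent.Helper5
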