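import Pool.Agent.Helper5.Critical

/-!
The generator, the hitting set, and the hitting theorem from the core property.
-/

namespace Pool.Agent.Helper5

open Module Matrix

/-- the generator: `i`-th coordinate `∑ l, z_l * ∏_{j ≠ i} (y_l - j)` -/
def gen (n c : ℕ) (s : Fin c ⊕ Fin c → ℚ) : Fin n → ℚ := fun i =>
  ∑ l : Fin c, s (Sum.inl l) * ∏ j ∈ Finset.univ.erase i, (s (Sum.inr l) - (j.val : ℚ))

/-- the polynomials of the generator -/
noncomputable def genPoly (n c : ℕ) (i : Fin n) : MvPolynomial (Fin c ⊕ Fin c) ℚ :=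
  ∑ l : Fin c, MvPolynomial.X (Sum.inl l) *
    ∏ j ∈ Finset.univ.erase i, (MvPolynomial.X (Sum.inr l) - MvPolynomial.C (j.val : ℚ))

theorem eval_genPoly (n c : ℕ) (s : Fin c ⊕ Fin c → ℚ) (i : Fin n) :
    MvPolynomial.eval s (genPoly n c i) = gen n c s i := by
  simp [genPoly, gen]

theorem isPolyMap_gen (n c : ℕ) : IsPolyMap (gen n c) :=
  ⟨genPoly n c, fun s i => (eval_genPoly n c s i).symm⟩

theorem gen_step1 (n c : ℕ) (s : Fin c ⊕ Fin c → ℚ) (i0 : Fin n) (δ : ℚ) :
    ∃ s', gen n (c + 1) s' = Function.update (gen n c s) i0 δ := by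
  classical
  set D : ℚ := ∏ j ∈ Finset.univ.erase i0, ((i0.val : ℚ) - (j.val : ℚ)) with hD
  have hD0 : D ≠ 0 := by
    rw [hD, Finset.prod_ne_zero_iff]
    intro j hj h0
    rw [sub_eq_zero] at h0
    have : i0.val = j.val := by exact_mod_cast h0
    exact (Finset.ne_of_mem_erase hj) (Fin.ext this.symm)
  refine ⟨Sum.elim (Fin.snoc (fun l => s (Sum.inl l)) ((δ - gen n c s i0) / D))
    (Fin.snoc (fun l => s (Sum.inr l)) (i0.val : ℚ)), ?_⟩
  funext i
  unfold gen
  rw [Fin.sum_univ_castSucc]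
  simp only [Sum.elim_inl, Sum.elim_inr, Fin.snoc_castSucc, Fin.snoc_last]
  by_cases hi : i = i0
  · subst hi
    rw [Function.update_self, ← hD, div_mul_cancel₀ _ hD0]
    exact add_sub_cancel _ _
  · rw [Function.update_of_ne hi]
    have : ∏ j ∈ Finset.univ.erase i, ((i0.val : ℚ) - (j.val : ℚ)) = 0 := by
      apply Finset.prod_eq_zero (i := i0)
      · simp [Ne.symm hi]
      · ring
    rw [this]; ring

/-- the set of generated points -/
def G (n c : ℕ) : Set (Fin n → ℚ) := Set.range (gen n c)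

theorem G_update {n c : ℕ} {g : Fin n → ℚ} (hg : g ∈ G n c) (i0 : Fin n) (δ : ℚ) :
    Function.update g i0 δ ∈ G n (c + 1) := by
  obtain ⟨s, rfl⟩ := hg
  exact gen_step1 n c s i0 δ

theorem G_mono_add {n c : ℕ} (m : ℕ) : G n c ⊆ G n (c + m) := by
  induction m with
  | zero => exact le_refl _
  | succ m ih =>
    intro g hg
    rcases Nat.eq_zero_or_pos n with hn | hn
    · subst hn
      exact ⟨fun _ => 0, funext fun i => i.elim0⟩
    · have := G_update (ih hg) ⟨0, hn⟩ (g ⟨0, hn⟩)
      rwa [Function.update_eq_self] at this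

theorem G_mono {n c c' : ℕ} (h : c ≤ c') : G n c ⊆ G n c' := by
  obtain ⟨m, rfl⟩ := Nat.exists_eq_add_of_le h
  exact G_mono_add m

theorem G_step {n c κ : ℕ} {g : Fin n → ℚ} (hg : g ∈ G n c) (x' : Fin n → ℚ) (S : Finset (Fin n))
    (hS : S.card ≤ κ) (hx : ∀ i, i ∉ S → x' i = g i) : x' ∈ G n (c + κ) := by
  classical
  have hS' : ∀ (S : Finset (Fin n)) (x' : Fin n → ℚ), (∀ i, i ∉ S → x' i = g i) →
      x' ∈ G n (c + S.card) := by
    intro S
    induction S using Finset.induction_on with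
    | empty =>
      intro x' hx
      have : x' = g := funext fun i => hx i (by simp)
      rw [this]; exact hg
    | insert i0 S hi0 ih =>
      intro x' hx
      have h1 := ih (Function.update x' i0 (g i0)) (by
        intro i hi
        by_cases h : i = i0
        · subst h; simp
        · rw [Function.update_of_ne h]
          exact hx i (by simp [h, hi]))
      have h2 := G_update h1 i0 (x' i0)
      rw [Finset.card_insert_of_notMem hi0]
      have h3 : Function.update (Function.update x' i0 (g i0)) i0 (x' i0) = x' := by simp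
      rw [h3] at h2
      exact h2
  exact G_mono (by omega) (hS' S x' hx)

variable {w n : ℕ} (M : ℕ → Matrix (Fin w) (Fin w) (Polynomial ℚ)) (ν : ℕ → Fin n)

theorem G_common (c : ℕ) (J : Finset (ℕ × ℕ)) (r : ℕ × ℕ → ℕ)
    (h : ∀ ab ∈ J, ∃ g ∈ G n c, r ab ≤ (P M ν g ab.1 ab.2).rank) :
    ∃ g ∈ G n c, ∀ ab ∈ J, r ab ≤ (P M ν g ab.1 ab.2).rank := by
  classical
  have h1 : ∀ ab, ∃ (U : Matrix (Fin (r ab)) (Fin w) ℚ) (V : Matrix (Fin w) (Fin (r ab)) ℚ),
      ab ∈ J → ∃ s, (U * P M ν (gen n c s) ab.1 ab.2 * V).det ≠ 0 := by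
    intro ab
    by_cases hab : ab ∈ J
    · obtain ⟨g, ⟨s, rfl⟩, hr⟩ := h ab hab
      obtain ⟨U, V, hUV⟩ := exists_mul_eq_one_of_le_rank _ hr
      exact ⟨U, V, fun _ => ⟨s, by rw [hUV, Matrix.det_one]; exact one_ne_zero⟩⟩
    · exact ⟨0, 0, fun h => absurd h hab⟩
  choose U V hUV using h1
  have h2 : ∀ ab : ℕ × ℕ, ∃ p : MvPolynomial (Fin c ⊕ Fin c) ℚ, ∀ s, MvPolynomial.eval s p =
      (U ab * P M ν (gen n c s) ab.1 ab.2 * V ab).det :=
    fun ab => det_poly M ν (isPolyMap_gen n c) _ _ _ _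
  choose p hp using h2
  obtain ⟨s, hs⟩ := exists_common_poly J p (fun ab hab => by
    obtain ⟨s, hs⟩ := hUV ab hab
    exact ⟨s, by rw [hp]; exact hs⟩)
  refine ⟨gen n c s, ⟨s, rfl⟩, fun ab hab => ?_⟩
  have := hs ab hab
  rw [hp] at this
  exact le_rank_of_det_ne_zero _ _ this

/-- Hitting theorem from the core property. -/
theorem exists_seed (N κ : ℕ) (hcore : CritCore M ν N κ) (u v : Fin w → ℚ)
    (hf : ∃ x, u ⬝ᵥ (P M ν x 0 N *ᵥ v) ≠ 0) :
    ∃ s, u ⬝ᵥ (P M ν (gen n ((w + 1) * κ) s) 0 N *ᵥ v) ≠ 0 := by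
  obtain ⟨g, ⟨s, rfl⟩, hg⟩ := hits M ν N κ κ (crit_of_core M ν N κ hcore) (G n)
    ⟨gen n 0 (fun _ => 0), ⟨_, rfl⟩⟩ (fun c c' h => G_mono h) (G_common M ν) (by
      intro c g hg a b hab hbN R hR U V hnear
      obtain ⟨x', S, hS, hx, hdet⟩ := hnear
      exact ⟨x', G_step hg x' S hS hx, hdet⟩) u v hf
  exact ⟨s, hg⟩

/-- the hitting set -/
def hittingSet (n c D : ℕ) : Finset (Fin n → ℚ) :=
  ((Fintype.piFinset fun _ : Fin c => Finset.range (D + 1)) ×ˢ
    (Fintype.piFinset fun _ : Fin c => Finset.range (n * D + 1))).image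
    fun p i => ∑ l : Fin c, (p.1 l : ℚ) * ∏ j ∈ Finset.univ.erase i, ((p.2 l : ℚ) - (j.val : ℚ))

theorem card_hittingSet (n c D : ℕ) :
    (hittingSet n c D).card ≤ ((D + 1) * (n * D + 1)) ^ c := by
  refine Finset.card_image_le.trans ?_
  rw [Finset.card_product, Fintype.card_piFinset, Fintype.card_piFinset]
  simp [mul_pow]

theorem degreeOf_aeval_le {σ τ : Type*} (g : σ → MvPolynomial τ ℚ) (j : τ) (e : ℕ)
    (hg : ∀ i, (g i).degreeOf j ≤ e) (f : MvPolynomial σ ℚ) :
    (MvPolynomial.aeval g f).degreeOf j ≤ f.totalDegree * e := by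
  classical
  rw [MvPolynomial.aeval_def, MvPolynomial.eval₂_eq]
  refine (MvPolynomial.degreeOf_sum_le _ _ _).trans ?_
  apply Finset.sup_le
  intro m hm
  refine (MvPolynomial.degreeOf_C_mul_le _ _ _).trans ?_
  refine (MvPolynomial.degreeOf_prod_le _ _ _).trans ?_
  calc ∑ i ∈ m.support, (g i ^ m i).degreeOf j ≤ ∑ i ∈ m.support, m i * e := by
        apply Finset.sum_le_sum
        intro i _
        refine (MvPolynomial.degreeOf_pow_le _ _ _).trans ?_
        exact Nat.mul_le_mul_left _ (hg i)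
    _ = (m.sum fun _ a => a) * e := by rw [← Finset.sum_mul]; rfl
    _ ≤ f.totalDegree * e := Nat.mul_le_mul_right _ (MvPolynomial.le_totalDegree hm)

theorem degreeOf_genPoly_inl (n c : ℕ) (i : Fin n) (l : Fin c) :
    (genPoly n c i).degreeOf (Sum.inl l) ≤ 1 := by
  classical
  unfold genPoly
  refine (MvPolynomial.degreeOf_sum_le _ _ _).trans ?_
  apply Finset.sup_le
  intro l' _
  refine (MvPolynomial.degreeOf_mul_le _ _ _).trans ?_
  have h1 : (MvPolynomial.X (Sum.inl l') : MvPolynomial (Fin c ⊕ Fin c) ℚ).degreeOf (Sum.inl l)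
      ≤ 1 := by
    rw [MvPolynomial.degreeOf_X]; split_ifs <;> omega
  have h2 : (∏ j ∈ Finset.univ.erase i, (MvPolynomial.X (Sum.inr l') -
      MvPolynomial.C (j.val : ℚ)) : MvPolynomial (Fin c ⊕ Fin c) ℚ).degreeOf (Sum.inl l) ≤ 0 := by
    refine (MvPolynomial.degreeOf_prod_le _ _ _).trans ?_
    apply le_of_eq
    apply Finset.sum_eq_zero
    intro j _
    apply Nat.le_zero.mp
    refine (MvPolynomial.degreeOf_sub_le _ _ _).trans ?_
    rw [MvPolynomial.degreeOf_X, MvPolynomial.degreeOf_C]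
    simp
  omega

theorem degreeOf_genPoly_inr (n c : ℕ) (i : Fin n) (l : Fin c) :
    (genPoly n c i).degreeOf (Sum.inr l) ≤ n := by
  classical
  unfold genPoly
  refine (MvPolynomial.degreeOf_sum_le _ _ _).trans ?_
  apply Finset.sup_le
  intro l' _
  refine (MvPolynomial.degreeOf_mul_le _ _ _).trans ?_
  have h1 : (MvPolynomial.X (Sum.inl l') : MvPolynomial (Fin c ⊕ Fin c) ℚ).degreeOf (Sum.inr l)
      = 0 := by
    rw [MvPolynomial.degreeOf_X]; simp
  have h2 : (∏ j ∈ Finset.univ.erase i, (MvPolynomial.X (Sum.inr l') -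
      MvPolynomial.C (j.val : ℚ)) : MvPolynomial (Fin c ⊕ Fin c) ℚ).degreeOf (Sum.inr l) ≤ n := by
    refine (MvPolynomial.degreeOf_prod_le _ _ _).trans ?_
    calc _ ≤ ∑ j ∈ (Finset.univ : Finset (Fin n)).erase i, 1 := by
          apply Finset.sum_le_sum
          intro j _
          refine (MvPolynomial.degreeOf_sub_le _ _ _).trans ?_
          rw [MvPolynomial.degreeOf_X, MvPolynomial.degreeOf_C]
          split_ifs <;> simp
      _ = ((Finset.univ : Finset (Fin n)).erase i).card := by simp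
      _ ≤ (Finset.univ : Finset (Fin n)).card := Finset.card_le_card (Finset.erase_subset _ _)
      _ = n := by simp
  omega

theorem hit_grid (f : MvPolynomial (Fin n) ℚ) (D : ℕ) (hD : f.totalDegree ≤ D) (c : ℕ)
    (hs : ∃ s, MvPolynomial.eval (gen n c s) f ≠ 0) :
    ∃ a ∈ hittingSet n c D, MvPolynomial.eval a f ≠ 0 := by
  classical
  by_contra hcon
  push Not at hcon
  set F : MvPolynomial (Fin c ⊕ Fin c) ℚ := MvPolynomial.aeval (genPoly n c) f with hF
  have heval : ∀ s, MvPolynomial.eval s F = MvPolynomial.eval (gen n c s) f := by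
    intro s
    rw [hF, MvPolynomial.aeval_def, ← MvPolynomial.coe_eval₂Hom, ← RingHom.comp_apply]
    congr 1
    apply MvPolynomial.ringHom_ext
    · intro r; simp
    · intro i; simp [eval_genPoly]
  have hF0 : F = 0 := by
    apply MvPolynomial.eq_zero_of_eval_zero_at_prod_finset F
      (Sum.elim (fun _ => (Finset.range (D + 1)).image (fun m : ℕ => (m : ℚ)))
        (fun _ => (Finset.range (n * D + 1)).image (fun m : ℕ => (m : ℚ))))
    · rintro (l | l)
      · simp only [Sum.elim_inl]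
        rw [Finset.card_image_of_injective _ Nat.cast_injective, Finset.card_range]
        have := degreeOf_aeval_le (genPoly n c) (Sum.inl l) 1 (fun i => degreeOf_genPoly_inl n c i l) f
        rw [← hF] at this
        omega
      · simp only [Sum.elim_inr]
        rw [Finset.card_image_of_injective _ Nat.cast_injective, Finset.card_range]
        have := degreeOf_aeval_le (genPoly n c) (Sum.inr l) n (fun i => degreeOf_genPoly_inr n c i l) f
        rw [← hF] at this
        have h2 : f.totalDegree * n ≤ n * D := by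
          rw [mul_comm]; exact Nat.mul_le_mul_left _ hD
        omega
    · intro x hx
      rw [heval]
      apply hcon
      have h1 : ∀ l : Fin c, ∃ m ∈ Finset.range (D + 1), (m : ℚ) = x (Sum.inl l) := by
        intro l
        have := hx (Sum.inl l)
        simpa using this
      have h2 : ∀ l : Fin c, ∃ m ∈ Finset.range (n * D + 1), (m : ℚ) = x (Sum.inr l) := by
        intro l
        have := hx (Sum.inr l)
        simpa using this
      choose z hz1 hz2 using h1
      choose y hy1 hy2 using h2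
      unfold hittingSet
      rw [Finset.mem_image]
      refine ⟨(z, y), ?_, ?_⟩
      · rw [Finset.mem_product, Fintype.mem_piFinset, Fintype.mem_piFinset]
        exact ⟨hz1, hy1⟩
      · funext i
        simp only [gen, hz2, hy2]
  obtain ⟨s, hs⟩ := hs
  apply hs
  rw [← heval, hF0]; simp

end Pool.Agent.Helper5
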