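import Pool.Agent.Helper5.ABPDef
import Pool.Agent.Helper5.Critical1
import Pool.Agent.Helper5.Gen

/-!
The hitting theorem for oblivious programs, from the core property.
-/

namespace Pool.Agent.Helper5

open Module Matrix

variable {w n : ℕ}

/-- extension of the layers to all indices -/
noncomputable def extM {N : ℕ} (M : Fin N → Matrix (Fin w) (Fin w) (Polynomial ℚ)) (l : ℕ) :
    Matrix (Fin w) (Fin w) (Polynomial ℚ) := if h : l < N then M ⟨l, h⟩ else 1

/-- extension of the reading order to all indices -/
def extν {N : ℕ} (hn : 0 < n) (ν : Fin N → Fin n) (l : ℕ) : Fin n :=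
  if h : l < N then ν ⟨l, h⟩ else ⟨0, hn⟩

theorem list_ofFn_eq {α : Type*} {N : ℕ} (F : Fin N → α) (F' : ℕ → α)
    (h : ∀ l : Fin N, F' l = F l) : List.ofFn F = (List.Ico 0 N).map F' := by
  rw [List.Ico.zero_bot]
  apply List.ext_getElem
  · simp
  · intro i h1 h2
    simp only [List.getElem_ofFn, List.getElem_map, List.getElem_range]
    exact (h ⟨i, by simpa using h1⟩).symm

theorem eval_prog {N : ℕ} (hn : 0 < n) (ν : Fin N → Fin n)
    (M : Fin N → Matrix (Fin w) (Fin w) (Polynomial ℚ)) (u v : Fin w → ℚ) (g : Fin n → ℚ) :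
    MvPolynomial.eval g ((fun a => MvPolynomial.C (u a)) ⬝ᵥ
      ((List.ofFn fun l : Fin N => (M l).map fun p : Polynomial ℚ =>
        Polynomial.aeval (MvPolynomial.X (ν l) : MvPolynomial (Fin n) ℚ) p).prod *ᵥ
        fun b => MvPolynomial.C (v b))) =
    u ⬝ᵥ (P (extM M) (extν hn ν) g 0 N *ᵥ v) := by
  have h1 : ((List.ofFn fun l : Fin N => (M l).map fun p : Polynomial ℚ =>
        Polynomial.aeval (MvPolynomial.X (ν l) : MvPolynomial (Fin n) ℚ) p).prod).map
        (MvPolynomial.eval g) = P (extM M) (extν hn ν) g 0 N := by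
    rw [list_ofFn_eq _ (fun l => (extM M l).map fun p : Polynomial ℚ =>
      Polynomial.aeval (MvPolynomial.X (extν hn ν l) : MvPolynomial (Fin n) ℚ) p)
      (fun l => by simp [extM, extν])]
    have := seg_map (MvPolynomial.eval g) (fun l => (extM M l).map fun p : Polynomial ℚ =>
      Polynomial.aeval (MvPolynomial.X (extν hn ν l) : MvPolynomial (Fin n) ℚ) p) 0 N
    rw [seg] at this
    rw [this, P]
    apply seg_congr
    intro l _ _
    unfold ev
    ext i j
    simp only [Matrix.map_apply]
    rw [Polynomial.aeval_def, Polynomial.hom_eval₂]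
    have : (MvPolynomial.eval g).comp (algebraMap ℚ (MvPolynomial (Fin n) ℚ)) = RingHom.id ℚ := by
      ext x; simp
    rw [this, Polynomial.eval₂_id, MvPolynomial.eval_X]
  rw [← h1]
  simp only [dotProduct, Matrix.mulVec, map_sum, map_mul, MvPolynomial.eval_C, Matrix.map_apply]

theorem totalDegree_list_prod_entries (L : List (Matrix (Fin w) (Fin w) (MvPolynomial (Fin n) ℚ)))
    (d : ℕ) (h : ∀ A ∈ L, ∀ i j, (A i j).totalDegree ≤ d) :
    ∀ i j, (L.prod i j).totalDegree ≤ L.length * d := by
  induction L with
  | nil =>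
    intro i j
    simp only [List.prod_nil, List.length_nil, zero_mul, Nat.le_zero, Matrix.one_apply]
    split_ifs <;> simp
  | cons A L ih =>
    intro i j
    rw [List.prod_cons, Matrix.mul_apply]
    apply MvPolynomial.totalDegree_finsetSum_le
    intro m _
    refine (MvPolynomial.totalDegree_mul _ _).trans ?_
    have h1 := h A (by simp) i m
    have h2 := ih (fun B hB => h B (by simp [hB])) m j
    simp only [List.length_cons]
    have : (L.length + 1) * d = d + L.length * d := by ring
    omega

theorem totalDegree_aeval_X_le (p : Polynomial ℚ) (i : Fin n) :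
    (Polynomial.aeval (MvPolynomial.X i : MvPolynomial (Fin n) ℚ) p).totalDegree ≤ p.natDegree := by
  rw [Polynomial.aeval_eq_sum_range]
  apply MvPolynomial.totalDegree_finsetSum_le
  intro m hm
  refine (MvPolynomial.totalDegree_smul_le _ _).trans ?_
  refine (MvPolynomial.totalDegree_pow _ _).trans ?_
  rw [MvPolynomial.totalDegree_X]
  rw [Finset.mem_range] at hm
  omega

theorem totalDegree_prog {N d : ℕ} (ν : Fin N → Fin n)
    (M : Fin N → Matrix (Fin w) (Fin w) (Polynomial ℚ)) (u v : Fin w → ℚ)
    (hd : ∀ l a b, (M l a b).natDegree ≤ d) :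
    ((fun a => MvPolynomial.C (u a)) ⬝ᵥ
      ((List.ofFn fun l : Fin N => (M l).map fun p : Polynomial ℚ =>
        Polynomial.aeval (MvPolynomial.X (ν l) : MvPolynomial (Fin n) ℚ) p).prod *ᵥ
        fun b => MvPolynomial.C (v b))).totalDegree ≤ N * d := by
  have h1 := totalDegree_list_prod_entries (List.ofFn fun l : Fin N => (M l).map
    fun p : Polynomial ℚ => Polynomial.aeval (MvPolynomial.X (ν l) : MvPolynomial (Fin n) ℚ) p) d
    (by
      intro A hA i j
      rw [List.mem_ofFn] at hA
      obtain ⟨l, rfl⟩ := hA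
      rw [Matrix.map_apply]
      exact (totalDegree_aeval_X_le _ _).trans (hd l i j))
  rw [List.length_ofFn] at h1
  unfold dotProduct
  apply MvPolynomial.totalDegree_finsetSum_le
  intro a _
  refine (MvPolynomial.totalDegree_mul _ _).trans ?_
  rw [MvPolynomial.totalDegree_C, zero_add, Matrix.mulVec, dotProduct]
  apply MvPolynomial.totalDegree_finsetSum_le
  intro b _
  refine (MvPolynomial.totalDegree_mul _ _).trans ?_
  rw [MvPolynomial.totalDegree_C, add_zero]
  exact h1 a b

theorem card_points (n c D : ℕ) :
    (ABP.points n c D).card ≤ ((D + 1) * (n * D + 1)) ^ c := card_hittingSet n c D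

/-- Hitting theorem, from the core property, for all programs with given parameters. -/
theorem hit_of_core (w k d n κ : ℕ)
    (hcore : ∀ (M : ℕ → Matrix (Fin w) (Fin w) (Polynomial ℚ)) (ν : ℕ → Fin n) (N : ℕ),
      (∀ i : Fin n, ((Finset.range N).filter fun l => ν l = i).card ≤ k) → CritCore M ν N κ)
    (f : MvPolynomial (Fin n) ℚ) (hf : ABP.Computes w k d n f) (hf0 : f ≠ 0) :
    ∃ a ∈ ABP.points n ((w + 1) * κ) (k * n * d), MvPolynomial.eval a f ≠ 0 := by
  classical
  obtain ⟨N, ν, M, u, v, hk, hd, rfl⟩ := hf
  rcases Nat.eq_zero_or_pos n with hn | hn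
  · subst hn
    -- no variables
    have hne : (ABP.points 0 ((w + 1) * κ) (k * 0 * d)).Nonempty := by
      unfold ABP.points
      rw [Finset.image_nonempty]
      refine Finset.Nonempty.product ?_ ?_
      · exact ⟨fun _ => 0, by rw [Fintype.mem_piFinset]; intro; simp⟩
      · exact ⟨fun _ => 0, by rw [Fintype.mem_piFinset]; intro; simp⟩
    obtain ⟨a, ha⟩ := hne
    refine ⟨a, ha, fun h0 => hf0 ?_⟩
    apply MvPolynomial.funext
    intro x
    have : x = a := Subsingleton.elim _ _
    rw [this, h0]; simp
  · have hNk : N ≤ k * n := by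
      have h1 : (Finset.univ : Finset (Fin N)).card =
          ∑ i : Fin n, (Finset.univ.filter fun l : Fin N => ν l = i).card :=
        Finset.card_eq_sum_card_fiberwise (fun l _ => Finset.mem_univ _)
      rw [Finset.card_univ, Fintype.card_fin] at h1
      rw [h1]
      calc _ ≤ ∑ _i : Fin n, k := Finset.sum_le_sum fun i _ => hk i
        _ = k * n := by simp [mul_comm]
    apply hit_grid _ (k * n * d)
    · exact (totalDegree_prog ν M u v hd).trans (Nat.mul_le_mul_right _ hNk)
    · have hcore' := hcore (extM M) (extν hn ν) N (by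
        intro i
        refine le_trans ?_ (hk i)
        have : ((Finset.range N).filter fun l => extν hn ν l = i) =
            ((Finset.univ.filter fun l : Fin N => ν l = i).map Fin.valEmbedding) := by
          ext l
          simp only [Finset.mem_filter, Finset.mem_range, Finset.mem_map, Finset.mem_univ,
            true_and, Fin.valEmbedding_apply]
          constructor
          · rintro ⟨h1, h2⟩
            refine ⟨⟨l, h1⟩, ?_, rfl⟩
            simpa [extν, h1] using h2
          · rintro ⟨l', h1, rfl⟩
            refine ⟨l'.2, ?_⟩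
            simpa [extν] using h1
        rw [this, Finset.card_map])
      obtain ⟨s, hs⟩ := exists_seed (extM M) (extν hn ν) N κ hcore' u v (by
        by_contra hcon
        push Not at hcon
        apply hf0
        apply MvPolynomial.funext
        intro x
        rw [eval_prog hn ν M u v x, hcon x]; simp)
      exact ⟨s, by rw [eval_prog hn ν M u v]; exact hs⟩

/-- Constant-width read-once oblivious programs in unknown order. -/
theorem hit_readonce (w d n : ℕ) (f : MvPolynomial (Fin n) ℚ) (hf : ABP.Computes w 1 d n f)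
    (hf0 : f ≠ 0) :
    ∃ a ∈ ABP.points n ((w + 1) * ((2 * w ^ w + 1) ^ (w + 1) + 1)) (n * d),
      MvPolynomial.eval a f ≠ 0 := by
  have := hit_of_core w 1 d n ((2 * w ^ w + 1) ^ (w + 1) + 1) (by
    intro M ν N hk
    apply critCore_one
    intro l l' hl hl' he
    have h1 := hk (ν l)
    rw [Finset.card_le_one] at h1
    exact h1 l (by simp [hl]) l' (by simp [hl', he])) f hf hf0
  simpa using this

end Pool.Agent.Helper5
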