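import Pool.Agent.Helper5.GorPts

set_option autoImplicit false
set_option linter.unusedSectionVars false

/-!
Points of a finite abelian group: Hilbert function and socle of every Artinian reduction by a linear
form which does not vanish at any of the points.
-/

namespace Pool.Agent.Helper5.GorPts

open MvPolynomial

noncomputable section

variable {G : Type} [AddCommGroup G] [Fintype G] [DecidableEq G] {ι : Type} [Fintype ι]
  [DecidableEq ι] {a : ι → G} {L : G → ℕ}

/-- function on the characters with given Fourier coefficients -/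
def Tr (G : Type) [AddCommGroup G] [Fintype G] : (G → ℂ) →ₗ[ℂ] (AddChar G ℂ → ℂ) where
  toFun F := fun χ => ∑ g, F g * χ g
  map_add' F F' := by
    ext χ
    simp only [Pi.add_apply, add_mul, Finset.sum_add_distrib]
  map_smul' c F := by
    ext χ
    simp only [Pi.smul_apply, smul_eq_mul, RingHom.id_apply, Finset.mul_sum, mul_assoc]

theorem Tr_apply (F : G → ℂ) (χ : AddChar G ℂ) : Tr G F χ = ∑ g, F g * χ g := rfl

theorem Tr_inj : Function.Injective (Tr G) := by
  rw [← LinearMap.ker_eq_bot, LinearMap.ker_eq_bot']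
  intro F hF
  exact eq_zero_of_sum_char F fun χ => congrFun hF χ

theorem Tr_surj : Function.Surjective (Tr G) := by
  have h : Module.finrank ℂ (G → ℂ) = Module.finrank ℂ (AddChar G ℂ → ℂ) := by
    rw [Module.finrank_fintype_fun_eq_card, Module.finrank_fintype_fun_eq_card, AddChar.card_eq]
  exact (LinearMap.injective_iff_surjective_of_finrank_eq_finrank h).1 Tr_inj

/-- the values of the part of degree `d` -/
theorem coeff_Ev' (χ : AddChar G ℂ) (f : MvPolynomial ι ℂ) (d : ℕ) :
    (Ev a χ f).coeff d = Tr G (Th a d f) χ := coeff_Ev a χ f d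

theorem Th_hom {f : MvPolynomial ι ℂ} {k : ℕ} (hf : f.IsHomogeneous k) {d : ℕ} (h : d ≠ k) :
    Th a d f = 0 := by
  rw [← MvPolynomial.support_sum_monomial_coeff f, map_sum]
  refine Finset.sum_eq_zero fun m hm => ?_
  rw [Th_monomial, if_neg]
  intro h1
  apply h
  rw [MvPolynomial.mem_support_iff] at hm
  have h4 := hf hm
  rw [← h4, ← h1, Finsupp.degree_eq_weight_one]
  rfl

theorem Th_comp (f : MvPolynomial ι ℂ) (d : ℕ) :
    Th a d (homogeneousComponent d f) = Th a d f := by
  conv_rhs => rw [← sum_homogeneousComponent f, map_sum]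
  by_cases hd : d ∈ Finset.range (f.totalDegree + 1)
  · rw [Finset.sum_eq_single d]
    · intro b _ hb
      exact Th_hom (homogeneousComponent_isHomogeneous b f) (Ne.symm hb)
    · intro h
      exact absurd hd h
  · rw [Finset.mem_range, not_lt] at hd
    rw [homogeneousComponent_eq_zero d f (by omega), map_zero]
    symm
    refine Finset.sum_eq_zero fun b hb => ?_
    rw [Finset.mem_range] at hb
    exact Th_hom (homogeneousComponent_isHomogeneous b f) (by omega)

theorem Ev_hom {f : MvPolynomial ι ℂ} {k : ℕ} (hf : f.IsHomogeneous k) (χ : AddChar G ℂ) :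
    Ev a χ f = Polynomial.C (Tr G (Th a k f) χ) * Polynomial.X ^ k := by
  ext d
  rw [coeff_Ev', Polynomial.coeff_C_mul, Polynomial.coeff_X_pow]
  by_cases h : d = k
  · rw [if_pos h, h, mul_one]
  · rw [if_neg h, Th_hom hf h, map_zero, mul_zero]
    rfl

theorem eval_hom {f : MvPolynomial ι ℂ} {k : ℕ} (hf : f.IsHomogeneous k) (χ : AddChar G ℂ)
    (t : ℂ) : eval (t • fun i => χ (a i)) f = t ^ k * Tr G (Th a k f) χ := by
  rw [← eval_Ev, Ev_hom hf, Polynomial.eval_mul, Polynomial.eval_C, Polynomial.eval_pow,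
    Polynomial.eval_X, mul_comm]

theorem eval_one' {f : MvPolynomial ι ℂ} {k : ℕ} (hf : f.IsHomogeneous k) (χ : AddChar G ℂ) :
    eval (fun i => χ (a i)) f = Tr G (Th a k f) χ := by
  have h := eval_hom (a := a) hf χ 1
  rw [one_smul, one_pow, one_mul] at h
  exact h

theorem Th_supp (h : Len a L) (d : ℕ) (f : MvPolynomial ι ℂ) (g : G) (hg : d < L g) :
    Th a d f g = 0 := by
  rw [← MvPolynomial.support_sum_monomial_coeff f, map_sum, Finset.sum_apply]
  refine Finset.sum_eq_zero fun m _ => ?_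
  rw [Th_monomial]
  split_ifs with h1
  · rw [Pi.single_eq_of_ne]
    rintro rfl
    have := h.le_deg m
    omega
  · rfl

theorem Th_exists (h : Len a L) {j0 : ι} (hj : a j0 = 0) (d : ℕ) (F : G → ℂ)
    (hF : ∀ g, d < L g → F g = 0) :
    ∃ b : MvPolynomial ι ℂ, b.IsHomogeneous d ∧ Th a d b = F := by
  refine ⟨∑ g, monomial (mon h g + Finsupp.single j0 (d - L g)) (F g), ?_, ?_⟩
  · refine IsHomogeneous.sum _ _ _ fun g _ => ?_
    by_cases hg : d < L g
    · rw [hF g hg, monomial_zero]
      exact isHomogeneous_zero _ _ _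
    · apply isHomogeneous_monomial
      rw [map_add, Finsupp.degree_single, deg_mon]
      omega
  · rw [map_sum]
    ext g0
    rw [Finset.sum_apply, Finset.sum_eq_single g0]
    · rw [Th_monomial, map_add, map_add, Finsupp.degree_single, deg_mon, sg_single, hj, smul_zero,
        add_zero, sg_mon]
      by_cases hg : d < L g0
      · rw [hF g0 hg]
        split_ifs <;> simp
      · rw [if_pos (by omega)]
        simp
    · intro g _ hg
      rw [Th_monomial, map_add, map_add, sg_single, hj, smul_zero, add_zero, sg_mon]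
      split_ifs
      · rw [Pi.single_eq_of_ne (Ne.symm hg)]
      · rfl
    · simp

/-- the homogeneous ideal of the points -/
structure IsI (a : ι → G) (I : Ideal (MvPolynomial ι ℂ)) : Prop where
  mem_of : ∀ (f : MvPolynomial ι ℂ) (d : ℕ), f.IsHomogeneous d → Th a d f = 0 → f ∈ I
  of_mem : ∀ f ∈ I, ∀ d, Th a d f = 0

theorem isI_span (a : ι → G) :
    IsI a (Ideal.span {f : MvPolynomial ι ℂ | (∃ d, f.IsHomogeneous d) ∧
      ∀ χ : AddChar G ℂ, eval (fun i => χ (a i)) f = 0}) where
  mem_of f d hf hT := by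
    refine Ideal.subset_span ⟨⟨d, hf⟩, fun χ => ?_⟩
    rw [eval_one' hf, hT, map_zero]
    rfl
  of_mem f hf := by
    rw [← mem_ideal_iff]
    intro χ t
    have h1 : Ideal.span {f : MvPolynomial ι ℂ | (∃ d, f.IsHomogeneous d) ∧
      ∀ χ : AddChar G ℂ, eval (fun i => χ (a i)) f = 0} ≤
        RingHom.ker (eval (t • fun i => χ (a i)) : MvPolynomial ι ℂ →+* ℂ) := by
      rw [Ideal.span_le]
      rintro f ⟨⟨d, hd⟩, h⟩
      show eval (t • fun i => χ (a i)) f = 0
      have h2 := h χ
      rw [eval_one' hd] at h2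
      rw [eval_hom hd, h2, mul_zero]
    exact h1 hf

theorem finrank_supp (L : G → ℕ) (i : ℕ) (U : Submodule ℂ (G → ℂ))
    (hU : ∀ F, F ∈ U ↔ ∀ g, i < L g → F g = 0) :
    Module.finrank ℂ U = (Finset.univ.filter fun g => L g ≤ i).card := by
  have h0 : U = Submodule.span ℂ
      (Set.range fun g : {g // L g ≤ i} => (Pi.single (g : G) (1 : ℂ) : G → ℂ)) := by
    apply le_antisymm
    · intro F hF
      rw [hU] at hF
      have h1 : F = ∑ g, F g • (Pi.single g (1 : ℂ) : G → ℂ) := by
        ext g0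
        rw [Finset.sum_apply, Finset.sum_eq_single g0]
        · simp
        · intro b _ hb
          rw [Pi.smul_apply, Pi.single_eq_of_ne (Ne.symm hb), smul_zero]
        · simp
      rw [h1]
      refine Submodule.sum_mem _ fun g _ => ?_
      by_cases hg : i < L g
      · rw [hF g hg, zero_smul]
        exact Submodule.zero_mem _
      · exact Submodule.smul_mem _ _ (Submodule.subset_span ⟨⟨g, by omega⟩, rfl⟩)
    · rw [Submodule.span_le]
      rintro _ ⟨⟨g, hg⟩, rfl⟩
      show Pi.single g (1 : ℂ) ∈ U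
      rw [hU]
      intro g' hg'
      rw [Pi.single_eq_of_ne]
      rintro rfl
      omega
  rw [h0, finrank_span_eq_card]
  · rw [Fintype.card_subtype]
  · have h1 := (Pi.basisFun ℂ G).linearIndependent
    have h2 := h1.comp (fun g : {g // L g ≤ i} => (g : G)) Subtype.val_injective
    have h3 : (fun g : {g // L g ≤ i} => (Pi.single (g : G) (1 : ℂ) : G → ℂ)) =
        ⇑(Pi.basisFun ℂ G) ∘ fun g : {g // L g ≤ i} => (g : G) := by
      funext g
      rw [Function.comp_apply, Pi.basisFun_apply]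
    rw [h3]
    exact h2

/-- the Hilbert function of the points -/
theorem hilb_eq (h : Len a L) {j0 : ι} (hj : a j0 = 0) {I : Ideal (MvPolynomial ι ℂ)}
    (hI : IsI a I) (i : ℕ) :
    Module.finrank ℂ ((homogeneousSubmodule ι ℂ i).map (Ideal.Quotient.mkₐ ℂ I).toLinearMap) =
      (Finset.univ.filter fun g => L g ≤ i).card := by
  obtain ⟨H, hH⟩ : ∃ H, H = homogeneousSubmodule ι ℂ i := ⟨_, rfl⟩
  rw [← hH]
  have hr1 : H.map (Ideal.Quotient.mkₐ ℂ I).toLinearMap =
      LinearMap.range ((Ideal.Quotient.mkₐ ℂ I).toLinearMap.domRestrict H) := by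
    rw [LinearMap.range_domRestrict]
  have hk : LinearMap.ker ((Ideal.Quotient.mkₐ ℂ I).toLinearMap.domRestrict H) =
      LinearMap.ker ((Th a i).domRestrict H) := by
    ext ⟨f, hf⟩
    rw [LinearMap.mem_ker, LinearMap.mem_ker, LinearMap.domRestrict_apply,
      LinearMap.domRestrict_apply]
    show Ideal.Quotient.mk I f = 0 ↔ Th a i f = 0
    rw [Ideal.Quotient.eq_zero_iff_mem]
    rw [hH, mem_homogeneousSubmodule] at hf
    exact ⟨fun h1 => hI.of_mem f h1 i, fun h1 => hI.mem_of f i hf h1⟩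
  have e1 := LinearMap.quotKerEquivRange ((Ideal.Quotient.mkₐ ℂ I).toLinearMap.domRestrict H)
  have e2 := LinearMap.quotKerEquivRange ((Th a i).domRestrict H)
  rw [hr1, ← LinearEquiv.finrank_eq e1, hk, LinearEquiv.finrank_eq e2]
  apply finrank_supp
  intro F
  constructor
  · rintro ⟨⟨f, hf⟩, rfl⟩ g hg
    rw [LinearMap.domRestrict_apply]
    exact Th_supp h i f g hg
  · intro hF
    obtain ⟨b, hb, hb'⟩ := Th_exists h hj i F hF
    exact ⟨⟨b, by rw [hH, mem_homogeneousSubmodule]; exact hb⟩, by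
      rw [LinearMap.domRestrict_apply]; exact hb'⟩

/-- multiplication by a coordinate shifts the Fourier coefficients -/
theorem Tr_shift (F F' : G → ℂ) (i : ι)
    (h : ∀ χ, Tr G F' χ = χ (a i) * Tr G F χ) (g : G) : F' (g + a i) = F g := by
  have h1 : Tr G (fun g => F' (g + a i)) = Tr G F := by
    ext χ
    have h2 := h χ
    rw [Tr_apply, ← Equiv.sum_comp (Equiv.addRight (a i)) fun g => F' g * χ g] at h2
    simp only [Equiv.coe_addRight, AddChar.map_add_eq_mul] at h2
    have h3 : χ (a i) ≠ 0 := (χ.val_isUnit (a i)).ne_zero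
    apply mul_left_cancel₀ h3
    rw [← h2, Tr_apply, Finset.mul_sum]
    exact Finset.sum_congr rfl fun g _ => by ring
  exact congrFun (Tr_inj h1) g

/-- a linear form without zeros on the points -/
structure Lin (a : ι → G) (l : MvPolynomial ι ℂ) : Prop where
  hom : l.IsHomogeneous 1
  ne : ∀ χ : AddChar G ℂ, Tr G (Th a 1 l) χ ≠ 0

/-- quotient of the part of degree `d` by the linear form -/
theorem exists_q (l : MvPolynomial ι ℂ) (d : ℕ) (f : MvPolynomial ι ℂ) : ∃ F : G → ℂ,
    ∀ χ : AddChar G ℂ, Tr G F χ = Tr G (Th a d f) χ / Tr G (Th a 1 l) χ := by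
  obtain ⟨F, hF⟩ := Tr_surj (G := G) fun χ => Tr G (Th a d f) χ / Tr G (Th a 1 l) χ
  exact ⟨F, fun χ => congrFun hF χ⟩

/-- Fourier coefficients of the quotient -/
def q (a : ι → G) (l : MvPolynomial ι ℂ) (d : ℕ) (f : MvPolynomial ι ℂ) : G → ℂ :=
  (exists_q (a := a) l d f).choose

theorem q_spec (l : MvPolynomial ι ℂ) (d : ℕ) (f : MvPolynomial ι ℂ) (χ : AddChar G ℂ) :
    Tr G (q a l d f) χ = Tr G (Th a d f) χ / Tr G (Th a 1 l) χ :=
  (exists_q (a := a) l d f).choose_spec χ

theorem q_unique {l : MvPolynomial ι ℂ} (hl : Lin a l) {d : ℕ} {f : MvPolynomial ι ℂ}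
    {F : G → ℂ} (h : ∀ χ, Tr G (Th a d f) χ = Tr G (Th a 1 l) χ * Tr G F χ) : q a l d f = F := by
  apply Tr_inj
  ext χ
  rw [q_spec, h, mul_div_cancel_left₀ _ (hl.ne χ)]

theorem q_add (l : MvPolynomial ι ℂ) (d : ℕ) (f f' : MvPolynomial ι ℂ) :
    q a l d (f + f') = q a l d f + q a l d f' := by
  apply Tr_inj
  ext χ
  rw [map_add, Pi.add_apply, q_spec, q_spec, q_spec, map_add, map_add, Pi.add_apply, add_div]

theorem q_zero {l : MvPolynomial ι ℂ} {d : ℕ} {f : MvPolynomial ι ℂ} (h : Th a d f = 0) :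
    q a l d f = 0 := by
  apply Tr_inj
  ext χ
  rw [map_zero, q_spec, h, map_zero]
  simp

theorem Th_mul_hom {l : MvPolynomial ι ℂ} {k : ℕ} (hl : l.IsHomogeneous k) (d : ℕ)
    (w : MvPolynomial ι ℂ) (χ : AddChar G ℂ) :
    Tr G (Th a (d + k) (l * w)) χ = Tr G (Th a k l) χ * Tr G (Th a d w) χ := by
  rw [← coeff_Ev', map_mul, Ev_hom hl, mul_assoc, Polynomial.coeff_C_mul, mul_comm (_ ^ k),
    Polynomial.coeff_mul_X_pow, coeff_Ev']

theorem Th_zero_mul {l : MvPolynomial ι ℂ} (hl : l.IsHomogeneous 1)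
    (w : MvPolynomial ι ℂ) : Th a 0 (l * w) = 0 := by
  apply Tr_inj
  ext χ
  rw [← coeff_Ev', map_mul, Ev_hom hl, pow_one, mul_assoc, Polynomial.coeff_C_mul,
    mul_comm Polynomial.X, Polynomial.coeff_mul_X_zero, mul_zero, map_zero]
  rfl

/-- membership in the ideal of the Artinian reduction -/
theorem mem_red (h : Len a L) {j0 : ι} (hj : a j0 = 0) {I : Ideal (MvPolynomial ι ℂ)}
    (hI : IsI a I) {l : MvPolynomial ι ℂ} (hl : Lin a l) (f : MvPolynomial ι ℂ) :
    f ∈ I ⊔ Ideal.span {l} ↔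
      Th a 0 f = 0 ∧ ∀ d g, d < L g → q a l (d + 1) f g = 0 := by
  constructor
  · intro hf
    rw [Submodule.mem_sup] at hf
    obtain ⟨u, hu, v, hv, rfl⟩ := hf
    rw [Ideal.mem_span_singleton] at hv
    obtain ⟨w, rfl⟩ := hv
    refine ⟨?_, fun d g hg => ?_⟩
    · rw [map_add, hI.of_mem u hu, Th_zero_mul hl.hom, add_zero]
    · rw [q_add, q_zero (hI.of_mem u hu _), zero_add,
        q_unique hl (F := Th a d w) fun χ => Th_mul_hom hl.hom d w χ]
      exact Th_supp h d w g hg
  · rintro ⟨h0, h1⟩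
    rw [← sum_homogeneousComponent f]
    refine Ideal.sum_mem _ fun d _ => ?_
    rcases d with _ | d
    · refine Ideal.mem_sup_left (hI.mem_of _ 0 (homogeneousComponent_isHomogeneous 0 f) ?_)
      rw [Th_comp, h0]
    · obtain ⟨b, hb, hb'⟩ := Th_exists h hj d (q a l (d + 1) f) fun g hg => h1 d g hg
      have h2 : homogeneousComponent (d + 1) f =
          (homogeneousComponent (d + 1) f - l * b) + l * b := by ring
      rw [h2]
      refine Ideal.add_mem _ (Ideal.mem_sup_left ?_)
        (Ideal.mem_sup_right (Ideal.mul_mem_right _ _ (Ideal.subset_span rfl)))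
      refine hI.mem_of _ (d + 1) ?_ ?_
      · refine (homogeneousComponent_isHomogeneous (d + 1) f).sub ?_
        rw [add_comm d 1]
        exact hl.hom.mul hb
      · apply Tr_inj
        ext χ
        rw [map_sub, map_sub, Pi.sub_apply, Th_comp, Th_mul_hom hl.hom d b χ, hb', q_spec,
          mul_div_cancel₀ _ (hl.ne χ), sub_self, map_zero]
        rfl

theorem q_X_mul {l : MvPolynomial ι ℂ} (d : ℕ) (f : MvPolynomial ι ℂ) (i : ι)
    (g : G) : q a l (d + 1) (X i * f) (g + a i) = q a l d f g := by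
  refine Tr_shift (a := a) _ _ i (fun χ => ?_) g
  rw [q_spec, q_spec, Th_mul_hom (isHomogeneous_X ℂ i) d f χ, ← eval_one' (isHomogeneous_X ℂ i) χ,
    eval_X, mul_div_assoc]

/-- The socle of every Artinian reduction is one-dimensional. -/
theorem socle_all (h : Len a L) {j0 : ι} (hj : a j0 = 0) {I : Ideal (MvPolynomial ι ℂ)}
    (hI : IsI a I) {l : MvPolynomial ι ℂ} (hl : Lin a l) (e : G) (hLe : L e ≠ 0)
    (hmax : ∀ g, g ≠ e → L g < L e) (hup : ∀ g, g ≠ e → ∃ i, L (g + a i) = L g + 1) :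
    ∃ p : MvPolynomial ι ℂ, p ∉ I ⊔ Ideal.span {l} ∧ (∀ j, X j * p ∈ I ⊔ Ideal.span {l}) ∧
      ∀ f : MvPolynomial ι ℂ, (∀ j, X j * f ∈ I ⊔ Ideal.span {l}) →
        ∃ c : ℂ, f - C c * p ∈ I ⊔ Ideal.span {l} := by
  have hle : ∀ g, L g ≤ L e := fun g => by
    by_cases hg : g = e
    · rw [hg]
    · exact (hmax g hg).le
  obtain ⟨E, hE⟩ : ∃ E : G → ℂ, E = Pi.single e 1 := ⟨_, rfl⟩
  obtain ⟨F, hF⟩ := Tr_surj (G := G) fun χ => Tr G (Th a 1 l) χ * Tr G E χ
  obtain ⟨p, hp, hp'⟩ := Th_exists h hj (L e) F fun g hg => absurd (hle g) (by omega)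
  have hqp : q a l (L e) p = E := q_unique hl fun χ => by rw [hp', hF]
  have hq0 : ∀ d, d ≠ L e → q a l d p = 0 := fun d hd => q_zero (Th_hom hp hd)
  refine ⟨p, ?_, ?_, ?_⟩
  · rw [mem_red h hj hI hl]
    rintro ⟨-, h2⟩
    have h3 := h2 (L e - 1) e (by omega)
    rw [show L e - 1 + 1 = L e by omega, hqp, hE] at h3
    simp at h3
  · intro j
    rw [mem_red h hj hI hl]
    refine ⟨Th_zero_mul (isHomogeneous_X ℂ j) p, fun d g hg => ?_⟩
    have h1 : d < L e := lt_of_lt_of_le hg (hle g)
    have h2 := q_X_mul (a := a) (l := l) d p j (g - a j)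
    rw [sub_add_cancel, hq0 d (by omega)] at h2
    exact h2
  · intro f hf
    have hq : ∀ d g, d ≤ L g → ¬ (g = e ∧ d = L e) → q a l d f g = 0 := by
      intro d g hg hne
      by_cases he : g = e
      · have hd : d < L e := by
          rw [he] at hg
          have h3 : d ≠ L e := fun h4 => hne ⟨he, h4⟩
          omega
        have h1 := ((mem_red h hj hI hl _).1 (hf j0)).2 d g (by rw [he]; exact hd)
        have h2 := q_X_mul (a := a) (l := l) d f j0 g
        rw [hj, add_zero] at h2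
        rw [← h2, h1]
      · obtain ⟨i, hi⟩ := hup g he
        have h1 := ((mem_red h hj hI hl _).1 (hf i)).2 d (g + a i) (by omega)
        rw [← q_X_mul (a := a) (l := l) d f i g, h1]
    refine ⟨q a l (L e) f e, ?_⟩
    rw [mem_red h hj hI hl]
    have hsub : f - C (q a l (L e) f e) * p = f + C (-q a l (L e) f e) * p := by
      rw [C_neg]; ring
    have hC : ∀ d, q a l d (C (-q a l (L e) f e) * p) = (-q a l (L e) f e) • q a l d p := by
      intro d
      apply Tr_inj
      ext χ
      rw [map_smul, Pi.smul_apply, q_spec, q_spec, ← smul_eq_C_mul, map_smul, map_smul,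
        Pi.smul_apply, smul_eq_mul, smul_eq_mul, mul_div_assoc]
    constructor
    · -- degree zero
      have h1 : q a l 0 f = 0 := by
        ext g
        exact hq 0 g (Nat.zero_le _) fun h2 => hLe h2.2.symm
      have h2 : Th a 0 f = 0 := by
        apply Tr_inj
        ext χ
        have h3 := q_spec (a := a) l 0 f χ
        rw [h1, map_zero] at h3
        have h4 := hl.ne χ
        have h5 : Tr G (Th a 0 f) χ = 0 := by
          have := (div_eq_zero_iff.1 h3.symm).resolve_right h4
          exact this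
        rw [h5, map_zero]
        rfl
      rw [hsub, map_add, h2, zero_add, ← smul_eq_C_mul, map_smul, Th_hom hp (Ne.symm hLe),
        smul_zero]
    · intro d g hg
      rw [hsub, q_add, hC, Pi.add_apply, Pi.smul_apply, smul_eq_mul]
      by_cases hc : g = e ∧ d + 1 = L e
      · rw [hc.1, hc.2, hqp, hE, Pi.single_eq_same, mul_one, add_neg_cancel]
      · rw [hq (d + 1) g hg hc, zero_add]
        by_cases hd : d + 1 = L e
        · rw [hd, hqp, hE, Pi.single_eq_of_ne (fun h3 => hc ⟨h3, hd⟩), mul_zero]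
        · rw [hq0 _ hd, Pi.zero_apply, mul_zero]

end

end Pool.Agent.Helper5.GorPts
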