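import Pool.Agent.Helper5.GorPts

set_option autoImplicit false

/-!
The group `(ℤ/2)^10 × ℤ/5` with the generators `(y, 0)`, `wt y ≤ 1`, and `(y, 1)`, `wt y ≤ 5`.
-/

namespace Pool.Agent.Helper5.GorPts

abbrev V : Type := Fin 10 → ZMod 2

abbrev Gr : Type := V × ZMod 5

/-- number of nonzero coordinates -/
def wt (x : V) : ℕ := (Finset.univ.filter fun i => x i ≠ 0).card

theorem wt_le (x : V) : wt x ≤ 10 := by
  unfold wt
  exact (Finset.card_le_univ _).trans (by simp)

theorem wt_zero : wt 0 = 0 := by simp [wt]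

theorem wt_eq_zero {x : V} (h : wt x = 0) : x = 0 := by
  unfold wt at h
  rw [Finset.card_eq_zero, Finset.filter_eq_empty_iff] at h
  ext i
  have := h (Finset.mem_univ i)
  simpa using this

theorem wt_add (x y : V) : wt (x + y) ≤ wt x + wt y := by
  unfold wt
  refine le_trans (Finset.card_le_card ?_) (Finset.card_union_le _ _)
  intro i hi
  simp only [Finset.mem_filter, Finset.mem_univ, true_and, Finset.mem_union, Pi.add_apply] at hi ⊢
  by_contra hc
  push Not at hc
  rw [hc.1, hc.2] at hi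
  simp at hi

theorem two_cases (z : ZMod 2) : z = 0 ∨ z = 1 := by
  revert z; decide

theorem wt_single_add (x : V) (i : Fin 10) (hi : x i = 0) :
    wt (x + Pi.single i 1) = wt x + 1 := by
  unfold wt
  rw [← Finset.card_insert_of_notMem (s := Finset.univ.filter fun i => x i ≠ 0) (a := i)]
  · congr 1
    ext j
    simp only [Finset.mem_filter, Finset.mem_univ, true_and, Pi.add_apply, Finset.mem_insert]
    by_cases hj : j = i
    · subst hj; simp [hi]
    · simp [hj]
  · simp [hi]

theorem add_self' (x : V) : x + x = 0 := by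
  ext i
  rcases two_cases (x i) with h | h <;> simp [h] <;> decide

theorem wt_single (i : Fin 10) : wt (Pi.single i 1) = 1 := by
  have := wt_single_add 0 i rfl
  rw [zero_add, wt_zero] at this
  exact this

theorem exists_add (x : V) (h : wt x < 10) : ∃ i : Fin 10, wt (x + Pi.single i 1) = wt x + 1 := by
  by_contra hc
  have h1 : ∀ i, x i ≠ 0 := fun i hi => hc ⟨i, wt_single_add x i hi⟩
  unfold wt at h
  rw [Finset.filter_true_of_mem (fun i _ => h1 i)] at h
  simp at h

theorem exists_sub (x : V) (h : 0 < wt x) :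
    ∃ (x' : V) (i : Fin 10), x = x' + Pi.single i 1 ∧ wt x = wt x' + 1 := by
  obtain ⟨i, hi⟩ : ∃ i, x i ≠ 0 := by
    by_contra hc
    push Not at hc
    have : x = 0 := by ext i; exact hc i
    rw [this, wt_zero] at h
    exact lt_irrefl _ h
  have h1 : x i = 1 := (two_cases (x i)).resolve_left hi
  have h2 : x = (x + Pi.single i 1) + Pi.single i 1 := by
    rw [add_assoc, add_self', add_zero]
  refine ⟨x + Pi.single i 1, i, h2, ?_⟩
  have h3 : (x + Pi.single i 1 : V) i = 0 := by
    rw [Pi.add_apply, h1, Pi.single_eq_same]; decide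
  have h4 := wt_single_add _ i h3
  rw [← h2] at h4
  exact h4

theorem wt_compl (x : V) : wt x + wt (x + 1) = 10 := by
  unfold wt
  have h1 : (Finset.univ.filter fun i => (x + 1) i ≠ 0) =
      Finset.univ.filter fun i => ¬ (x i ≠ 0) := by
    ext i
    simp only [Finset.mem_filter, Finset.mem_univ, true_and, Pi.add_apply, Pi.one_apply]
    rcases two_cases (x i) with h | h <;> rw [h] <;> decide
  rw [h1, Finset.card_filter_add_card_filter_not]
  simp

theorem card_low : (Finset.univ.filter fun i : Fin 10 => (i : ℕ) < 5).card = 5 := by decide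

theorem card_high : (Finset.univ.filter fun i : Fin 10 => ¬ (i : ℕ) < 5).card = 5 := by decide

theorem exists_split (x : V) : ∃ y z : V, x = y + z ∧ wt y ≤ 5 ∧ wt z ≤ 5 := by
  refine ⟨fun i => if (i : ℕ) < 5 then x i else 0, fun i => if (i : ℕ) < 5 then 0 else x i,
    ?_, ?_, ?_⟩
  · ext i
    by_cases h : (i : ℕ) < 5 <;> simp [h]
  · unfold wt
    refine le_trans (Finset.card_le_card ?_) (le_of_eq card_low)
    intro i
    simp only [Finset.mem_filter, Finset.mem_univ, true_and]
    intro h
    by_contra hc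
    rw [if_neg hc] at h
    exact h rfl
  · unfold wt
    refine le_trans (Finset.card_le_card ?_) (le_of_eq card_high)
    intro i
    simp only [Finset.mem_filter, Finset.mem_univ, true_and]
    intro h hc
    rw [if_pos hc] at h
    exact h rfl

theorem exists_cover (x : V) : ∃ y : V, wt y ≤ 5 ∧ 5 ≤ wt (x + y) := by
  refine ⟨fun i => if (i : ℕ) < 5 then x i + 1 else 0, ?_, ?_⟩
  · unfold wt
    refine le_trans (Finset.card_le_card ?_) (le_of_eq card_low)
    intro i
    simp only [Finset.mem_filter, Finset.mem_univ, true_and]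
    intro h
    by_contra hc
    rw [if_neg hc] at h
    exact h rfl
  · unfold wt
    refine le_trans (le_of_eq card_low.symm) (Finset.card_le_card ?_)
    intro i
    simp only [Finset.mem_filter, Finset.mem_univ, true_and, Pi.add_apply]
    intro h
    rw [if_pos h]
    rcases two_cases (x i) with h | h <;> rw [h] <;> decide

/-- the generators -/
def Gen (g : Gr) : Prop := (g.2 = 0 ∧ wt g.1 ≤ 1) ∨ (g.2 = 1 ∧ wt g.1 ≤ 5)

/-- the length function -/
def Ln (g : Gr) : ℕ :=
  if g.2 = 0 then min (wt g.1) 5 else if g.2 = 1 then max 1 (wt g.1 - 4) else g.2.val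

theorem Ln0 (x : V) : Ln (x, 0) = min (wt x) 5 := by simp [Ln]

theorem ne10 : ¬ (1 : ZMod 5) = 0 := by decide
theorem ne20 : ¬ (2 : ZMod 5) = 0 := by decide
theorem ne21 : ¬ (2 : ZMod 5) = 1 := by decide
theorem ne30 : ¬ (3 : ZMod 5) = 0 := by decide
theorem ne31 : ¬ (3 : ZMod 5) = 1 := by decide
theorem ne40 : ¬ (4 : ZMod 5) = 0 := by decide
theorem ne41 : ¬ (4 : ZMod 5) = 1 := by decide

theorem Ln1 (x : V) : Ln (x, 1) = max 1 (wt x - 4) := by
  unfold Ln
  rw [if_neg ne10, if_pos rfl]

theorem Ln2 (x : V) : Ln (x, 2) = 2 := by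
  unfold Ln
  rw [if_neg ne20, if_neg ne21]; rfl

theorem Ln3 (x : V) : Ln (x, 3) = 3 := by
  unfold Ln
  rw [if_neg ne30, if_neg ne31]; rfl

theorem Ln4 (x : V) : Ln (x, 4) = 4 := by
  unfold Ln
  rw [if_neg ne40, if_neg ne41]; rfl

theorem five_cases (z : ZMod 5) : z = 0 ∨ z = 1 ∨ z = 2 ∨ z = 3 ∨ z = 4 := by
  revert z; decide

theorem Ln_add_le (g s : Gr) (hs : Gen s) : Ln (g + s) ≤ Ln g + 1 := by
  obtain ⟨x, k⟩ := g
  obtain ⟨y, l⟩ := s
  rw [Prod.mk_add_mk]
  have h1 := wt_add x y
  have h2 := wt_le (x + y)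
  have h3 := wt_le x
  rcases hs with ⟨h, h'⟩ | ⟨h, h'⟩
  · simp only at h h'
    subst h
    rcases five_cases k with rfl | rfl | rfl | rfl | rfl
    · rw [add_zero, Ln0, Ln0]; omega
    · rw [add_zero, Ln1, Ln1]; omega
    · rw [add_zero, Ln2, Ln2]; omega
    · rw [add_zero, Ln3, Ln3]; omega
    · rw [add_zero, Ln4, Ln4]; omega
  · simp only at h h'
    subst h
    rcases five_cases k with rfl | rfl | rfl | rfl | rfl
    · rw [show (0 : ZMod 5) + 1 = 1 by decide, Ln0, Ln1]; omega
    · rw [show (1 : ZMod 5) + 1 = 2 by decide, Ln1, Ln2]; omega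
    · rw [show (2 : ZMod 5) + 1 = 3 by decide, Ln2, Ln3]
    · rw [show (3 : ZMod 5) + 1 = 4 by decide, Ln3, Ln4]
    · rw [show (4 : ZMod 5) + 1 = 0 by decide, Ln4, Ln0]; omega

theorem gen_zero : Gen 0 := Or.inl ⟨rfl, by rw [Prod.fst_zero, wt_zero]; omega⟩

theorem gen_single (i : Fin 10) : Gen (Pi.single i 1, 0) :=
  Or.inl ⟨rfl, by simp only; rw [wt_single]⟩

theorem gen_one (y : V) (h : wt y ≤ 5) : Gen (y, 1) := Or.inr ⟨rfl, h⟩

theorem Ln_pred (g : Gr) (hg : g ≠ 0) : ∃ g' s, Gen s ∧ g = g' + s ∧ Ln g = Ln g' + 1 := by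
  obtain ⟨x, k⟩ := g
  rcases five_cases k with rfl | rfl | rfl | rfl | rfl
  · have h0 : 0 < wt x := by
      rcases Nat.eq_zero_or_pos (wt x) with h | h
      · exact absurd (by rw [wt_eq_zero h]; rfl) hg
      · exact h
    by_cases h5 : wt x < 5
    · obtain ⟨x', i, h1, h2⟩ := exists_sub x h0
      refine ⟨(x', 0), (Pi.single i 1, 0), gen_single i, ?_, ?_⟩
      · rw [Prod.mk_add_mk, ← h1, add_zero]
      · rw [Ln0, Ln0]; omega
    · refine ⟨(x, 4), (0, 1), gen_one 0 (by rw [wt_zero]; omega), ?_, ?_⟩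
      · rw [Prod.mk_add_mk, add_zero, show (4 : ZMod 5) + 1 = 0 by decide]
      · rw [Ln0, Ln4]; omega
  · by_cases h5 : wt x ≤ 5
    · refine ⟨(0, 0), (x, 1), gen_one x h5, ?_, ?_⟩
      · rw [Prod.mk_add_mk, zero_add, zero_add]
      · rw [Ln0, Ln1, wt_zero]; omega
    · obtain ⟨x', i, h1, h2⟩ := exists_sub x (by omega)
      refine ⟨(x', 1), (Pi.single i 1, 0), gen_single i, ?_, ?_⟩
      · rw [Prod.mk_add_mk, ← h1, add_zero]
      · rw [Ln1, Ln1]; omega
  · obtain ⟨y, z, h1, h2, h3⟩ := exists_split x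
    refine ⟨(y, 1), (z, 1), gen_one z h3, ?_, ?_⟩
    · rw [Prod.mk_add_mk, ← h1, show (1 : ZMod 5) + 1 = 2 by decide]
    · rw [Ln2, Ln1]; omega
  · refine ⟨(x, 2), (0, 1), gen_one 0 (by rw [wt_zero]; omega), ?_, ?_⟩
    · rw [Prod.mk_add_mk, add_zero, show (2 : ZMod 5) + 1 = 3 by decide]
    · rw [Ln2, Ln3]
  · refine ⟨(x, 3), (0, 1), gen_one 0 (by rw [wt_zero]; omega), ?_, ?_⟩
    · rw [Prod.mk_add_mk, add_zero, show (3 : ZMod 5) + 1 = 4 by decide]
    · rw [Ln3, Ln4]

theorem Ln_top : Ln (1, 1) = 6 := by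
  have : wt (1 : V) = 10 := by
    have := wt_compl 0
    rw [wt_zero, zero_add, zero_add] at this
    exact this
  rw [Ln1, this]; rfl

theorem Ln_le (g : Gr) : Ln g ≤ 6 := by
  obtain ⟨x, k⟩ := g
  have h3 := wt_le x
  rcases five_cases k with rfl | rfl | rfl | rfl | rfl
  · rw [Ln0]; omega
  · rw [Ln1]; omega
  · rw [Ln2]; omega
  · rw [Ln3]; omega
  · rw [Ln4]; omega

theorem Ln_up (g : Gr) (hg : g ≠ (1, 1)) : ∃ s, Gen s ∧ Ln (g + s) = Ln g + 1 := by
  obtain ⟨x, k⟩ := g
  rcases five_cases k with rfl | rfl | rfl | rfl | rfl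
  · by_cases h5 : wt x < 5
    · obtain ⟨i, h1⟩ := exists_add x (by omega)
      refine ⟨(Pi.single i 1, 0), gen_single i, ?_⟩
      rw [Prod.mk_add_mk, add_zero, Ln0, Ln0]; omega
    · have h1 := wt_compl x
      refine ⟨(x + 1, 1), gen_one _ (by omega), ?_⟩
      rw [Prod.mk_add_mk, ← add_assoc, add_self', zero_add, zero_add, Ln_top, Ln0]; omega
  · by_cases h5 : wt x ≤ 5
    · refine ⟨(0, 1), gen_one 0 (by rw [wt_zero]; omega), ?_⟩
      rw [Prod.mk_add_mk, show (1 : ZMod 5) + 1 = 2 by decide, Ln2, Ln1]; omega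
    · have h10 : wt x < 10 := by
        have h2 := wt_le x
        rcases Nat.lt_or_ge (wt x) 10 with h | h
        · exact h
        · exfalso
          apply hg
          have h3 : wt (x + 1) = 0 := by have := wt_compl x; omega
          have h4 := wt_eq_zero h3
          have h5 : x = 1 := by
            calc x = (x + 1) + 1 := by rw [add_assoc, add_self', add_zero]
              _ = 1 := by rw [h4, zero_add]
          rw [h5]
      obtain ⟨i, h1⟩ := exists_add x h10
      refine ⟨(Pi.single i 1, 0), gen_single i, ?_⟩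
      rw [Prod.mk_add_mk, add_zero, Ln1, Ln1]; omega
  · refine ⟨(0, 1), gen_one 0 (by rw [wt_zero]; omega), ?_⟩
    rw [Prod.mk_add_mk, show (2 : ZMod 5) + 1 = 3 by decide, Ln2, Ln3]
  · refine ⟨(0, 1), gen_one 0 (by rw [wt_zero]; omega), ?_⟩
    rw [Prod.mk_add_mk, show (3 : ZMod 5) + 1 = 4 by decide, Ln3, Ln4]
  · obtain ⟨y, h1, h2⟩ := exists_cover x
    refine ⟨(y, 1), gen_one y h1, ?_⟩
    rw [Prod.mk_add_mk, show (4 : ZMod 5) + 1 = 0 by decide, Ln4, Ln0]; omega

/-- number of vectors of given weight -/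
theorem card_wt (w : ℕ) : (Finset.univ.filter fun x : V => wt x = w).card = Nat.choose 10 w := by
  have h0 : (Finset.powersetCard w (Finset.univ : Finset (Fin 10))).card = Nat.choose 10 w := by
    rw [Finset.card_powersetCard]; simp
  rw [← h0]
  refine Finset.card_bij' (fun x _ => Finset.univ.filter fun i => x i ≠ 0)
    (fun s _ => fun i => if i ∈ s then 1 else 0) ?_ ?_ ?_ ?_
  · intro x hx
    simp only [Finset.mem_filter, Finset.mem_univ, true_and] at hx
    rw [Finset.mem_powersetCard]
    exact ⟨Finset.subset_univ _, hx⟩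
  · intro s hs
    rw [Finset.mem_powersetCard] at hs
    simp only [Finset.mem_filter, Finset.mem_univ, true_and]
    unfold wt
    rw [← hs.2]
    congr 1
    ext i
    simp
  · intro x hx
    ext i
    rcases two_cases (x i) with h | h <;> simp [h]
  · intro s hs
    ext i
    simp

theorem card_sum (i : ℕ) : (Finset.univ.filter fun g : Gr => Ln g = i).card =
    ∑ k : ZMod 5, (Finset.univ.filter fun x : V => Ln (x, k) = i).card := by
  simp_rw [Finset.card_filter]
  rw [Fintype.sum_prod_type_right]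

theorem univ5 : (Finset.univ : Finset (ZMod 5)) = {0, 1, 2, 3, 4} := by decide

theorem card_sum' (i : ℕ) : (Finset.univ.filter fun g : Gr => Ln g = i).card =
    (Finset.univ.filter fun x : V => min (wt x) 5 = i).card +
    (Finset.univ.filter fun x : V => max 1 (wt x - 4) = i).card +
    (Finset.univ.filter fun _ : V => 2 = i).card +
    (Finset.univ.filter fun _ : V => 3 = i).card +
    (Finset.univ.filter fun _ : V => 4 = i).card := by
  rw [card_sum, univ5]
  rw [Finset.sum_insert (by decide), Finset.sum_insert (by decide), Finset.sum_insert (by decide),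
    Finset.sum_insert (by decide), Finset.sum_singleton]
  simp_rw [Ln0, Ln1, Ln2, Ln3, Ln4]
  ring

theorem card_V : (Finset.univ : Finset V).card = 1024 := by
  rw [Finset.card_univ]; simp

theorem card2 : (Finset.univ.filter fun g : Gr => Ln g = 2).card = 1279 := by
  rw [card_sum']
  have h1 : (Finset.univ.filter fun x : V => min (wt x) 5 = 2) =
      Finset.univ.filter fun x : V => wt x = 2 := by
    ext x; simp only [Finset.mem_filter, Finset.mem_univ, true_and]; omega
  have h2 : (Finset.univ.filter fun x : V => max 1 (wt x - 4) = 2) =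
      Finset.univ.filter fun x : V => wt x = 6 := by
    ext x; simp only [Finset.mem_filter, Finset.mem_univ, true_and]; omega
  rw [h1, h2, card_wt, card_wt, Finset.filter_true_of_mem (fun _ _ => rfl),
    Finset.filter_false_of_mem (fun _ _ => by decide),
    Finset.filter_false_of_mem (fun _ _ => by decide), card_V]
  decide

theorem card3 : (Finset.univ.filter fun g : Gr => Ln g = 3).card = 1264 := by
  rw [card_sum']
  have h1 : (Finset.univ.filter fun x : V => min (wt x) 5 = 3) =
      Finset.univ.filter fun x : V => wt x = 3 := by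
    ext x; simp only [Finset.mem_filter, Finset.mem_univ, true_and]; omega
  have h2 : (Finset.univ.filter fun x : V => max 1 (wt x - 4) = 3) =
      Finset.univ.filter fun x : V => wt x = 7 := by
    ext x; simp only [Finset.mem_filter, Finset.mem_univ, true_and]; omega
  have h3 : (Finset.univ.filter fun _ : V => 3 = 3) = (Finset.univ : Finset V) := by simp
  have h4 : (Finset.univ.filter fun _ : V => 2 = 3) = (∅ : Finset V) := by simp
  have h5 : (Finset.univ.filter fun _ : V => 4 = 3) = (∅ : Finset V) := by simp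
  rw [h1, h2, h3, h4, h5, card_wt, card_wt, card_V]
  decide

theorem card4 : (Finset.univ.filter fun g : Gr => Ln g = 4).card = 1279 := by
  rw [card_sum']
  have h1 : (Finset.univ.filter fun x : V => min (wt x) 5 = 4) =
      Finset.univ.filter fun x : V => wt x = 4 := by
    ext x; simp only [Finset.mem_filter, Finset.mem_univ, true_and]; omega
  have h2 : (Finset.univ.filter fun x : V => max 1 (wt x - 4) = 4) =
      Finset.univ.filter fun x : V => wt x = 8 := by
    ext x; simp only [Finset.mem_filter, Finset.mem_univ, true_and]; omega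
  have h3 : (Finset.univ.filter fun _ : V => 4 = 4) = (Finset.univ : Finset V) := by simp
  have h4 : (Finset.univ.filter fun _ : V => 2 = 4) = (∅ : Finset V) := by simp
  have h5 : (Finset.univ.filter fun _ : V => 3 = 4) = (∅ : Finset V) := by simp
  rw [h1, h2, h3, h4, h5, card_wt, card_wt, card_V]
  decide

/-- a family enumerating the generators satisfies the length axioms -/
theorem len_of_gen {ι : Type} [Fintype ι] (a : ι → Gr) (ha : ∀ g, Gen g ↔ ∃ i, a i = g) :
    Len a Ln where
  zero := by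
    show Ln (0, 0) = 0
    rw [Ln0, wt_zero]; rfl
  le g i := Ln_add_le g (a i) ((ha _).2 ⟨i, rfl⟩)
  pred g hg := by
    obtain ⟨g', s, hs, h1, h2⟩ := Ln_pred g hg
    obtain ⟨i, rfl⟩ := (ha s).1 hs
    exact ⟨g', i, h1, h2⟩

end Pool.Agent.Helper5.GorPts
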