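import Pool.Agent.Helper5.GorAll
import Pool.Agent.Helper5.GorEx

set_option autoImplicit false
set_option linter.unusedSectionVars false

/-!
Counting for the group `(ℤ/2)^10 × ℤ/5`: all layers of the length function, the number of
generators, an enumeration of the generators by `Fin 649`.
-/

namespace Pool.Agent.Helper5.GorPts

theorem Ln_lt (g : Gr) (hg : g ≠ (1, 1)) : Ln g < Ln (1, 1) := by
  obtain ⟨s, _, h⟩ := Ln_up g hg
  have h1 := Ln_le (g + s)
  rw [Ln_top]
  omega

theorem card_le {G : Type} [Fintype G] (L : G → ℕ) (i : ℕ) :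
    (Finset.univ.filter fun g : G => L g ≤ i).card =
    ∑ k ∈ Finset.range (i + 1), (Finset.univ.filter fun g : G => L g = k).card := by
  rw [Finset.card_eq_sum_card_fiberwise (f := L) (t := Finset.range (i + 1))]
  · refine Finset.sum_congr rfl fun k hk => ?_
    congr 1
    ext g
    simp only [Finset.mem_filter, Finset.mem_univ, true_and, Finset.mem_range] at hk ⊢
    omega
  · intro g hg
    simp only [Finset.coe_filter, Finset.mem_univ, true_and, Set.mem_ofPred_eq, Finset.coe_range,
      Set.mem_Iio] at hg ⊢
    omega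

theorem card_low5 : (Finset.univ.filter fun x : V => wt x ≤ 5).card = 638 := by
  rw [Finset.card_eq_sum_card_fiberwise (f := wt) (t := Finset.range 6)]
  · have h1 : ∀ k ∈ Finset.range 6,
        ((Finset.univ.filter fun x : V => wt x ≤ 5).filter fun x => wt x = k).card =
          Nat.choose 10 k := by
      intro k hk
      rw [← card_wt]
      congr 1
      ext g
      simp only [Finset.mem_filter, Finset.mem_univ, true_and, Finset.mem_range] at hk ⊢
      omega
    rw [Finset.sum_congr rfl h1]
    decide
  · intro g hg
    simp only [Finset.coe_filter, Finset.mem_univ, true_and, Set.mem_ofPred_eq, Finset.coe_range,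
      Set.mem_Iio] at hg ⊢
    omega

theorem card_high5 : (Finset.univ.filter fun x : V => 5 ≤ wt x).card = 638 := by
  rw [← card_low5]
  refine Finset.card_bij' (fun x _ => x + 1) (fun x _ => x + 1) ?_ ?_ ?_ ?_
  · intro x hx
    simp only [Finset.mem_filter, Finset.mem_univ, true_and] at hx ⊢
    have := wt_compl x
    omega
  · intro x hx
    simp only [Finset.mem_filter, Finset.mem_univ, true_and] at hx ⊢
    have := wt_compl x
    omega
  · intro x _
    show x + 1 + 1 = x
    rw [add_assoc, add_self', add_zero]
  · intro x _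
    show x + 1 + 1 = x
    rw [add_assoc, add_self', add_zero]

theorem card0 : (Finset.univ.filter fun g : Gr => Ln g = 0).card = 1 := by
  rw [card_sum']
  have h1 : (Finset.univ.filter fun x : V => min (wt x) 5 = 0) =
      Finset.univ.filter fun x : V => wt x = 0 := by
    ext x; simp only [Finset.mem_filter, Finset.mem_univ, true_and]; omega
  have h2 : (Finset.univ.filter fun x : V => max 1 (wt x - 4) = 0) = (∅ : Finset V) := by
    ext x; simp only [Finset.mem_filter, Finset.mem_univ, true_and, Finset.notMem_empty,
      iff_false]; omega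
  have h3 : (Finset.univ.filter fun _ : V => 3 = 0) = (∅ : Finset V) := by simp
  have h4 : (Finset.univ.filter fun _ : V => 2 = 0) = (∅ : Finset V) := by simp
  have h5 : (Finset.univ.filter fun _ : V => 4 = 0) = (∅ : Finset V) := by simp
  rw [h1, h2, h3, h4, h5, card_wt]
  decide

theorem card1 : (Finset.univ.filter fun g : Gr => Ln g = 1).card = 648 := by
  rw [card_sum']
  have h1 : (Finset.univ.filter fun x : V => min (wt x) 5 = 1) =
      Finset.univ.filter fun x : V => wt x = 1 := by
    ext x; simp only [Finset.mem_filter, Finset.mem_univ, true_and]; omega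
  have h2 : (Finset.univ.filter fun x : V => max 1 (wt x - 4) = 1) =
      Finset.univ.filter fun x : V => wt x ≤ 5 := by
    ext x; simp only [Finset.mem_filter, Finset.mem_univ, true_and]; omega
  have h3 : (Finset.univ.filter fun _ : V => 3 = 1) = (∅ : Finset V) := by simp
  have h4 : (Finset.univ.filter fun _ : V => 2 = 1) = (∅ : Finset V) := by simp
  have h5 : (Finset.univ.filter fun _ : V => 4 = 1) = (∅ : Finset V) := by simp
  rw [h1, h2, h3, h4, h5, card_wt, card_low5]
  decide

theorem card5 : (Finset.univ.filter fun g : Gr => Ln g = 5).card = 648 := by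
  rw [card_sum']
  have h1 : (Finset.univ.filter fun x : V => min (wt x) 5 = 5) =
      Finset.univ.filter fun x : V => 5 ≤ wt x := by
    ext x; simp only [Finset.mem_filter, Finset.mem_univ, true_and]; omega
  have h2 : (Finset.univ.filter fun x : V => max 1 (wt x - 4) = 5) =
      Finset.univ.filter fun x : V => wt x = 9 := by
    ext x; simp only [Finset.mem_filter, Finset.mem_univ, true_and]; omega
  have h3 : (Finset.univ.filter fun _ : V => 3 = 5) = (∅ : Finset V) := by simp
  have h4 : (Finset.univ.filter fun _ : V => 2 = 5) = (∅ : Finset V) := by simp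
  have h5 : (Finset.univ.filter fun _ : V => 4 = 5) = (∅ : Finset V) := by simp
  rw [h1, h2, h3, h4, h5, card_wt, card_high5]
  decide

theorem card6 : (Finset.univ.filter fun g : Gr => Ln g = 6).card = 1 := by
  rw [card_sum']
  have h1 : (Finset.univ.filter fun x : V => min (wt x) 5 = 6) = (∅ : Finset V) := by
    ext x; simp only [Finset.mem_filter, Finset.mem_univ, true_and, Finset.notMem_empty,
      iff_false]; omega
  have h2 : (Finset.univ.filter fun x : V => max 1 (wt x - 4) = 6) =
      Finset.univ.filter fun x : V => wt x = 10 := by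
    ext x; simp only [Finset.mem_filter, Finset.mem_univ, true_and]; omega
  have h3 : (Finset.univ.filter fun _ : V => 3 = 6) = (∅ : Finset V) := by simp
  have h4 : (Finset.univ.filter fun _ : V => 2 = 6) = (∅ : Finset V) := by simp
  have h5 : (Finset.univ.filter fun _ : V => 4 = 6) = (∅ : Finset V) := by simp
  rw [h1, h2, h3, h4, h5, card_wt]
  decide

theorem card_big (i : ℕ) (hi : 6 < i) : (Finset.univ.filter fun g : Gr => Ln g = i).card = 0 := by
  rw [Finset.card_eq_zero, Finset.filter_eq_empty_iff]
  intro g _ h
  have := Ln_le g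
  omega

theorem gen_iff (g : Gr) : Gen g ↔ Ln g ≤ 1 := by
  obtain ⟨x, k⟩ := g
  unfold Gen
  simp only
  rcases five_cases k with rfl | rfl | rfl | rfl | rfl
  · rw [Ln0]
    have h : ¬ ((0 : ZMod 5) = 1) := by decide
    constructor
    · rintro (⟨_, h1⟩ | ⟨h1, _⟩)
      · omega
      · exact absurd h1 h
    · intro h1
      exact Or.inl ⟨rfl, by omega⟩
  · rw [Ln1]
    constructor
    · rintro (⟨h1, _⟩ | ⟨_, h1⟩)
      · exact absurd h1 ne10
      · omega
    · intro h1
      exact Or.inr ⟨rfl, by omega⟩
  · rw [Ln2]
    constructor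
    · rintro (⟨h1, _⟩ | ⟨h1, _⟩)
      · exact absurd h1 ne20
      · exact absurd h1 ne21
    · intro h1
      omega
  · rw [Ln3]
    constructor
    · rintro (⟨h1, _⟩ | ⟨h1, _⟩)
      · exact absurd h1 ne30
      · exact absurd h1 ne31
    · intro h1
      omega
  · rw [Ln4]
    constructor
    · rintro (⟨h1, _⟩ | ⟨h1, _⟩)
      · exact absurd h1 ne40
      · exact absurd h1 ne41
    · intro h1
      omega

theorem card_gen : Fintype.card {g : Gr // Ln g ≤ 1} = 649 := by
  rw [Fintype.card_subtype, card_le, Finset.sum_range_succ, Finset.sum_range_one, card0, card1]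

/-- enumeration of the generators -/
theorem exists_enum : ∃ a : Fin (648 + 1) → Gr, (∀ g, Gen g ↔ ∃ i, a i = g) := by
  have e := (Fintype.equivFinOfCardEq card_gen).symm
  refine ⟨fun i => (e i : Gr), fun g => ?_⟩
  rw [gen_iff]
  constructor
  · intro h
    exact ⟨e.symm ⟨g, h⟩, by show (e (e.symm ⟨g, h⟩) : Gr) = g; rw [Equiv.apply_symm_apply]⟩
  · rintro ⟨i, rfl⟩
    exact (e i).2

theorem card_Gr : Fintype.card Gr = 5120 := by
  rw [Fintype.card_prod, Fintype.card_fun, ZMod.card, ZMod.card, Fintype.card_fin]
  norm_num

/-- characters are separated by the generators -/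
theorem char_ext {G : Type} [AddCommGroup G] {ι : Type} {a : ι → G} {L : G → ℕ}
    (hp : ∀ g, g ≠ 0 → ∃ g' i, g = g' + a i ∧ L g = L g' + 1)
    {χ ψ : AddChar G ℂ} (h : ∀ i, χ (a i) = ψ (a i)) : χ = ψ := by
  have h1 : ∀ k g, L g = k → χ g = ψ g := by
    intro k
    induction k with
    | zero =>
      intro g hg
      by_cases hz : g = 0
      · rw [hz, AddChar.map_zero_eq_one, AddChar.map_zero_eq_one]
      · obtain ⟨g', i, _, h2⟩ := hp g hz
        omega
    | succ k ih =>
      intro g hg
      by_cases hz : g = 0
      · rw [hz, AddChar.map_zero_eq_one, AddChar.map_zero_eq_one]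
      · obtain ⟨g', i, h1, h2⟩ := hp g hz
        rw [h1, AddChar.map_add_eq_mul, AddChar.map_add_eq_mul, h i, ih g' (by omega)]
  ext g
  exact h1 _ g rfl

end Pool.Agent.Helper5.GorPts
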