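import Mathlib

set_option autoImplicit false
set_option linter.unusedSectionVars false

/-!
Points of a finite abelian group: for a finite abelian group `G` and generators `a i`
the points `(χ (a i))_i`, `χ` a complex character of `G`.  If `L : G → ℕ` is the
length function of the generators, the h-vector of the set of points counts the elements of
given length.
-/

namespace Pool.Agent.Helper5.GorPts

open MvPolynomial

noncomputable section

variable {G : Type} [AddCommGroup G] [Fintype G] [DecidableEq G] {ι : Type} [Fintype ι]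
  [DecidableEq ι]

/-- the element of `G` represented by an exponent vector -/
def sg (a : ι → G) : (ι →₀ ℕ) →+ G where
  toFun m := m.sum fun i k => k • a i
  map_zero' := by simp
  map_add' := by
    intro m m'
    rw [Finsupp.sum_add_index']
    · intro i; simp
    · intro i b c; exact add_smul b c (a i)

theorem sg_single (a : ι → G) (i : ι) (k : ℕ) :
    sg a (Finsupp.single i k) = k • a i := by
  show (Finsupp.single i k).sum (fun i k => k • a i) = k • a i
  rw [Finsupp.sum_single_index]; simp

/-- coefficient sums of degree `d` -/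
def Th (a : ι → G) (d : ℕ) : MvPolynomial ι ℂ →ₗ[ℂ] (G → ℂ) :=
  (basisMonomials ι ℂ).constr ℂ
    (fun m => if m.degree = d then Pi.single (sg a m) 1 else 0)

theorem Th_monomial (a : ι → G) (d : ℕ) (m : ι →₀ ℕ) (c : ℂ) :
    Th a d (monomial m c) = if m.degree = d then Pi.single (sg a m) c else 0 := by
  have h1 : (monomial m c : MvPolynomial ι ℂ) = c • basisMonomials ι ℂ m := by
    rw [coe_basisMonomials, smul_monomial]; simp
  rw [h1, map_smul, Th, Module.Basis.constr_basis]
  split_ifs with h
  · ext g
    by_cases hg : g = sg a m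
    · subst hg; simp
    · simp [Pi.single_eq_of_ne hg]
  · simp

/-- evaluation on the line through a point, as a polynomial in the scaling parameter -/
def Ev (a : ι → G) (χ : AddChar G ℂ) : MvPolynomial ι ℂ →ₐ[ℂ] Polynomial ℂ :=
  aeval (fun i => Polynomial.C (χ (a i)) * Polynomial.X)

theorem eval_Ev (a : ι → G) (χ : AddChar G ℂ) (f : MvPolynomial ι ℂ) (t : ℂ) :
    Polynomial.eval t (Ev a χ f) = MvPolynomial.eval (t • fun i => χ (a i)) f := by
  induction f using MvPolynomial.induction_on with
  | C c => simp [Ev]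
  | add p q hp hq => simp only [map_add, Polynomial.eval_add, hp, hq]
  | mul_X p i hp =>
    rw [map_mul, Polynomial.eval_mul, hp, map_mul]
    congr 1
    rw [Ev, aeval_X, Polynomial.eval_mul, Polynomial.eval_C, Polynomial.eval_X, eval_X,
      Pi.smul_apply, smul_eq_mul, mul_comm]

theorem prod_aux (a : ι → G) (χ : AddChar G ℂ) (m : ι →₀ ℕ) :
    (m.prod fun i k => (Polynomial.C (χ (a i)) * Polynomial.X) ^ k) =
      Polynomial.C (χ (sg a m)) * Polynomial.X ^ m.degree := by
  induction m using Finsupp.induction_linear with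
  | zero => simp
  | add m m' h h' =>
    rw [Finsupp.prod_add_index', h, h', map_add, AddChar.map_add_eq_mul, map_add, pow_add,
      map_mul]
    · ring
    · intro i; simp
    · intro i b c; exact pow_add _ b c
  | single i k =>
    rw [Finsupp.prod_single_index, sg_single, Finsupp.degree_single, mul_pow,
      AddChar.map_nsmul_eq_pow, ← map_pow]
    simp

theorem Ev_monomial (a : ι → G) (χ : AddChar G ℂ) (m : ι →₀ ℕ) (c : ℂ) :
    Ev a χ (monomial m c) = Polynomial.C (c * χ (sg a m)) * Polynomial.X ^ m.degree := by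
  rw [Ev, aeval_monomial, prod_aux, Polynomial.algebraMap_eq, ← mul_assoc, ← map_mul]

theorem coeff_Ev (a : ι → G) (χ : AddChar G ℂ) (f : MvPolynomial ι ℂ) (d : ℕ) :
    (Ev a χ f).coeff d = ∑ g, Th a d f g * χ g := by
  induction f using MvPolynomial.induction_on' with
  | monomial m c =>
    rw [Ev_monomial, Th_monomial, Polynomial.coeff_C_mul, Polynomial.coeff_X_pow]
    by_cases h : d = m.degree
    · rw [if_pos h, if_pos h.symm, Finset.sum_eq_single (sg a m)]
      · simp
      · intro b _ hb; simp [Pi.single_eq_of_ne hb]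
      · simp
    · rw [if_neg h, if_neg (Ne.symm h)]; simp
  | add p q hp hq =>
    rw [map_add, Polynomial.coeff_add, hp, hq, map_add, ← Finset.sum_add_distrib]
    refine Finset.sum_congr rfl fun g _ => ?_
    rw [Pi.add_apply, add_mul]

theorem eq_zero_of_sum_char (F : G → ℂ) (h : ∀ χ : AddChar G ℂ, ∑ g, F g * χ g = 0) :
    F = 0 := by
  ext g0
  have h1 : ∑ χ : AddChar G ℂ, χ (-g0) * ∑ g, F g * χ g = 0 := by
    simp [h]
  have h2 : ∑ χ : AddChar G ℂ, χ (-g0) * ∑ g, F g * χ g =
      ∑ g, F g * ∑ χ : AddChar G ℂ, χ (g - g0) := by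
    simp_rw [Finset.mul_sum]
    rw [Finset.sum_comm]
    refine Finset.sum_congr rfl fun g _ => Finset.sum_congr rfl fun χ _ => ?_
    rw [sub_eq_add_neg, AddChar.map_add_eq_mul]; ring
  rw [h2] at h1
  simp_rw [AddChar.sum_apply_eq_ite, sub_eq_zero] at h1
  rw [Finset.sum_eq_single g0] at h1
  · rw [if_pos rfl] at h1
    have h3 : (Fintype.card G : ℂ) ≠ 0 := Nat.cast_ne_zero.2 Fintype.card_ne_zero
    simpa [h3] using h1
  · intro b _ hb; rw [if_neg hb, mul_zero]
  · simp

/-- the ideal of the points, described by coefficient sums -/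
theorem mem_ideal_iff (a : ι → G) (f : MvPolynomial ι ℂ) :
    (∀ χ : AddChar G ℂ, ∀ t : ℂ, MvPolynomial.eval (t • fun i => χ (a i)) f = 0) ↔
      ∀ d, Th a d f = 0 := by
  constructor
  · intro h d
    apply eq_zero_of_sum_char
    intro χ
    have h1 : Ev a χ f = 0 := by
      apply Polynomial.funext
      intro t
      rw [eval_Ev, h]; simp
    rw [← coeff_Ev, h1]; simp
  · intro h χ t
    rw [← eval_Ev]
    have h1 : Ev a χ f = 0 := by
      ext d
      rw [coeff_Ev]; simp [h]
    rw [h1]; simp

/-- length data for the generators `a` -/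
structure Len (a : ι → G) (L : G → ℕ) : Prop where
  zero : L 0 = 0
  le : ∀ g i, L (g + a i) ≤ L g + 1
  pred : ∀ g, g ≠ 0 → ∃ g' i, g = g' + a i ∧ L g = L g' + 1

variable {a : ι → G} {L : G → ℕ}

theorem Len.le_nsmul (h : Len a L) (g : G) (i : ι) (k : ℕ) : L (g + k • a i) ≤ L g + k := by
  induction k with
  | zero => simp
  | succ k ih =>
    rw [succ_nsmul, ← add_assoc]
    have := h.le (g + k • a i) i
    omega

theorem Len.le_add (h : Len a L) (m : ι →₀ ℕ) (g : G) : L (g + sg a m) ≤ L g + m.degree := by
  induction m using Finsupp.induction_linear generalizing g with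
  | zero => simp
  | add m m' h1 h2 =>
    rw [map_add, map_add, ← add_assoc]
    have e1 := h1 g
    have e2 := h2 (g + sg a m)
    omega
  | single i k =>
    rw [sg_single, Finsupp.degree_single]
    exact h.le_nsmul g i k

theorem Len.le_deg (h : Len a L) (m : ι →₀ ℕ) : L (sg a m) ≤ m.degree := by
  have := h.le_add m 0
  rw [zero_add, h.zero, zero_add] at this
  exact this

theorem Len.exists_monomial (h : Len a L) (g : G) :
    ∃ m : ι →₀ ℕ, sg a m = g ∧ m.degree = L g := by
  induction hk : L g using Nat.strong_induction_on generalizing g with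
  | _ k ih =>
    by_cases hg : g = 0
    · subst hg
      refine ⟨0, by simp, ?_⟩
      rw [← hk, h.zero]; simp
    · obtain ⟨g', i, h1, h2⟩ := h.pred g hg
      obtain ⟨m, hm1, hm2⟩ := ih (L g') (by omega) g' rfl
      refine ⟨m + Finsupp.single i 1, ?_, ?_⟩
      · rw [map_add, sg_single, hm1, one_smul, ← h1]
      · rw [map_add, Finsupp.degree_single, hm2]; omega

/-- a chosen shortest monomial -/
def mon (h : Len a L) (g : G) : ι →₀ ℕ := (h.exists_monomial g).choose

theorem sg_mon (h : Len a L) (g : G) : sg a (mon h g) = g :=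
  (h.exists_monomial g).choose_spec.1

theorem deg_mon (h : Len a L) (g : G) : (mon h g).degree = L g :=
  (h.exists_monomial g).choose_spec.2

/-- coordinates in the Artinian reduction -/
def Ps (a : ι → G) (L : G → ℕ) : MvPolynomial ι ℂ →ₗ[ℂ] (G → ℂ) :=
  LinearMap.pi fun g => (LinearMap.proj g).comp (Th a (L g))

theorem Ps_apply (a : ι → G) (L : G → ℕ) (f : MvPolynomial ι ℂ) (g : G) :
    Ps a L f g = Th a (L g) f g := rfl

theorem Ps_monomial (a : ι → G) (L : G → ℕ) (m : ι →₀ ℕ) (c : ℂ) :
    Ps a L (monomial m c) = if m.degree = L (sg a m) then Pi.single (sg a m) c else 0 := by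
  ext g
  rw [Ps_apply, Th_monomial]
  by_cases hg : g = sg a m
  · subst hg
    split_ifs <;> simp
  · split_ifs <;> simp [Pi.single_eq_of_ne hg]

/-- multiplication by a variable with `a j = 0` is killed -/
theorem Ps_X_mul (h : Len a L) (j : ι) (hj : a j = 0) (f : MvPolynomial ι ℂ) :
    Ps a L (X j * f) = 0 := by
  induction f using MvPolynomial.induction_on' with
  | monomial m c =>
    rw [X, monomial_mul, Ps_monomial, if_neg]
    have h1 := h.le_deg m
    rw [map_add, map_add, sg_single, hj, smul_zero, zero_add, Finsupp.degree_single]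
    omega
  | add p q hp hq => rw [mul_add, map_add, hp, hq, add_zero]

/-- the two ideals -/
structure Setup (a : ι → G) (j0 : ι) (I J : Ideal (MvPolynomial ι ℂ)) : Prop where
  hI : ∀ f, f ∈ I ↔ ∀ d, Th a d f = 0
  hJ : J = I ⊔ Ideal.span {X j0}

variable {j0 : ι} {I J : Ideal (MvPolynomial ι ℂ)}

theorem Setup.I_le (s : Setup a j0 I J) : I ≤ J := by
  rw [s.hJ]; exact le_sup_left

theorem Setup.X_mem (s : Setup a j0 I J) : X j0 ∈ J := by
  rw [s.hJ]; exact Ideal.mem_sup_right (Ideal.subset_span rfl)

theorem Setup.Ps_of_mem (s : Setup a j0 I J) (h : Len a L) (hj : a j0 = 0)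
    (f : MvPolynomial ι ℂ) (hf : f ∈ J) : Ps a L f = 0 := by
  rw [s.hJ, Submodule.mem_sup] at hf
  obtain ⟨u, hu, v, hv, rfl⟩ := hf
  rw [Ideal.mem_span_singleton] at hv
  obtain ⟨w, rfl⟩ := hv
  rw [map_add, Ps_X_mul h j0 hj, add_zero]
  ext g
  rw [Ps_apply, (s.hI u).1 hu]

theorem Setup.red (s : Setup a j0 I J) (h : Len a L) (hj : a j0 = 0)
    (f : MvPolynomial ι ℂ) :
    f - ∑ g, monomial (mon h g) (Ps a L f g) ∈ J := by
  induction f using MvPolynomial.induction_on' with
  | monomial m c =>
    rw [Ps_monomial]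
    by_cases hm : m.degree = L (sg a m)
    · rw [if_pos hm]
      have h1 : ∑ g, monomial (mon h g) ((Pi.single (sg a m) c : G → ℂ) g) =
          (monomial (mon h (sg a m)) c : MvPolynomial ι ℂ) := by
        rw [Finset.sum_eq_single (sg a m)]
        · simp
        · intro b _ hb; simp [Pi.single_eq_of_ne hb]
        · simp
      rw [h1]
      apply s.I_le
      rw [s.hI]
      intro d
      rw [map_sub, Th_monomial, Th_monomial, sg_mon, deg_mon, hm, sub_self]
    · rw [if_neg hm]
      simp only [Pi.zero_apply, map_zero, Finset.sum_const_zero, sub_zero]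
      have h2 := h.le_deg m
      obtain ⟨k, hk⟩ : ∃ k, m.degree = L (sg a m) + (k + 1) :=
        ⟨m.degree - L (sg a m) - 1, by omega⟩
      have h3 : (monomial m c : MvPolynomial ι ℂ) =
          (monomial m c - X j0 * (X j0 ^ k * monomial (mon h (sg a m)) c)) +
            X j0 * (X j0 ^ k * monomial (mon h (sg a m)) c) := by ring
      rw [h3]
      refine J.add_mem (s.I_le ?_) (J.mul_mem_right _ s.X_mem)
      rw [s.hI]
      intro d
      have h4 : (X j0 * (X j0 ^ k * monomial (mon h (sg a m)) c) : MvPolynomial ι ℂ) =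
          monomial (Finsupp.single j0 (k + 1) + mon h (sg a m)) c := by
        rw [monomial_single_add, ← mul_assoc, ← pow_succ']
      rw [h4, map_sub, Th_monomial, Th_monomial, map_add, map_add, Finsupp.degree_single,
        sg_single, hj, smul_zero, zero_add, sg_mon, deg_mon, hk, add_comm (k + 1) _, sub_self]
  | add p q hp hq =>
    have h1 : p + q - ∑ g, monomial (mon h g) (Ps a L (p + q) g) =
        (p - ∑ g, monomial (mon h g) (Ps a L p g)) +
          (q - ∑ g, monomial (mon h g) (Ps a L q g)) := by
      rw [map_add]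
      simp only [Pi.add_apply, map_add, Finset.sum_add_distrib]
      ring
    rw [h1]
    exact J.add_mem hp hq

/-- the description of the Artinian reduction -/
theorem Setup.mem_iff (s : Setup a j0 I J) (h : Len a L) (hj : a j0 = 0)
    (f : MvPolynomial ι ℂ) : f ∈ J ↔ Ps a L f = 0 := by
  refine ⟨s.Ps_of_mem h hj f, fun hf => ?_⟩
  have := s.red h hj f
  rw [hf] at this
  simpa using this

/-- multiplication by a variable on coordinates -/
theorem Ps_X_mul_apply (L : G → ℕ) (i : ι) (g : G) (hg : L (g + a i) = L g + 1)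
    (f : MvPolynomial ι ℂ) : Ps a L (X i * f) (g + a i) = Ps a L f g := by
  induction f using MvPolynomial.induction_on' with
  | monomial m c =>
    rw [X, monomial_mul, one_mul, Ps_apply, Ps_apply, Th_monomial, Th_monomial, hg, map_add,
      map_add, sg_single, one_smul, Finsupp.degree_single]
    by_cases h1 : m.degree = L g
    · rw [if_pos h1, if_pos (by omega)]
      by_cases h2 : sg a m = g
      · subst h2
        rw [add_comm (a i)]; simp
      · rw [Pi.single_eq_of_ne (Ne.symm h2), Pi.single_eq_of_ne]
        intro h3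
        apply h2
        rw [add_comm g] at h3
        exact (add_left_cancel h3).symm
    · rw [if_neg h1, if_neg (by omega)]; rfl
  | add p q hp hq => rw [mul_add, map_add, Pi.add_apply, hp, hq, map_add, Pi.add_apply]

/-- The socle of the Artinian reduction is one-dimensional when every element other than `e`
can be lengthened. -/
theorem Setup.socle (s : Setup a j0 I J) (h : Len a L) (hj : a j0 = 0) (e : G)
    (hmax : ∀ g, L g ≤ L e) (hup : ∀ g, g ≠ e → ∃ i, L (g + a i) = L g + 1) :
    ∃ g : MvPolynomial ι ℂ, g ∉ J ∧ (∀ j, X j * g ∈ J) ∧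
      ∀ f : MvPolynomial ι ℂ, (∀ j, X j * f ∈ J) → ∃ c : ℂ, f - C c * g ∈ J := by
  refine ⟨monomial (mon h e) 1, ?_, ?_, ?_⟩
  · rw [s.mem_iff h hj, Ps_monomial, sg_mon, deg_mon, if_pos rfl]
    intro h1
    have := congrFun h1 e
    simp at this
  · intro j
    rw [s.mem_iff h hj, X, monomial_mul, Ps_monomial, if_neg]
    rw [map_add, map_add, sg_single, sg_mon, deg_mon, Finsupp.degree_single]
    have := hmax (1 • a j + e)
    omega
  · intro f hf
    refine ⟨Ps a L f e, ?_⟩
    rw [s.mem_iff h hj, C_mul_monomial, mul_one, map_sub, Ps_monomial, sg_mon, deg_mon,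
      if_pos rfl]
    ext g
    by_cases hg : g = e
    · subst hg; simp
    · obtain ⟨i, hi⟩ := hup g hg
      have h1 := (s.mem_iff h hj _).1 (hf i)
      have h2 := Ps_X_mul_apply L i g hi f
      rw [h1] at h2
      simp [Pi.single_eq_of_ne hg, ← h2]

/-- the h-vector counts elements of given length -/
theorem Setup.hvec (s : Setup a j0 I J) (h : Len a L) (hj : a j0 = 0) (i : ℕ)
    (H M : Submodule ℂ (MvPolynomial ι ℂ)) (hH : ∀ f, f ∈ H ↔ f.IsHomogeneous i)
    (hM : ∀ f, f ∈ M ↔ (f.IsHomogeneous i ∧ f ∈ J)) :
    Module.finrank ℂ H - Module.finrank ℂ M = (Finset.univ.filter fun g => L g = i).card := by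
  have hHe : H = homogeneousSubmodule ι ℂ i := by
    ext f; rw [hH, mem_homogeneousSubmodule]
  have : Module.Finite ℂ H := by
    rw [hHe]
    exact Module.Finite.iff_fg.2 (homogeneousSubmodule_fg ι ℂ i)
  have hker : M = (LinearMap.ker ((Ps a L).domRestrict H)).map H.subtype := by
    ext f
    rw [hM, Submodule.mem_map]
    constructor
    · rintro ⟨h1, h2⟩
      refine ⟨⟨f, (hH f).2 h1⟩, ?_, rfl⟩
      rw [LinearMap.mem_ker, LinearMap.domRestrict_apply]
      exact (s.mem_iff h hj f).1 h2
    · rintro ⟨⟨f', hf'⟩, h1, rfl⟩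
      rw [LinearMap.mem_ker, LinearMap.domRestrict_apply] at h1
      exact ⟨(hH _).1 hf', (s.mem_iff h hj _).2 h1⟩
  have hMk : Module.finrank ℂ M = Module.finrank ℂ (LinearMap.ker ((Ps a L).domRestrict H)) := by
    rw [hker]
    exact Submodule.finrank_map_subtype_eq _ _
  have hrn := LinearMap.finrank_range_add_finrank_ker ((Ps a L).domRestrict H)
  have hrange : LinearMap.range ((Ps a L).domRestrict H) =
      Submodule.span ℂ (Set.range fun g : {g // L g = i} => (Pi.single (g : G) (1 : ℂ) : G → ℂ)) := by
    apply le_antisymm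
    · rintro _ ⟨⟨f, hf⟩, rfl⟩
      rw [LinearMap.domRestrict_apply]
      show Ps a L f ∈ _
      rw [← MvPolynomial.support_sum_monomial_coeff f, map_sum]
      refine Submodule.sum_mem _ fun m hm => ?_
      rw [Ps_monomial]
      split_ifs with h1
      · have h2 : m.degree = i := by
          have h3 := (hH f).1 hf
          rw [MvPolynomial.mem_support_iff] at hm
          have h4 := h3 hm
          rw [← h4, Finsupp.degree_eq_weight_one]
          rfl
        have h5 : (Pi.single (sg a m) (coeff m f) : G → ℂ) =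
            coeff m f • (Pi.single (sg a m) (1 : ℂ) : G → ℂ) := by
          ext g
          by_cases hg : g = sg a m
          · subst hg; simp
          · simp [Pi.single_eq_of_ne hg]
        rw [h5]
        refine Submodule.smul_mem _ _ (Submodule.subset_span ?_)
        exact ⟨⟨sg a m, by rw [← h1, h2]⟩, rfl⟩
      · exact Submodule.zero_mem _
    · rw [Submodule.span_le]
      rintro _ ⟨⟨g, hg⟩, rfl⟩
      have h1 : (monomial (mon h g) (1 : ℂ)) ∈ H := by
        rw [hH]
        apply isHomogeneous_monomial
        rw [deg_mon, hg]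
      refine ⟨⟨monomial (mon h g) 1, h1⟩, ?_⟩
      rw [LinearMap.domRestrict_apply]
      show Ps a L (monomial (mon h g) 1) = _
      rw [Ps_monomial, sg_mon, deg_mon, if_pos rfl]
  have hrk : Module.finrank ℂ (LinearMap.range ((Ps a L).domRestrict H)) =
      (Finset.univ.filter fun g => L g = i).card := by
    rw [hrange, finrank_span_eq_card]
    · rw [Fintype.card_subtype]
    · have h1 := (Pi.basisFun ℂ G).linearIndependent
      have h2 := h1.comp (fun g : {g // L g = i} => (g : G)) Subtype.val_injective
      convert h2 using 1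
      ext g
      simp [Pi.basisFun_apply]
  omega

end

end Pool.Agent.Helper5.GorPts
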