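import Mathlib

/-!
Elementary facts on ranks of square matrices over a field.
-/

namespace Pool.Agent.Helper5

open Module Matrix

variable {K : Type*} [Field K] {w R : ℕ}

theorem exists_mul_eq_one_of_le_rank (N : Matrix (Fin w) (Fin w) K) (h : R ≤ N.rank) :
    ∃ (U : Matrix (Fin R) (Fin w) K) (V : Matrix (Fin w) (Fin R) K), U * N * V = 1 := by
  obtain ⟨V0, U0, e, -, -, hN⟩ := Matrix.exists_rank_normal_form N
  refine ⟨V0.submatrix (fun i => e.symm (Sum.inl (Fin.castLE h i))) id,
    U0.submatrix id (fun i => e.symm (Sum.inl (Fin.castLE h i))), ?_⟩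
  have h1 : V0.submatrix (fun i => e.symm (Sum.inl (Fin.castLE h i))) id * N *
      U0.submatrix id (fun i => e.symm (Sum.inl (Fin.castLE h i))) =
      (V0 * N * U0).submatrix (fun i => e.symm (Sum.inl (Fin.castLE h i)))
        (fun i => e.symm (Sum.inl (Fin.castLE h i))) := by
    ext i j
    simp [Matrix.mul_apply, Matrix.submatrix_apply]
  rw [h1, hN]
  ext i j
  simp only [Matrix.submatrix_apply, Equiv.apply_symm_apply, Matrix.fromBlocks_apply₁₁,
    Matrix.one_apply]
  congr 1
  simp [Fin.ext_iff]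

theorem le_rank_of_det_ne_zero {N : Matrix (Fin w) (Fin w) K} (U : Matrix (Fin R) (Fin w) K)
    (V : Matrix (Fin w) (Fin R) K) (h : (U * N * V).det ≠ 0) : R ≤ N.rank := by
  have h1 : (U * N * V).rank = R := by
    have := Matrix.rank_of_det_ne_zero h
    simpa using this
  calc R = (U * N * V).rank := h1.symm
    _ ≤ (U * N).rank := Matrix.rank_mul_le_left _ _
    _ ≤ N.rank := Matrix.rank_mul_le_right _ _

theorem exists_right_of_rank_le (E F : Matrix (Fin w) (Fin w) K) (h : E.rank ≤ (E * F).rank) :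
    ∃ Z, E * F * Z = E := by
  have hle : LinearMap.range (E * F).mulVecLin ≤ LinearMap.range E.mulVecLin := by
    rw [Matrix.mulVecLin_mul]
    exact LinearMap.range_comp_le_range _ _
  have heq : LinearMap.range (E * F).mulVecLin = LinearMap.range E.mulVecLin :=
    Submodule.eq_of_le_of_finrank_le hle h
  have hcol : ∀ j : Fin w, ∃ z : Fin w → K, (E * F) *ᵥ z = E *ᵥ (Pi.single j 1) := by
    intro j
    have : E *ᵥ (Pi.single j 1) ∈ LinearMap.range (E * F).mulVecLin := by
      rw [heq]; exact ⟨_, rfl⟩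
    obtain ⟨z, hz⟩ := this
    exact ⟨z, hz⟩
  choose z hz using hcol
  refine ⟨Matrix.of (fun i j => z j i), ?_⟩
  ext i j
  have := congrFun (hz j) i
  rw [Matrix.mul_apply]
  simp only [Matrix.mulVec, dotProduct, Matrix.of_apply] at this ⊢
  rw [this]
  simp [Pi.single_apply]

theorem exists_left_of_rank_le (X Y : Matrix (Fin w) (Fin w) K) (h : Y.rank ≤ (X * Y).rank) :
    ∃ Z, Z * (X * Y) = Y := by
  have h' : (Yᵀ).rank ≤ (Yᵀ * Xᵀ).rank := by
    rw [← Matrix.transpose_mul, Matrix.rank_transpose, Matrix.rank_transpose]; exact h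
  obtain ⟨Z, hZ⟩ := exists_right_of_rank_le _ _ h'
  refine ⟨Zᵀ, ?_⟩
  have := congrArg Matrix.transpose hZ
  simpa [Matrix.transpose_mul] using this

/-- If `rank (X Y) = rank Y` then multiplying `Y` on the right does not lose more rank. -/
theorem rank_mul_le_of_rank_le (X Y W : Matrix (Fin w) (Fin w) K) (h : Y.rank ≤ (X * Y).rank) :
    (Y * W).rank ≤ (X * Y * W).rank := by
  obtain ⟨Z, hZ⟩ := exists_left_of_rank_le X Y h
  calc (Y * W).rank = (Z * (X * Y * W)).rank := by
        rw [← Matrix.mul_assoc, hZ]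
    _ ≤ _ := Matrix.rank_mul_le_right _ _

theorem eq_zero_of_rank_eq_zero (N : Matrix (Fin w) (Fin w) K) (h : N.rank = 0) : N = 0 := by
  have h1 : LinearMap.range N.mulVecLin = ⊥ := by
    rw [← Submodule.finrank_eq_zero (R := K)]; exact h
  rw [LinearMap.range_eq_bot] at h1
  ext i j
  have := congrFun (congrArg (fun f => f (Pi.single j 1)) h1) i
  simpa using this

end Pool.Agent.Helper5
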