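import Pool.Agent.Helper5.Chain
import Pool.Agent.Helper5.MatRank

/-!
Products of layers of an oblivious branching program, evaluated at points, generic ranks.
-/

namespace Pool.Agent.Helper5

open Module Matrix

variable {K : Type*} [Field K] {w n : ℕ}

/-- the layer `l` evaluated at the point `g` -/
def ev (M : ℕ → Matrix (Fin w) (Fin w) (Polynomial K)) (ν : ℕ → Fin n) (g : Fin n → K) (l : ℕ) :
    Matrix (Fin w) (Fin w) K :=
  (M l).map (Polynomial.eval (g (ν l)))

/-- product of the layers `a ≤ l < b` evaluated at the point `g` -/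
def P (M : ℕ → Matrix (Fin w) (Fin w) (Polynomial K)) (ν : ℕ → Fin n) (g : Fin n → K) (a b : ℕ) :
    Matrix (Fin w) (Fin w) K := seg (ev M ν g) a b

variable (M : ℕ → Matrix (Fin w) (Fin w) (Polynomial K)) (ν : ℕ → Fin n)

theorem P_self (g : Fin n → K) (a : ℕ) : P M ν g a a = 1 := seg_self _ _

theorem P_mul (g : Fin n → K) {a b c : ℕ} (h1 : a ≤ b) (h2 : b ≤ c) :
    P M ν g a b * P M ν g b c = P M ν g a c := seg_mul _ h1 h2

theorem P_congr {g g' : Fin n → K} {a b : ℕ} (h : ∀ l, a ≤ l → l < b → g (ν l) = g' (ν l)) :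
    P M ν g a b = P M ν g' a b := by
  apply seg_congr
  intro l h1 h2
  unfold ev
  rw [h l h1 h2]

/-- generic rank of the product of the layers `a ≤ l < b` -/
noncomputable def rho (a b : ℕ) : ℕ := by
  classical
  exact Nat.findGreatest (fun r => ∃ g : Fin n → K, r ≤ (P M ν g a b).rank) w

theorem rank_le_rho (g : Fin n → K) (a b : ℕ) : (P M ν g a b).rank ≤ rho M ν a b := by
  classical
  unfold rho
  apply Nat.le_findGreatest
  · exact Matrix.rank_le_width _
  · exact ⟨g, le_rfl⟩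

theorem exists_rank_eq_rho (a b : ℕ) : ∃ g : Fin n → K, (P M ν g a b).rank = rho M ν a b := by
  classical
  have h : ∃ g : Fin n → K, rho M ν a b ≤ (P M ν g a b).rank := by
    unfold rho
    exact Nat.findGreatest_spec (P := fun r => ∃ g : Fin n → K, r ≤ (P M ν g a b).rank)
      (Nat.zero_le w) ⟨fun _ => 0, Nat.zero_le _⟩
  obtain ⟨g, hg⟩ := h
  exact ⟨g, le_antisymm (rank_le_rho M ν g a b) hg⟩

theorem rho_le (a b : ℕ) : rho M ν a b ≤ w := by
  obtain ⟨g, hg⟩ := exists_rank_eq_rho M ν a b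
  rw [← hg]; exact Matrix.rank_le_width _

theorem rho_self (a : ℕ) : rho M ν a a = w := by
  obtain ⟨g, hg⟩ := exists_rank_eq_rho M ν a a
  rw [← hg, P_self]; simp

theorem rho_anti {i i' j' j : ℕ} (h1 : i ≤ i') (h2 : i' ≤ j') (h3 : j' ≤ j) :
    rho M ν i j ≤ rho M ν i' j' := by
  obtain ⟨g, hg⟩ := exists_rank_eq_rho M ν i j
  refine le_trans ?_ (rank_le_rho M ν g i' j')
  rw [← hg, ← P_mul M ν g (h1.trans h2) h3, ← P_mul M ν g h1 h2]
  exact (Matrix.rank_mul_le_left _ _).trans (Matrix.rank_mul_le_right _ _)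

section Poly

variable {σ : Type*}

/-- polynomial maps into `K^n` -/
def IsPolyMap (x : (σ → K) → (Fin n → K)) : Prop :=
  ∃ X : Fin n → MvPolynomial σ K, ∀ s i, x s i = MvPolynomial.eval s (X i)

theorem seg_map {A B : Type*} [Semiring A] [Semiring B] (φ : A →+* B)
    (f : ℕ → Matrix (Fin w) (Fin w) A) (a b : ℕ) :
    (seg f a b).map φ = seg (fun l => (f l).map φ) a b := by
  have : ∀ N : Matrix (Fin w) (Fin w) A, N.map φ = φ.mapMatrix N := fun N => rfl
  unfold seg
  rw [this, map_list_prod, List.map_map]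
  rfl

theorem det_poly {R : ℕ} {x : (σ → K) → (Fin n → K)} (hx : IsPolyMap x)
    (U : Matrix (Fin R) (Fin w) K) (V : Matrix (Fin w) (Fin R) K) (a b : ℕ) :
    ∃ p : MvPolynomial σ K, ∀ s, MvPolynomial.eval s p = (U * P M ν (x s) a b * V).det := by
  obtain ⟨X, hX⟩ := hx
  set N : ℕ → Matrix (Fin w) (Fin w) (MvPolynomial σ K) :=
    fun l => (M l).map (Polynomial.aeval (X (ν l))) with hN
  refine ⟨(U.map (MvPolynomial.C : K →+* MvPolynomial σ K) * seg N a b *
    V.map (MvPolynomial.C : K →+* MvPolynomial σ K)).det, fun s => ?_⟩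
  rw [RingHom.map_det, RingHom.mapMatrix_apply]
  congr 1
  rw [Matrix.map_mul, Matrix.map_mul, seg_map]
  congr 1
  · congr 1
    · ext i j; simp
    · unfold P
      apply seg_congr
      intro l _ _
      unfold ev
      ext i j
      simp only [hN, Matrix.map_apply]
      rw [hX, Polynomial.aeval_def, Polynomial.hom_eval₂]
      have : (MvPolynomial.eval s).comp (algebraMap K (MvPolynomial σ K)) = RingHom.id K := by
        ext x; simp
      rw [this, Polynomial.eval₂_id]
  · ext i j; simp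

theorem exists_common_poly [Infinite K] {ι : Type*} (J : Finset ι) (p : ι → MvPolynomial σ K)
    (hp : ∀ j ∈ J, ∃ s, MvPolynomial.eval s (p j) ≠ 0) :
    ∃ s, ∀ j ∈ J, MvPolynomial.eval s (p j) ≠ 0 := by
  have h1 : ∏ j ∈ J, p j ≠ 0 := by
    rw [Finset.prod_ne_zero_iff]
    intro j hj h0
    obtain ⟨s, hs⟩ := hp j hj
    rw [h0] at hs
    simp at hs
  have h2 : ∃ s, MvPolynomial.eval s (∏ j ∈ J, p j) ≠ 0 := by
    by_contra hcon
    push Not at hcon
    apply h1
    apply MvPolynomial.funext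
    intro s
    rw [hcon s]; simp
  obtain ⟨s, hs⟩ := h2
  refine ⟨s, fun j hj h0 => hs ?_⟩
  rw [map_prod]
  exact Finset.prod_eq_zero hj h0

end Poly

end Pool.Agent.Helper5
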