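import Pool.Agent.Helper5.Layers

/-!
Induction on the generic rank of intervals of layers.
-/

namespace Pool.Agent.Helper5

open Module Matrix

variable {K : Type*} [Field K] {w n : ℕ}
variable (M : ℕ → Matrix (Fin w) (Fin w) (Polynomial K)) (ν : ℕ → Fin n)

/-- `x'` differs from `g` in at most `κ` coordinates and makes the minor nonzero -/
def Near (κ : ℕ) (g : Fin n → K) {R : ℕ} (U : Matrix (Fin R) (Fin w) K)
    (V : Matrix (Fin w) (Fin R) K) (a b : ℕ) : Prop :=
  ∃ (x' : Fin n → K) (S : Finset (Fin n)), S.card ≤ κ ∧ (∀ i, i ∉ S → x' i = g i) ∧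
    (U * P M ν x' a b * V).det ≠ 0

/-- the critical property -/
def Crit (N κ : ℕ) : Prop :=
  ∀ (γ : Fin n → K) (a b : ℕ), a ≤ b → b ≤ N →
    (∀ a' b', a < a' → a' ≤ b' → b' < b → rho M ν a' b' ≤ (P M ν γ a' b').rank) →
    ∀ (R : ℕ), R ≤ w → ∀ (U : Matrix (Fin R) (Fin w) K) (V : Matrix (Fin w) (Fin R) K),
      (∃ x, (U * P M ν x a b * V).det ≠ 0) → Near M ν κ γ U V a b

theorem level (N κ κ' : ℕ) (hcrit : Crit M ν N κ) (G : ℕ → Set (Fin n → K))
    (hne : (G 0).Nonempty)
    (hmono : ∀ c c', c ≤ c' → G c ⊆ G c')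
    (hcommon : ∀ c (J : Finset (ℕ × ℕ)) (r : ℕ × ℕ → ℕ),
      (∀ ab ∈ J, ∃ g ∈ G c, r ab ≤ (P M ν g ab.1 ab.2).rank) →
      ∃ g ∈ G c, ∀ ab ∈ J, r ab ≤ (P M ν g ab.1 ab.2).rank)
    (hstep : ∀ c, ∀ g ∈ G c, ∀ (a b : ℕ), a ≤ b → b ≤ N → ∀ (R : ℕ), R ≤ w →
      ∀ (U : Matrix (Fin R) (Fin w) K) (V : Matrix (Fin w) (Fin R) K),
      Near M ν κ g U V a b → ∃ g' ∈ G (c + κ'), (U * P M ν g' a b * V).det ≠ 0) :
    ∀ m, m ≤ w → ∃ γ ∈ G (m * κ'), ∀ a b, a ≤ b → b ≤ N → w + 1 ≤ rho M ν a b + m →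
      rho M ν a b ≤ (P M ν γ a b).rank := by
  classical
  -- reduction: a point for each interval gives a common point
  have hred : ∀ m, (∀ a b, a ≤ b → b ≤ N → w + 1 ≤ rho M ν a b + m →
      ∃ γ ∈ G (m * κ'), rho M ν a b ≤ (P M ν γ a b).rank) →
      ∃ γ ∈ G (m * κ'), ∀ a b, a ≤ b → b ≤ N → w + 1 ≤ rho M ν a b + m →
      rho M ν a b ≤ (P M ν γ a b).rank := by
    intro m h
    set J : Finset (ℕ × ℕ) := ((Finset.range (N + 1)) ×ˢ (Finset.range (N + 1))).filter
      (fun ab => ab.1 ≤ ab.2 ∧ w + 1 ≤ rho M ν ab.1 ab.2 + m) with hJ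
    obtain ⟨g, hg, hgJ⟩ := hcommon (m * κ') J (fun ab => rho M ν ab.1 ab.2) (by
      intro ab hab
      rw [hJ, Finset.mem_filter, Finset.mem_product, Finset.mem_range, Finset.mem_range] at hab
      exact h ab.1 ab.2 hab.2.1 (by omega) hab.2.2)
    refine ⟨g, hg, fun a b hab hbN hr => hgJ (a, b) ?_⟩
    rw [hJ, Finset.mem_filter, Finset.mem_product, Finset.mem_range, Finset.mem_range]
    exact ⟨⟨by simp only; omega, by simp only; omega⟩, hab, hr⟩
  intro m
  induction m with
  | zero =>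
    intro _
    obtain ⟨g, hg⟩ := hne
    refine ⟨g, by simpa using hg, fun a b _ _ h => ?_⟩
    have := rho_le M ν a b
    omega
  | succ m ih =>
    intro hm
    obtain ⟨γ, hγ, hγgood⟩ := ih (by omega)
    apply hred
    -- strong induction on length
    have key : ∀ len a b, b - a = len → a ≤ b → b ≤ N → w + 1 ≤ rho M ν a b + (m + 1) →
        ∃ γ ∈ G ((m + 1) * κ'), rho M ν a b ≤ (P M ν γ a b).rank := by
      intro len
      induction len using Nat.strong_induction_on with
      | _ len IH =>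
        intro a b hlen hab hbN hr
        by_cases hlow : w + 1 ≤ rho M ν a b + m
        · exact ⟨γ, hmono _ _ (Nat.mul_le_mul_right _ (Nat.le_succ m)) hγ,
            hγgood a b hab hbN hlow⟩
        have hrw : rho M ν a b = w - m := by omega
        by_cases hA : ∃ a' b', a < a' ∧ a' ≤ b' ∧ b' < b ∧ rho M ν a' b' = w - m
        · obtain ⟨a', b', h1, h2, h3, h4⟩ := hA
          have r1 : rho M ν a b' = w - m := by
            apply le_antisymm
            · rw [← h4]; exact rho_anti M ν h1.le h2 le_rfl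
            · rw [← hrw]; exact rho_anti M ν le_rfl (h1.le.trans h2) h3.le
          have r2 : rho M ν a' b = w - m := by
            apply le_antisymm
            · rw [← h4]; exact rho_anti M ν le_rfl h2 h3.le
            · rw [← hrw]; exact rho_anti M ν h1.le (h2.trans h3.le) le_rfl
          obtain ⟨g, hg, hgJ⟩ := hcommon ((m + 1) * κ') {(a, b'), (a', b), (a', b')}
            (fun ab => rho M ν ab.1 ab.2) (by
              intro ab hab'
              simp only [Finset.mem_insert, Finset.mem_singleton] at hab'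
              rcases hab' with rfl | rfl | rfl
              · exact IH (b' - a) (by omega) a b' rfl (by omega) (by omega) (by omega)
              · exact IH (b - a') (by omega) a' b rfl (by omega) (by omega) (by omega)
              · exact IH (b' - a') (by omega) a' b' rfl (by omega) (by omega) (by omega))
          refine ⟨g, hg, ?_⟩
          have g1 := hgJ (a, b') (by simp)
          have g2 := hgJ (a', b) (by simp)
          simp only at g1 g2
          have e1 : P M ν g a a' * P M ν g a' b' = P M ν g a b' := P_mul M ν g h1.le h2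
          have e2 : P M ν g a' b' * P M ν g b' b = P M ν g a' b := P_mul M ν g h2 h3.le
          have e3 : P M ν g a a' * P M ν g a' b' * P M ν g b' b = P M ν g a b := by
            rw [e1]; exact P_mul M ν g (h1.le.trans h2) h3.le
          have hle := rank_mul_le_of_rank_le (P M ν g a a') (P M ν g a' b') (P M ν g b' b) (by
            rw [e1]
            calc (P M ν g a' b').rank ≤ rho M ν a' b' := rank_le_rho M ν g a' b'
              _ = rho M ν a b' := by rw [h4, r1]
              _ ≤ _ := g1)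
          rw [e2, e3] at hle
          calc rho M ν a b = rho M ν a' b := by rw [hrw, r2]
            _ ≤ (P M ν g a' b).rank := g2
            _ ≤ _ := hle
        · push Not at hA
          obtain ⟨x, hx⟩ := exists_rank_eq_rho M ν a b
          obtain ⟨U, V, hUV⟩ := exists_mul_eq_one_of_le_rank (P M ν x a b) hx.ge
          have hgood : ∀ a' b', a < a' → a' ≤ b' → b' < b →
              rho M ν a' b' ≤ (P M ν γ a' b').rank := by
            intro a' b' h1 h2 h3
            apply hγgood a' b' h2 (by omega)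
            have h4 := hA a' b' h1 h2 h3
            have h5 : rho M ν a b ≤ rho M ν a' b' := rho_anti M ν h1.le h2 h3.le
            omega
          have hnear := hcrit γ a b hab hbN hgood (rho M ν a b) (rho_le M ν a b) U V
            ⟨x, by rw [hUV, Matrix.det_one]; exact one_ne_zero⟩
          obtain ⟨g', hg', hdet⟩ := hstep (m * κ') γ hγ a b hab hbN _ (rho_le M ν a b) U V hnear
          refine ⟨g', ?_, le_rank_of_det_ne_zero U V hdet⟩
          have : (m + 1) * κ' = m * κ' + κ' := by ring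
          rw [this]; exact hg'
    intro a b hab hbN hr
    exact key _ a b rfl hab hbN hr

/-- **Main abstract theorem**: the family `G` hits. -/
theorem hits (N κ κ' : ℕ) (hcrit : Crit M ν N κ) (G : ℕ → Set (Fin n → K))
    (hne : (G 0).Nonempty)
    (hmono : ∀ c c', c ≤ c' → G c ⊆ G c')
    (hcommon : ∀ c (J : Finset (ℕ × ℕ)) (r : ℕ × ℕ → ℕ),
      (∀ ab ∈ J, ∃ g ∈ G c, r ab ≤ (P M ν g ab.1 ab.2).rank) →
      ∃ g ∈ G c, ∀ ab ∈ J, r ab ≤ (P M ν g ab.1 ab.2).rank)
    (hstep : ∀ c, ∀ g ∈ G c, ∀ (a b : ℕ), a ≤ b → b ≤ N → ∀ (R : ℕ), R ≤ w →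
      ∀ (U : Matrix (Fin R) (Fin w) K) (V : Matrix (Fin w) (Fin R) K),
      Near M ν κ g U V a b → ∃ g' ∈ G (c + κ'), (U * P M ν g' a b * V).det ≠ 0)
    (u v : Fin w → K) (hf : ∃ x, u ⬝ᵥ (P M ν x 0 N *ᵥ v) ≠ 0) :
    ∃ g ∈ G ((w + 1) * κ'), u ⬝ᵥ (P M ν g 0 N *ᵥ v) ≠ 0 := by
  classical
  have hw : 1 ≤ w := by
    by_contra h
    obtain ⟨x, hx⟩ := hf
    apply hx
    have : w = 0 := by omega
    subst this
    simp [dotProduct]
  obtain ⟨γ, hγ, hγgood⟩ := level M ν N κ κ' hcrit G hne hmono hcommon hstep w le_rfl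
  set U : Matrix (Fin 1) (Fin w) K := Matrix.of (fun _ j => u j) with hU
  set V : Matrix (Fin w) (Fin 1) K := Matrix.of (fun i _ => v i) with hV
  have hdet : ∀ g, (U * P M ν g 0 N * V).det = u ⬝ᵥ (P M ν g 0 N *ᵥ v) := by
    intro g
    rw [Matrix.det_fin_one, Matrix.mul_assoc, Matrix.mul_apply]
    simp only [hU, hV, Matrix.of_apply, dotProduct, Matrix.mulVec, Matrix.mul_apply]
  have hpos : ∀ a b, a ≤ b → b ≤ N → 1 ≤ rho M ν a b := by
    intro a b hab hbN
    by_contra hcon
    obtain ⟨x, hx⟩ := hf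
    apply hx
    have h0 : (P M ν x a b).rank = 0 := by
      have := rank_le_rho M ν x a b; omega
    have h1 : (P M ν x 0 N).rank = 0 := by
      have : P M ν x 0 N = P M ν x 0 a * P M ν x a b * P M ν x b N := by
        rw [P_mul M ν x (Nat.zero_le _) hab, P_mul M ν x (Nat.zero_le _) hbN]
      rw [this]
      have h2 := Matrix.rank_mul_le_left (P M ν x 0 a * P M ν x a b) (P M ν x b N)
      have h3 := Matrix.rank_mul_le_right (P M ν x 0 a) (P M ν x a b)
      omega
    have h2 : P M ν x 0 N = 0 := eq_zero_of_rank_eq_zero _ h1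
    rw [h2]; simp
  obtain ⟨x, hx⟩ := hf
  have hnear := hcrit γ 0 N (Nat.zero_le _) le_rfl (fun a' b' _ h2 h3 =>
    hγgood a' b' h2 (by omega) (by have := hpos a' b' h2 (by omega); omega)) 1 hw U V
    ⟨x, by rw [hdet]; exact hx⟩
  obtain ⟨g', hg', hd⟩ := hstep (w * κ') γ hγ 0 N (Nat.zero_le _) le_rfl 1 hw U V hnear
  refine ⟨g', ?_, by rw [← hdet]; exact hd⟩
  have : (w + 1) * κ' = w * κ' + κ' := by ring
  rw [this]; exact hg'

end Pool.Agent.Helper5
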