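import Pool.Agent.Helper5.RepB
import Pool.Agent.Helper61.MM.DefsB

set_option autoImplicit false

/-!
# Existence of replicas
-/

namespace Pool.Agent.Helper5.MM

open MeasureTheory ProbabilityTheory Filter Topology Pool.Agent.Helper60.TJ Pool.Agent.Helper5.Rep
open Pool.Agent.Helper61.MM
open scoped symmDiff

instance sbSt : StandardBorelSpace St := inferInstance

instance sbVl : StandardBorelSpace Vl := StandardBorelSpace.pi_countable (α := fun _ : Gm => St)

instance sbRs : StandardBorelSpace Rs :=
  StandardBorelSpace.pi_countable (α := fun _ : Finset Vx => St)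

/-! ### measurability of the actions -/

theorem meas_sh {α : Type*} [MeasurableSpace α] (u : Vx) : Measurable (sh (α := α) u) :=
  measurable_pi_lambda _ fun e => measurable_pi_apply _

theorem meas_shT (u : Vx) : Measurable (shT u) :=
  measurable_pi_lambda _ fun v => measurable_pi_apply _

theorem meas_vx (S : Vx → Bool) : Measurable (fun T => vx T S) := by
  refine measurable_pi_lambda _ fun v => ?_
  exact (measurable_of_finite (fun b : Bool => xor b (S v))).comp (measurable_pi_apply v)

theorem meas_shE (u : Vx) : Measurable (shE u) :=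
  ((meas_sh u).comp measurable_fst).prodMk ((meas_shT u).comp measurable_snd)

theorem meas_aE (g : Gm) : Measurable (aE g) := by
  refine Measurable.prodMk ?_ ((meas_vx _).comp measurable_snd)
  refine measurable_pi_lambda _ fun e => ?_
  by_cases h : e ∈ g.2
  · simp only [if_pos h]
    exact measurable_swap.comp ((measurable_pi_apply e).comp measurable_fst)
  · simp only [if_neg h]
    exact (measurable_pi_apply e).comp measurable_fst

theorem meas_aV (g : Gm) : Measurable (aV g) :=
  measurable_pi_lambda _ fun g' => measurable_pi_apply _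

theorem meas_shSt (u : Vx) : Measurable (shSt u) := by
  refine Measurable.prodMk ((meas_sh u).comp measurable_fst)
    (Measurable.prodMk ?_ ((meas_sh u).comp (measurable_snd.comp measurable_snd)))
  exact measurable_pi_lambda _ fun D => (measurable_pi_apply _).comp
    (measurable_fst.comp measurable_snd)

theorem meas_shV (u : Vx) : Measurable (shV u) :=
  measurable_pi_lambda _ fun g => (meas_shSt u).comp (measurable_pi_apply _)

theorem meas_spr : Measurable spr :=
  measurable_pi_lambda _ fun e => measurable_snd.comp
    ((measurable_pi_apply e).comp measurable_fst)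

theorem meas_bE0 : Measurable bE0 :=
  (measurable_pi_lambda _ fun e => measurable_fst.comp
    ((measurable_pi_apply e).comp measurable_fst)).prodMk measurable_snd

theorem meas_rs : Measurable rs := measurable_pi_lambda _ fun S => measurable_pi_apply _

/-! ### environments as measurable equivalences -/

theorem shE_neg (u : Vx) (ω : Env) : shE (-u) (shE u ω) = ω := by
  refine Prod.ext ?_ ?_
  · funext e
    simp only [shE, sh]
    congr 2
    simp
  · funext v
    simp only [shE, shT]
    congr 1
    simp

/-- translations of environments -/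
def shEe (u : Vx) : Env ≃ᵐ Env where
  toFun := shE u
  invFun := shE (-u)
  left_inv := shE_neg u
  right_inv := fun ω => by simpa using shE_neg (-u) ω
  measurable_toFun := meas_shE u
  measurable_invFun := meas_shE (-u)

theorem aE_aE (g : Gm) (ω : Env) : aE g (aE g ω) = ω := by
  refine Prod.ext ?_ ?_
  · funext e
    by_cases h : e ∈ g.2
    · simp [aE, h]
    · simp [aE, h]
  · funext v
    simp [aE, vx]

/-- modifications of environments -/
def aEe (g : Gm) : Env ≃ᵐ Env where
  toFun := aE g
  invFun := aE g
  left_inv := aE_aE g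
  right_inv := aE_aE g
  measurable_toFun := meas_aE g
  measurable_invFun := meas_aE g

/-- spare weights and the rest -/
def spe : Env ≃ᵐ (Ed → ℝ) × WT where
  toFun := fun ω => (spr ω, bE0 ω)
  invFun := fun q => (fun e => (q.2.1 e, q.1 e), q.2.2)
  left_inv := fun ω => rfl
  right_inv := fun q => rfl
  measurable_toFun := meas_spr.prodMk meas_bE0
  measurable_invFun := by
    refine Measurable.prodMk ?_ (measurable_snd.comp measurable_snd)
    exact measurable_pi_lambda _ fun e => Measurable.prodMk
      ((measurable_pi_apply e).comp (measurable_fst.comp measurable_snd))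
      ((measurable_pi_apply e).comp measurable_fst)

instance : IsProbabilityMeasure coin := by
  constructor
  simp only [coin, Measure.smul_apply, Measure.add_apply, measure_univ, smul_eq_mul]
  rw [one_add_one_eq_two, ENNReal.inv_mul_cancel (by norm_num) (by norm_num)]

theorem map_bE0 {lam : Measure ℝ} [IsProbabilityMeasure lam] : (PE lam).map bE0 = PB lam := by
  have h1 : bE0 = Prod.map (fun (f : Ed → ℝ × ℝ) e => (f e).1) id := rfl
  rw [h1, ← Measure.map_prod_map _ _ (by fun_prop) measurable_id, Measure.map_id]
  congr 1
  have h2 := Measure.infinitePi_map_pi (X := fun _ : Ed => ℝ × ℝ) (Y := fun _ : Ed => ℝ)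
    (μ := fun _ : Ed => lam.prod lam) (f := fun _ p => p.1) (fun _ => measurable_fst)
  rw [h2]
  congr 1
  funext e
  rw [Measure.map_fst_prod]
  simp

/-! ### existence -/

theorem exists_R {lam : Measure ℝ} (hl : Wgt lam) {Q : Measure (Env × Vl)} (hQ : IsM lam Q) :
    ∃ κ R, IsR lam κ R := by
  have := hl.prob
  have hprob : IsProbabilityMeasure Q := by
    constructor
    have h1 : Q.map Prod.fst Set.univ = 1 := by rw [hQ.fst]; exact measure_univ
    rwa [Measure.map_apply measurable_fst MeasurableSet.univ, Set.preimage_univ] at h1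
  have hm : Measurable (fun p : Env × Vl => (bE0 p.1, rs p.2)) :=
    (meas_bE0.comp measurable_fst).prodMk (meas_rs.comp measurable_snd)
  set Q' : Measure (WT × Rs) := Q.map (fun p => (bE0 p.1, rs p.2)) with hQ'
  have hprob' : IsProbabilityMeasure Q' := Measure.isProbabilityMeasure_map hm.aemeasurable
  have hfst' : Q'.fst = PB lam := by
    rw [hQ', Measure.fst, Measure.map_map measurable_fst hm]
    have h1 : Prod.fst ∘ (fun p : Env × Vl => (bE0 p.1, rs p.2)) = bE0 ∘ Prod.fst := rfl
    rw [h1, ← Measure.map_map meas_bE0 measurable_fst, hQ.fst, map_bE0]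
  have mp1 : MeasurePreserving (fun z : Om => (z.1, z.2.1)) (rep3 Q) Q := by
    refine ⟨by fun_prop, ?_⟩
    have h1 : (fun z : Om => (z.1, z.2.1)) =
      (fun p : Env × (Vl × Vl) => (p.1, p.2.1)) ∘ (fun p : Om => (p.1, (p.2.1, p.2.2.1))) := rfl
    rw [h1, ← Measure.map_map (by fun_prop) (by fun_prop), rep3_map12, rep2_map1]
  have mp2 : MeasurePreserving (fun z : Om => (z.1, z.2.2.1)) (rep3 Q) Q := by
    refine ⟨by fun_prop, ?_⟩
    have h1 : (fun z : Om => (z.1, z.2.2.1)) =
      (fun p : Env × (Vl × Vl) => (p.1, p.2.2)) ∘ (fun p : Om => (p.1, (p.2.1, p.2.2.1))) := rfl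
    rw [h1, ← Measure.map_map (by fun_prop) (by fun_prop), rep3_map12, rep2_map2]
  have mp3 : MeasurePreserving (fun z : Om => (z.1, z.2.2.2)) (rep3 Q) Q := by
    refine ⟨by fun_prop, ?_⟩
    have h1 : (fun z : Om => (z.1, z.2.2.2)) =
      (fun p : Env × (Vl × Vl) => (p.1, p.2.2)) ∘ (fun p : Om => (p.1, (p.2.1, p.2.2.2))) := rfl
    rw [h1, ← Measure.map_map (by fun_prop) (by fun_prop), rep3_map13, rep2_map2]
  refine ⟨Q'.condKernel, rep3 Q, ?_⟩
  constructor
  · infer_instance
  · infer_instance
  · intro u
    have h1 := rep3_invariant (Q := Q) (f := shEe u) (g := fun _ => shV u)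
      ((meas_shV u).comp measurable_snd) (hQ.shift u).map_eq
    refine ⟨?_, h1⟩
    exact ((meas_shE u).comp measurable_fst).prodMk
      (((meas_shV u).comp (measurable_fst.comp measurable_snd)).prodMk
      (((meas_shV u).comp (measurable_fst.comp (measurable_snd.comp measurable_snd))).prodMk
      ((meas_shV u).comp (measurable_snd.comp (measurable_snd.comp measurable_snd)))))
  · intro g
    have h1 := rep3_invariant (Q := Q) (f := aEe g) (g := fun _ => aV g)
      ((meas_aV g).comp measurable_snd) (hQ.act g).map_eq
    refine ⟨?_, h1⟩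
    exact ((meas_aE g).comp measurable_fst).prodMk
      (((meas_aV g).comp (measurable_fst.comp measurable_snd)).prodMk
      (((meas_aV g).comp (measurable_fst.comp (measurable_snd.comp measurable_snd))).prodMk
      ((meas_aV g).comp (measurable_snd.comp (measurable_snd.comp measurable_snd)))))
  · filter_upwards [mp1.quasiMeasurePreserving.ae hQ.ok, mp2.quasiMeasurePreserving.ae hQ.ok,
      mp3.quasiMeasurePreserving.ae hQ.ok] with z h1 h2 h3 i
    fin_cases i
    · exact h1
    · exact h2
    · exact h3
  · have h1 := rep3_map_law (Q := Q) spe meas_rs (PP lam) Q' hQ.indep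
    rw [hfst'] at h1
    exact h1

end Pool.Agent.Helper5.MM
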