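import Pool.Agent.Helper5.Final1

namespace Pool.Agent.Helper5.ObliviousConstWidth

open Pool.Agent.Helper5

theorem result : ∀ w : ℕ, ∃ c : ℕ, c = (w + 1) * ((2 * w ^ w + 1) ^ (w + 1) + 1) ∧
    ∀ n d : ℕ, (ABP.points n c (n * d)).card ≤ ((n * d + 1) * (n * (n * d) + 1)) ^ c ∧
      ∀ f : MvPolynomial (Fin n) ℚ, ABP.Computes w 1 d n f → f ≠ 0 →
        ∃ a ∈ ABP.points n c (n * d), MvPolynomial.eval a f ≠ 0 :=
  fun w => ⟨_, rfl, fun n d => ⟨card_points _ _ _, fun f hf hf0 => hit_readonce w d n f hf hf0⟩⟩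

end Pool.Agent.Helper5.ObliviousConstWidth
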