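import Pool.Agent.Helper5.Replica

/-!
Replicas, continued: images of the copies whose conditional law depends on a part of the
environment only.
-/

namespace Pool.Agent.Helper5.Rep

open MeasureTheory ProbabilityTheory Set
open scoped ENNReal

variable {X Y : Type*} [MeasurableSpace X] [MeasurableSpace Y] [StandardBorelSpace Y] [Nonempty Y]
  {Z : Type*} [MeasurableSpace Z] [StandardBorelSpace Z] [Nonempty Z]
  {A B : Type*} [MeasurableSpace A] [MeasurableSpace B]

/-- conditional law of an image: if it depends on a part of the environment only -/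
theorem condKernel_map_eq {Q : Measure (X × Y)} [IsFiniteMeasure Q] (e : X ≃ᵐ A × B)
    {r : Y → Z} (hr : Measurable r) (α : Measure A) [SFinite α]
    (Q' : Measure (B × Z)) [IsFiniteMeasure Q']
    (h : Q.map (fun p => ((e p.1).1, (e p.1).2, r p.2)) = α.prod Q') :
    Q.fst.map e = α.prod Q'.fst ∧
    ∀ᵐ x ∂Q.fst, (Q.condKernel x).map r = Q'.condKernel (e x).2 := by
  have hT : Measurable (fun p : X × Y => ((e p.1).1, (e p.1).2, r p.2)) := by fun_prop
  have hfst : Q.fst.map e = α.prod Q'.fst := by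
    have h1 : (Q.map (fun p => ((e p.1).1, (e p.1).2, r p.2))).map (fun q => (q.1, q.2.1))
        = Q.fst.map e := by
      rw [Measure.map_map (by fun_prop) hT, Measure.fst, Measure.map_map e.measurable
        measurable_fst]
      rfl
    rw [← h1, h]
    have h2 : (fun q : A × B × Z => (q.1, q.2.1)) = Prod.map id Prod.fst := by
      ext q <;> rfl
    rw [h2, ← Measure.map_prod_map _ _ measurable_id measurable_fst, Measure.map_id]
    rfl
  refine ⟨hfst, ?_⟩
  set Q'' : Measure (X × Z) := Q.map (fun p => (p.1, r p.2)) with hQ''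
  have hm : Measurable (fun p : X × Y => (p.1, r p.2)) := by fun_prop
  have hfst'' : Q''.fst = Q.fst := by
    rw [hQ'', Measure.fst, Measure.map_map measurable_fst hm]
    rfl
  have k1 : Q'' = Q''.fst.compProd (Q.condKernel.map r) := by
    rw [hfst'']
    ext s hs
    rw [Measure.compProd_apply hs, hQ'', Measure.map_apply hm hs]
    conv_lhs => rw [← disint Q, Measure.compProd_apply (hs.preimage hm)]
    refine lintegral_congr fun x => ?_
    rw [Kernel.map_apply _ hr, Measure.map_apply hr (hs.preimage (by fun_prop))]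
    rfl
  have k2 : Q'' = Q''.fst.compProd (Q'.condKernel.comap (fun x => (e x).2) (by fun_prop)) := by
    rw [hfst'']
    ext s hs
    have hme : Measurable (fun q : A × B × Z => (e.symm (q.1, q.2.1), q.2.2)) := by fun_prop
    have hs' : MeasurableSet ((fun q : A × B × Z => (e.symm (q.1, q.2.1), q.2.2)) ⁻¹' s) :=
      hs.preimage hme
    rw [Measure.compProd_apply hs]
    have e1 : Q'' s = (α.prod Q') ((fun q : A × B × Z => (e.symm (q.1, q.2.1), q.2.2)) ⁻¹' s) := by
      rw [← h, Measure.map_apply hT hs', hQ'', Measure.map_apply hm hs]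
      congr 1
      ext p
      simp
    rw [e1]
    have hmeas : Measurable (fun q : A × B =>
        Q'.condKernel q.2 (Prod.mk (e.symm q) ⁻¹' s)) := by
      have := Kernel.measurable_kernel_prodMk_left
        (κ := Q'.condKernel.comap (fun q : A × B => q.2) measurable_snd)
        (hs.preimage (f := fun q : (A × B) × Z => (e.symm q.1, q.2)) (by fun_prop))
      exact this
    have e2 : ∫⁻ x, (Q'.condKernel.comap (fun x => (e x).2) (by fun_prop)) x
        (Prod.mk x ⁻¹' s) ∂Q.fst
        = ∫⁻ q, Q'.condKernel q.2 (Prod.mk (e.symm q) ⁻¹' s) ∂(α.prod Q'.fst) := by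
      rw [← hfst, lintegral_map hmeas e.measurable]
      refine lintegral_congr fun x => ?_
      rw [Kernel.comap_apply, e.symm_apply_apply]
    rw [e2, lintegral_prod _ hmeas.aemeasurable, Measure.prod_apply hs']
    refine lintegral_congr fun a => ?_
    conv_lhs => rw [← disint Q', Measure.compProd_apply (hs'.preimage (by fun_prop))]
    rfl
  have : IsFiniteKernel (Q.condKernel.map r) := inferInstance
  have u1 := eq_condKernel_of_measure_eq_compProd _ k1
  have u2 := eq_condKernel_of_measure_eq_compProd _ k2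
  rw [hfst''] at u1 u2
  filter_upwards [u1, u2] with x h1 h2
  rw [Kernel.map_apply _ hr] at h1
  rw [h1, ← h2, Kernel.comap_apply]

/-- the law of the images of the three copies -/
theorem rep3_map_law {Q : Measure (X × Y)} [IsFiniteMeasure Q] (e : X ≃ᵐ A × B)
    {r : Y → Z} (hr : Measurable r) (α : Measure A) [IsProbabilityMeasure α]
    (Q' : Measure (B × Z)) [IsFiniteMeasure Q']
    (h : Q.map (fun p => ((e p.1).1, (e p.1).2, r p.2)) = α.prod Q') :
    (rep3 Q).map (fun z => ((e z.1).1, (e z.1).2, r z.2.1, r z.2.2.1, r z.2.2.2)) =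
      α.prod (Q'.fst.compProd (Q'.condKernel ×ₖ (Q'.condKernel ×ₖ Q'.condKernel))) := by
  obtain ⟨hfst, hker⟩ := condKernel_map_eq e hr α Q' h
  have hT : Measurable (fun z : X × (Y × Y × Y) =>
      ((e z.1).1, (e z.1).2, r z.2.1, r z.2.2.1, r z.2.2.2)) := by fun_prop
  ext s hs
  rw [Measure.map_apply hT hs, rep3_apply Q (hs.preimage hT), Measure.prod_apply hs]
  have hmeas : Measurable (fun q : A × B =>
      ((Q'.condKernel q.2).prod ((Q'.condKernel q.2).prod (Q'.condKernel q.2)))
        ((fun z => (q.1, q.2, z)) ⁻¹' s)) := by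
    have := Kernel.measurable_kernel_prodMk_left
      (κ := (Q'.condKernel ×ₖ (Q'.condKernel ×ₖ Q'.condKernel)).comap
        (fun q : A × B => q.2) measurable_snd)
      (hs.preimage (f := fun q : (A × B) × (Z × Z × Z) => (q.1.1, q.1.2, q.2)) (by fun_prop))
    simp only [Kernel.comap_apply, Kernel.prod_apply] at this
    exact this
  have e1 : ∫⁻ x, ((Q.condKernel x).prod ((Q.condKernel x).prod (Q.condKernel x)))
      (Prod.mk x ⁻¹' ((fun z : X × (Y × Y × Y) =>
        ((e z.1).1, (e z.1).2, r z.2.1, r z.2.2.1, r z.2.2.2)) ⁻¹' s)) ∂Q.fst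
      = ∫⁻ q, ((Q'.condKernel q.2).prod ((Q'.condKernel q.2).prod (Q'.condKernel q.2)))
        ((fun z => (q.1, q.2, z)) ⁻¹' s) ∂(α.prod Q'.fst) := by
    rw [← hfst, lintegral_map hmeas e.measurable]
    refine lintegral_congr_ae ?_
    filter_upwards [hker] with x hx
    rw [← hx, Measure.map_prod_map _ _ hr hr, Measure.map_prod_map _ _ hr (hr.prodMap hr),
      Measure.map_apply (hr.prodMap (hr.prodMap hr)) (hs.preimage (by fun_prop))]
    rfl
  rw [e1, lintegral_prod _ hmeas.aemeasurable]
  refine lintegral_congr fun a => ?_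
  rw [Measure.compProd_apply (hs.preimage (by fun_prop))]
  refine lintegral_congr fun b => ?_
  rw [Kernel.prod_apply, Kernel.prod_apply]
  rfl

end Pool.Agent.Helper5.Rep

namespace Pool.Agent.Helper5.Rep

open MeasureTheory ProbabilityTheory Set
open scoped ENNReal

section generic

variable {B Z : Type*} [MeasurableSpace B] [MeasurableSpace Z]
  (μ : Measure B) [SFinite μ] (κ : Kernel B Z) [IsMarkovKernel κ]

theorem cp2_apply {s : Set (B × (Z × Z))} (hs : MeasurableSet s) :
    (μ.compProd (κ ×ₖ κ)) s = ∫⁻ x, ((κ x).prod (κ x)) (Prod.mk x ⁻¹' s) ∂μ := by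
  rw [Measure.compProd_apply hs]
  refine lintegral_congr fun x => ?_
  rw [Kernel.prod_apply]

theorem cp3_apply {s : Set (B × (Z × Z × Z))} (hs : MeasurableSet s) :
    (μ.compProd (κ ×ₖ (κ ×ₖ κ))) s =
      ∫⁻ x, ((κ x).prod ((κ x).prod (κ x))) (Prod.mk x ⁻¹' s) ∂μ := by
  rw [Measure.compProd_apply hs]
  refine lintegral_congr fun x => ?_
  rw [Kernel.prod_apply, Kernel.prod_apply]

theorem cp2_swap :
    (μ.compProd (κ ×ₖ κ)).map (fun p => (p.1, (p.2.2, p.2.1))) = μ.compProd (κ ×ₖ κ) := by
  ext s hs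
  rw [Measure.map_apply (by fun_prop) hs, cp2_apply _ _ (hs.preimage (by fun_prop)),
    cp2_apply _ _ hs]
  refine lintegral_congr fun x => ?_
  have : (Prod.mk x ⁻¹' ((fun p : B × (Z × Z) => (p.1, (p.2.2, p.2.1))) ⁻¹' s))
      = Prod.swap ⁻¹' (Prod.mk x ⁻¹' s) := by
    ext ⟨y, y'⟩; simp
  rw [this, ← Measure.map_apply measurable_swap (hs.preimage (by fun_prop)), Measure.prod_swap]

theorem cp3_map12 :
    (μ.compProd (κ ×ₖ (κ ×ₖ κ))).map (fun p => (p.1, (p.2.1, p.2.2.1))) =
      μ.compProd (κ ×ₖ κ) := by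
  ext s hs
  rw [Measure.map_apply (by fun_prop) hs, cp3_apply _ _ (hs.preimage (by fun_prop)),
    cp2_apply _ _ hs]
  refine lintegral_congr fun x => ?_
  have hmap : ((κ x).prod ((κ x).prod (κ x))).map (fun p => (p.1, p.2.1)) =
      (κ x).prod (κ x) := by
    have h1 : (fun p : Z × Z × Z => (p.1, p.2.1)) = Prod.map id Prod.fst := by
      ext p <;> rfl
    rw [h1, ← Measure.map_prod_map _ _ measurable_id measurable_fst, Measure.map_id]
    congr 1
    rw [Measure.map_fst_prod]; simp
  conv_rhs => rw [← hmap, Measure.map_apply (by fun_prop) (hs.preimage (by fun_prop))]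
  rfl

theorem cp3_map13 :
    (μ.compProd (κ ×ₖ (κ ×ₖ κ))).map (fun p => (p.1, (p.2.1, p.2.2.2))) =
      μ.compProd (κ ×ₖ κ) := by
  ext s hs
  rw [Measure.map_apply (by fun_prop) hs, cp3_apply _ _ (hs.preimage (by fun_prop)),
    cp2_apply _ _ hs]
  refine lintegral_congr fun x => ?_
  have hmap : ((κ x).prod ((κ x).prod (κ x))).map (fun p => (p.1, p.2.2)) =
      (κ x).prod (κ x) := by
    have h1 : (fun p : Z × Z × Z => (p.1, p.2.2)) = Prod.map id Prod.snd := by
      ext p <;> rfl
    rw [h1, ← Measure.map_prod_map _ _ measurable_id measurable_snd, Measure.map_id]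
    congr 1
    rw [Measure.map_snd_prod]; simp
  conv_rhs => rw [← hmap, Measure.map_apply (by fun_prop) (hs.preimage (by fun_prop))]
  rfl

theorem cp3_map23 :
    (μ.compProd (κ ×ₖ (κ ×ₖ κ))).map (fun p => (p.1, (p.2.2.1, p.2.2.2))) =
      μ.compProd (κ ×ₖ κ) := by
  ext s hs
  rw [Measure.map_apply (by fun_prop) hs, cp3_apply _ _ (hs.preimage (by fun_prop)),
    cp2_apply _ _ hs]
  refine lintegral_congr fun x => ?_
  have hmap : ((κ x).prod ((κ x).prod (κ x))).map Prod.snd = (κ x).prod (κ x) := by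
    rw [Measure.map_snd_prod]; simp
  conv_rhs => rw [← hmap, Measure.map_apply measurable_snd (hs.preimage (by fun_prop))]
  rfl

end generic

end Pool.Agent.Helper5.Rep
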