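import Mathlib

/-!
Weak limits of probability measures on countable products: tightness, subsequences, closed and
open events, invariance and stable convergence.
-/

namespace Pool.Agent.Helper5.WL

open MeasureTheory Filter Set Topology TopologicalSpace
open scoped ENNReal NNReal BoundedContinuousFunction

/-! ### tightness -/

/-- a set of measures on a countable product is tight if all its coordinate images are -/
theorem tight_pi {ι : Type*} [Countable ι] {E : ι → Type*} [∀ i, TopologicalSpace (E i)]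
    [∀ i, MeasurableSpace (E i)] {S : Set (Measure (∀ i, E i))}
    (h : ∀ i, IsTightMeasureSet ((fun μ : Measure (∀ i, E i) => μ.map (Function.eval i)) '' S)) :
    IsTightMeasureSet S := by
  simp only [isTightMeasureSet_iff_exists_isCompact_measure_compl_le] at h ⊢
  intro ε hε
  obtain ⟨δ, hδ, hsum⟩ := ENNReal.exists_pos_sum_of_countable hε.ne' ι
  choose K hK hKle using fun i => h i (δ i) (by exact_mod_cast hδ i)
  refine ⟨Set.univ.pi K, isCompact_univ_pi hK, fun μ hμ => ?_⟩
  have h1 : (Set.univ.pi K)ᶜ = ⋃ i, Function.eval i ⁻¹' (K i)ᶜ := by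
    ext x
    simp [Set.mem_pi]
  rw [h1]
  refine (measure_iUnion_le _).trans ((ENNReal.tsum_le_tsum fun i => ?_).trans hsum.le)
  have h2 := hKle i _ (mem_image_of_mem _ hμ)
  exact (Measure.le_map_apply (measurable_pi_apply i).aemeasurable _).trans h2

/-- uniform tails give tightness on the line -/
theorem tight_real {S : Set (Measure ℝ)}
    (h : ∀ ε : ℝ≥0∞, 0 < ε → ∃ M : ℝ, ∀ μ ∈ S, μ {x | M < |x|} ≤ ε) : IsTightMeasureSet S := by
  rw [isTightMeasureSet_iff_exists_isCompact_measure_compl_le]
  intro ε hε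
  obtain ⟨M, hM⟩ := h ε hε
  refine ⟨Icc (-M) M, isCompact_Icc, fun μ hμ => ?_⟩
  refine (measure_mono ?_).trans (hM μ hμ)
  intro x hx
  simp only [mem_compl_iff, mem_Icc, ← abs_le, not_le] at hx
  exact hx

/-- tightness by domination: a random variable bounded in absolute value by one of a tight
family -/
theorem tight_real_of_le {Ω : Type*} [MeasurableSpace Ω] {S : Set (Measure Ω)}
    {f g : Ω → ℝ} (hf : Measurable f) (hg : Measurable g)
    (hg' : IsTightMeasureSet ((fun μ : Measure Ω => μ.map g) '' S))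
    (hle : ∀ μ ∈ S, ∀ᵐ ω ∂μ, |f ω| ≤ |g ω|) :
    IsTightMeasureSet ((fun μ : Measure Ω => μ.map f) '' S) := by
  apply tight_real
  intro ε hε
  rw [isTightMeasureSet_iff_exists_isCompact_measure_compl_le] at hg'
  obtain ⟨K, hK, hKle⟩ := hg' ε hε
  obtain ⟨M, hM⟩ := hK.isBounded.subset_closedBall 0
  refine ⟨M, ?_⟩
  rintro _ ⟨μ, hμ, rfl⟩
  have hset : MeasurableSet {x : ℝ | M < |x|} := measurableSet_lt measurable_const (by fun_prop)
  have h1 : (μ.map g) Kᶜ ≤ ε := hKle _ (mem_image_of_mem _ hμ)
  rw [Measure.map_apply hg hK.measurableSet.compl] at h1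
  change (μ.map f) _ ≤ ε
  rw [Measure.map_apply hf hset]
  refine le_trans (measure_mono_ae ?_) h1
  filter_upwards [hle μ hμ] with ω hω hfω
  intro hgω
  have h2 := hM hgω
  simp only [Metric.mem_closedBall, dist_zero_right, Real.norm_eq_abs] at h2
  have h3 : M < |f ω| := hfω
  linarith

/-! ### subsequences -/

theorem exists_subseq {X : Type*} [TopologicalSpace X] [MeasurableSpace X] [BorelSpace X]
    [MetrizableSpace X] [SecondCountableTopology X]
    (μ : ℕ → ProbabilityMeasure X)
    (h : IsTightMeasureSet (range fun n => (μ n : Measure X))) :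
    ∃ φ : ℕ → ℕ, StrictMono φ ∧ ∃ ν : ProbabilityMeasure X, Tendsto (μ ∘ φ) atTop (𝓝 ν) := by
  have hc : IsCompact (closure (range μ)) := by
    apply isCompact_closure_of_isTightMeasureSet
    refine h.subset ?_
    rintro _ ⟨m, ⟨n, rfl⟩, rfl⟩
    exact ⟨n, rfl⟩
  obtain ⟨ν, -, φ, hφ, hlim⟩ := hc.tendsto_subseq (x := μ) fun n => subset_closure ⟨n, rfl⟩
  exact ⟨φ, hφ, ν, hlim⟩

section limits

variable {X : Type*} [TopologicalSpace X] [MeasurableSpace X] [BorelSpace X]
  [PseudoMetrizableSpace X] {μ : ℕ → ProbabilityMeasure X} {ν : ProbabilityMeasure X}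

/-- closed events: lower bounds pass to the limit -/
theorem le_of_closed (hlim : Tendsto μ atTop (𝓝 ν)) {F : Set X} (hF : IsClosed F) {c : ℝ≥0∞}
    (h : ∃ᶠ n in atTop, c ≤ (μ n : Measure X) F) : c ≤ (ν : Measure X) F := by
  have h1 := ProbabilityMeasure.limsup_measure_closed_le_of_tendsto hlim hF
  exact (le_limsup_of_frequently_le h).trans h1

/-- open events: upper bounds pass to the limit -/
theorem le_of_open (hlim : Tendsto μ atTop (𝓝 ν)) {G : Set X} (hG : IsOpen G) {c : ℝ≥0∞}
    (h : ∃ᶠ n in atTop, (μ n : Measure X) G ≤ c) : (ν : Measure X) G ≤ c := by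
  have h1 := ProbabilityMeasure.le_liminf_measure_open_of_tendsto hlim hG
  exact h1.trans (liminf_le_of_frequently_le h)

/-- a closed event whose complement has vanishing probability is almost sure in the limit -/
theorem ae_of_closed (hlim : Tendsto μ atTop (𝓝 ν)) {F : Set X} (hF : IsClosed F)
    (h : Tendsto (fun n => (μ n : Measure X) Fᶜ) atTop (𝓝 0)) : ∀ᵐ x ∂(ν : Measure X), x ∈ F := by
  rw [ae_iff]
  change (ν : Measure X) Fᶜ = 0
  have h1 := ProbabilityMeasure.le_liminf_measure_open_of_tendsto hlim hF.isOpen_compl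
  rw [h.liminf_eq] at h1
  exact le_antisymm h1 zero_le

omit [PseudoMetrizableSpace X] in
/-- images under continuous maps -/
theorem tendsto_map {Y : Type*} [TopologicalSpace Y] [MeasurableSpace Y] [BorelSpace Y]
    (hlim : Tendsto μ atTop (𝓝 ν)) {T : X → Y} (hT : Continuous T) :
    Tendsto (fun n => (μ n).map hT.measurable.aemeasurable) atTop
      (𝓝 (ν.map hT.measurable.aemeasurable)) :=
  ProbabilityMeasure.tendsto_map_of_tendsto_of_continuous μ ν hlim hT

omit [PseudoMetrizableSpace X] in
/-- approximate invariance (integrals of bounded continuous functions) becomes invariance in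
the limit -/
theorem map_eq_of_integral [HasOuterApproxClosed X]
    (hlim : Tendsto μ atTop (𝓝 ν)) {T : X → X} (hT : Continuous T)
    (h : ∀ f : X →ᵇ ℝ, Tendsto (fun n => ∫ x, f (T x) ∂(μ n : Measure X) -
      ∫ x, f x ∂(μ n : Measure X)) atTop (𝓝 0)) :
    (ν : Measure X).map T = ν := by
  have : IsProbabilityMeasure ((ν : Measure X).map T) :=
    Measure.isProbabilityMeasure_map hT.measurable.aemeasurable
  apply ext_of_forall_integral_eq_of_IsFiniteMeasure
  intro f
  rw [integral_map hT.measurable.aemeasurable f.continuous.aestronglyMeasurable]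
  have h1 := (ProbabilityMeasure.tendsto_iff_forall_integral_tendsto.1 hlim) f
  have h2 := (ProbabilityMeasure.tendsto_iff_forall_integral_tendsto.1 hlim)
    (f.compContinuous ⟨T, hT⟩)
  have h3 := h2.sub h1
  have h4 := tendsto_nhds_unique h3 (h f)
  simp only [BoundedContinuousFunction.compContinuous_apply, ContinuousMap.coe_mk] at h4
  linarith [h4]

omit [PseudoMetrizableSpace X] in
theorem abs_integral_sub_le (m m' : Measure X) [IsProbabilityMeasure m] [IsProbabilityMeasure m']
    {δ : ℝ} (h : ∀ s, MeasurableSet s → |m'.real s - m.real s| ≤ δ) (f : X →ᵇ ℝ) :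
    |∫ x, f x ∂m' - ∫ x, f x ∂m| ≤ 2 * ‖f‖ * δ := by
  have hδ : 0 ≤ δ := (abs_nonneg _).trans (h ∅ MeasurableSet.empty)
  -- nonnegative functions first
  have hpos : ∀ f : X →ᵇ ℝ, (∀ x, 0 ≤ f x) →
      |∫ x, f x ∂m' - ∫ x, f x ∂m| ≤ ‖f‖ * δ := by
    intro f hf
    rw [BoundedContinuousFunction.integral_eq_integral_meas_le f m (Eventually.of_forall hf),
      BoundedContinuousFunction.integral_eq_integral_meas_le f m' (Eventually.of_forall hf)]
    have hanti : ∀ (n : Measure X) [IsProbabilityMeasure n],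
        IntegrableOn (fun t => n.real {a | t ≤ f a}) (Ioc 0 ‖f‖) := by
      intro n _
      have : Antitone (fun t => n.real {a | t ≤ f a}) := by
        intro s t hst
        exact measureReal_mono (fun a ha => hst.trans ha)
      refine Integrable.mono' (integrable_const (1 : ℝ)) this.measurable.aestronglyMeasurable ?_
      refine Eventually.of_forall fun t => ?_
      rw [Real.norm_of_nonneg measureReal_nonneg]
      exact measureReal_le_one
    rw [← integral_sub (hanti m') (hanti m)]
    have h1 : ‖∫ t in Ioc 0 ‖f‖, (m'.real {a | t ≤ f a} - m.real {a | t ≤ f a})‖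
        ≤ δ * (volume : Measure ℝ).real (Ioc 0 ‖f‖) := by
      apply norm_setIntegral_le_of_norm_le_const
      · simp
      · intro t _
        rw [Real.norm_eq_abs]
        exact h _ (f.continuous.measurable measurableSet_Ici)
    rw [Real.norm_eq_abs] at h1
    refine h1.trans (le_of_eq ?_)
    rw [Real.volume_real_Ioc_of_le (norm_nonneg f)]
    ring
  have hint : ∀ (n : Measure X) [IsProbabilityMeasure n], Integrable f n := by
    intro n _
    exact f.integrable n
  set c : X →ᵇ ℝ := BoundedContinuousFunction.const X ‖f‖ with hc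
  have hnn : ∀ x, 0 ≤ (f + c) x := by
    intro x
    have := f.norm_coe_le_norm x
    rw [Real.norm_eq_abs] at this
    simp only [hc, BoundedContinuousFunction.coe_add, Pi.add_apply,
      BoundedContinuousFunction.const_apply]
    linarith [neg_abs_le (f x)]
  have h2 := hpos (f + c) hnn
  have h3 : ∀ (n : Measure X) [IsProbabilityMeasure n],
      ∫ x, (f + c) x ∂n = ∫ x, f x ∂n + ‖f‖ := by
    intro n _
    simp only [hc, BoundedContinuousFunction.coe_add, Pi.add_apply,
      BoundedContinuousFunction.const_apply]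
    rw [integral_add (hint n) (integrable_const _)]
    simp
  rw [h3 m, h3 m'] at h2
  have h4 : ‖f + c‖ ≤ 2 * ‖f‖ := by
    refine (norm_add_le _ _).trans ?_
    have : ‖c‖ ≤ ‖f‖ := by
      rw [hc]
      refine (BoundedContinuousFunction.norm_const_le _).trans ?_
      simp
    linarith
  calc |∫ x, f x ∂m' - ∫ x, f x ∂m|
      = |∫ x, f x ∂m' + ‖f‖ - (∫ x, f x ∂m + ‖f‖)| := by congr 1; ring
    _ ≤ ‖f + c‖ * δ := h2
    _ ≤ 2 * ‖f‖ * δ := by gcongr

omit [PseudoMetrizableSpace X] in
/-- approximate invariance in total variation becomes invariance in the limit -/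
theorem map_eq_of_approx [HasOuterApproxClosed X]
    (hlim : Tendsto μ atTop (𝓝 ν)) {T : X → X} (hT : Continuous T)
    {δ : ℕ → ℝ} (hδ : Tendsto δ atTop (𝓝 0))
    (h : ∀ n, ∀ s, MeasurableSet s →
      |(μ n : Measure X).real (T ⁻¹' s) - (μ n : Measure X).real s| ≤ δ n) :
    (ν : Measure X).map T = ν := by
  apply map_eq_of_integral hlim hT
  intro f
  rw [tendsto_zero_iff_abs_tendsto_zero]
  have hlim2 : Tendsto (fun n => 2 * ‖f‖ * δ n) atTop (𝓝 0) := by
    simpa using hδ.const_mul (2 * ‖f‖)
  refine squeeze_zero (fun n => abs_nonneg _) (fun n => ?_) hlim2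
  have : IsProbabilityMeasure ((μ n : Measure X).map T) :=
    Measure.isProbabilityMeasure_map hT.measurable.aemeasurable
  have h5 := abs_integral_sub_le (μ n : Measure X) ((μ n : Measure X).map T) (δ := δ n)
    (fun s hs => by
      rw [map_measureReal_apply hT.measurable hs]
      exact h n s hs) f
  rw [integral_map hT.measurable.aemeasurable f.continuous.aestronglyMeasurable] at h5
  exact h5

end limits

/-! ### fixed first marginal -/

section stable

variable {X Y : Type*} [TopologicalSpace X] [MeasurableSpace X] [BorelSpace X]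
  [PseudoMetrizableSpace X] [SecondCountableTopology X]
  [TopologicalSpace Y] [MeasurableSpace Y] [BorelSpace Y]
  [PseudoMetrizableSpace Y] [SecondCountableTopology Y]
  {μ : ℕ → ProbabilityMeasure (X × Y)} {ν : ProbabilityMeasure (X × Y)}
  {P : Measure X} [IsProbabilityMeasure P]

omit [SecondCountableTopology X] [PseudoMetrizableSpace Y] in
/-- the first marginal passes to the limit -/
theorem fst_eq_of_tendsto (hlim : Tendsto μ atTop (𝓝 ν))
    (hfst : ∀ n, (μ n : Measure (X × Y)).map Prod.fst = P) :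
    (ν : Measure (X × Y)).map Prod.fst = P := by
  have : IsProbabilityMeasure ((ν : Measure (X × Y)).map Prod.fst) :=
    Measure.isProbabilityMeasure_map measurable_fst.aemeasurable
  apply ext_of_forall_integral_eq_of_IsFiniteMeasure
  intro f
  rw [integral_map measurable_fst.aemeasurable f.continuous.aestronglyMeasurable]
  have h1 := (ProbabilityMeasure.tendsto_iff_forall_integral_tendsto.1 hlim)
    (f.compContinuous ⟨Prod.fst, continuous_fst⟩)
  have h2 : ∀ n, ∫ p, (f.compContinuous ⟨Prod.fst, continuous_fst⟩) p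
      ∂(μ n : Measure (X × Y)) = ∫ x, f x ∂P := by
    intro n
    rw [← hfst n, integral_map measurable_fst.aemeasurable f.continuous.aestronglyMeasurable]
    rfl
  simp only [h2] at h1
  exact (tendsto_nhds_unique h1 tendsto_const_nhds)

/-- with a fixed first marginal, closed events intersected with ANY measurable event of the first
coordinate: lower bounds pass to the limit -/
theorem le_of_closed_fst (hlim : Tendsto μ atTop (𝓝 ν))
    (hfst : ∀ n, (μ n : Measure (X × Y)).map Prod.fst = P)
    {A : Set X} (hA : MeasurableSet A) {F : Set (X × Y)} (hF : IsClosed F) {c : ℝ≥0∞}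
    (h : ∃ᶠ n in atTop, c ≤ (μ n : Measure (X × Y)) (Prod.fst ⁻¹' A ∩ F)) :
    c ≤ (ν : Measure (X × Y)) (Prod.fst ⁻¹' A ∩ F) := by
  apply ENNReal.le_of_forall_pos_le_add
  intro ε hε _
  obtain ⟨K, hKA, hK, hlt⟩ := hA.exists_isClosed_lt_add (μ := P) (measure_ne_top P A)
    (ε := (ε : ℝ≥0∞)) (by exact_mod_cast hε.ne')
  have hdiff : P (A \ K) ≤ ε := by
    rw [measure_sdiff hKA hK.measurableSet.nullMeasurableSet (measure_ne_top P K)]
    exact tsub_le_iff_left.2 hlt.le
  have h1 : ∃ᶠ n in atTop, c - ε ≤ (μ n : Measure (X × Y)) (Prod.fst ⁻¹' K ∩ F) := by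
    refine h.mono fun n hn => ?_
    rw [tsub_le_iff_right]
    refine hn.trans ?_
    have hsub : Prod.fst ⁻¹' A ∩ F ⊆ (Prod.fst ⁻¹' K ∩ F) ∪ Prod.fst ⁻¹' (A \ K) := by
      rintro ⟨x, y⟩ ⟨hx, hy⟩
      by_cases hxK : x ∈ K
      · exact Or.inl ⟨hxK, hy⟩
      · exact Or.inr ⟨hx, hxK⟩
    refine (measure_mono hsub).trans ((measure_union_le _ _).trans ?_)
    gcongr
    rw [← Measure.map_apply measurable_fst (hA.diff hK.measurableSet), hfst n]
    exact hdiff
  have h2 := le_of_closed hlim ((hK.preimage continuous_fst).inter hF) h1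
  rw [tsub_le_iff_right] at h2
  refine h2.trans ?_
  gcongr

/-- with a fixed first marginal, open events intersected with ANY measurable event of the first
coordinate: upper bounds pass to the limit -/
theorem le_of_open_fst (hlim : Tendsto μ atTop (𝓝 ν))
    (hfst : ∀ n, (μ n : Measure (X × Y)).map Prod.fst = P)
    {A : Set X} (hA : MeasurableSet A) {G : Set (X × Y)} (hG : IsOpen G) {c : ℝ≥0∞}
    (h : ∃ᶠ n in atTop, (μ n : Measure (X × Y)) (Prod.fst ⁻¹' A ∩ G) ≤ c) :
    (ν : Measure (X × Y)) (Prod.fst ⁻¹' A ∩ G) ≤ c := by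
  apply ENNReal.le_of_forall_pos_le_add
  intro ε hε _
  obtain ⟨V, hAV, hV, hlt⟩ := A.exists_isOpen_lt_add (μ := P) (measure_ne_top P A)
    (ε := (ε : ℝ≥0∞)) (by exact_mod_cast hε.ne')
  have hdiff : P (V \ A) ≤ ε := by
    rw [measure_sdiff hAV hA.nullMeasurableSet (measure_ne_top P A)]
    exact tsub_le_iff_left.2 hlt.le
  have h1 : ∃ᶠ n in atTop, (μ n : Measure (X × Y)) (Prod.fst ⁻¹' V ∩ G) ≤ c + ε := by
    refine h.mono fun n hn => ?_
    have hsub : Prod.fst ⁻¹' V ∩ G ⊆ (Prod.fst ⁻¹' A ∩ G) ∪ Prod.fst ⁻¹' (V \ A) := by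
      rintro ⟨x, y⟩ ⟨hx, hy⟩
      by_cases hxA : x ∈ A
      · exact Or.inl ⟨hxA, hy⟩
      · exact Or.inr ⟨hx, hxA⟩
    refine (measure_mono hsub).trans ((measure_union_le _ _).trans ?_)
    gcongr
    rw [← Measure.map_apply measurable_fst (hV.measurableSet.diff hA), hfst n]
    exact hdiff
  have h2 := le_of_open hlim ((hV.preimage continuous_fst).inter hG) h1
  refine le_trans ?_ h2
  gcongr

/-- with a fixed first marginal, clopen conditions on the second coordinate and ANY measurable
event of the first coordinate: the probabilities converge -/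
theorem tendsto_of_clopen_fst (hlim : Tendsto μ atTop (𝓝 ν))
    (hfst : ∀ n, (μ n : Measure (X × Y)).map Prod.fst = P)
    {A : Set X} (hA : MeasurableSet A) {F : Set (X × Y)} (hF : IsClopen F) :
    Tendsto (fun n => (μ n : Measure (X × Y)) (Prod.fst ⁻¹' A ∩ F)) atTop
      (𝓝 ((ν : Measure (X × Y)) (Prod.fst ⁻¹' A ∩ F))) := by
  refine tendsto_of_le_liminf_of_limsup_le ?_ ?_ (by isBoundedDefault) (by isBoundedDefault)
  · by_contra hcon
    push Not at hcon
    obtain ⟨c, hc1, hc2⟩ := exists_between hcon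
    have h1 : ∃ᶠ n in atTop, (μ n : Measure (X × Y)) (Prod.fst ⁻¹' A ∩ F) ≤ c :=
      (frequently_lt_of_liminf_lt (by isBoundedDefault) hc1).mono fun n hn => hn.le
    exact absurd (le_of_open_fst hlim hfst hA hF.isOpen h1) (not_le.2 hc2)
  · by_contra hcon
    push Not at hcon
    obtain ⟨c, hc1, hc2⟩ := exists_between hcon
    have h1 : ∃ᶠ n in atTop, c ≤ (μ n : Measure (X × Y)) (Prod.fst ⁻¹' A ∩ F) :=
      (frequently_lt_of_lt_limsup (by isBoundedDefault) hc2).mono fun n hn => hn.le
    exact absurd (le_of_closed_fst hlim hfst hA hF.isClosed h1) (not_le.2 hc1)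

end stable

end Pool.Agent.Helper5.WL
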